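import Pool.Agent.ShghN.LargeN
import Pool.Agent.ShghQG.Main

/-!
# The main theorems: all but nine multiplicities are small
-/

namespace ShghN

open ShghQ ShghT

theorem MainN_image {s : ℕ} (c : Fin 9 → Fin s) (n : ℕ) :
    (Finset.univ.image fun l => Fin.castAdd n (c l)) =
      (Finset.univ.image c).map (Fin.castAddEmb n) := by
  ext x
  simp only [Finset.mem_image, Finset.mem_univ, true_and, Finset.mem_map]
  constructor
  · rintro ⟨l, rfl⟩
    exact ⟨c l, ⟨l, rfl⟩, rfl⟩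
  · rintro ⟨_, ⟨l, rfl⟩, rfl⟩
    exact ⟨l, rfl⟩

theorem MainN_inj {s : ℕ} (c : Fin 9 → Fin s) (hc : Function.Injective c) (n : ℕ) :
    Function.Injective fun l => Fin.castAdd n (c l) :=
  (Fin.castAdd_injective s n).comp hc

theorem MainN_card {s : ℕ} (μ : Fin s → ℕ) (c : Fin 9 → Fin s) (κ n : ℕ) (hκ1 : 1 ≤ κ)
    (hκ : (((Finset.univ \ Finset.univ.image c).image μ).erase 0).card ≤ κ) :
    (((Finset.univ \ Finset.univ.image fun l => Fin.castAdd n (c l)).image
      (Fin.append μ fun _ : Fin n => 1)).erase 0).card ≤ 2 * κ := by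
  rw [MainN_image]
  refine (ShghQG.card_append μ n (Finset.univ.image c)).trans ?_
  omega

theorem MainN_le {s : ℕ} (μ : Fin s → ℕ) (c : Fin 9 → Fin s) (m n : ℕ) (hm : 1 ≤ m)
    (hU : ∀ i, i ∉ Set.range c → μ i ≤ m) :
    ∀ i, i ∉ Set.range (fun l => Fin.castAdd n (c l)) →
      (Fin.append μ fun _ : Fin n => 1) i ≤ m := by
  intro i
  refine Fin.addCases (fun i => ?_) (fun j => ?_) i
  · intro hi
    rw [Fin.append_left]
    refine hU i fun ⟨l, hl⟩ => hi ⟨l, ?_⟩
    simp only [hl]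
  · intro _
    rw [Fin.append_right]
    exact hm

theorem MainN_cov {s : ℕ} (μ : Fin s → ℕ) (δ n : ℕ)
    (hn : tri (δ + 1) = ∑ i, tri (μ i) + n) :
    tri (δ + 1) ≤ ∑ i, tri ((Fin.append μ fun _ : Fin n => 1) i) := by
  rw [Fin.sum_univ_add]
  simp only [Fin.append_left, Fin.append_right]
  rw [Finset.sum_const, Finset.card_univ, Fintype.card_fin, smul_eq_mul, hn]
  have h1 : tri 1 = 1 := by simp [tri]
  rw [h1, mul_one]

/-- Nine large points. `finrank_of_emp`: `emp_nine'` for `μ`, and for `Fin.append μ 1` with `κ + 1 ≤ 2 κ` (`ShghQG.card_append`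
with `S = univ.image c`; the map `Fin.castAdd n ∘ c`). -/
theorem main_nine {k : Type*} [Field k] {s : ℕ} (P : Fin s → Fin 2 → k)
    (hP : AlgebraicIndependent (⊥ : Subfield k) (fun ij : Fin s × Fin 2 => P ij.1 ij.2))
    (δ : ℕ) (μ : Fin s → ℕ) (c : Fin 9 → Fin s) (hc : Function.Injective c) (m κ e : ℕ)
    (hm : 1 ≤ m) (hκ1 : 1 ≤ κ) (hstd : Std δ (fun l => μ (c l)) e)
    (hU : ∀ i, i ∉ Set.range c → μ i ≤ m)
    (hκ : (((Finset.univ \ Finset.univ.image c).image μ).erase 0).card ≤ κ)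
    (h8 : 23 * m ^ 2 ≤ μ (c 8)) (he : 44 * κ * m + 1 ≤ e) :
    (Module.finrank k (LS δ μ P) : ℤ) =
      max 0 (((δ + 2).choose 2 : ℤ) - ∑ i, ((μ i + 1).choose 2 : ℤ)) := by
  refine finrank_of_emp P hP δ μ (fun hcov => ?_) (fun n hn => ?_)
  · exact emp_nine' δ μ c hc m κ e hm hκ1 hstd hU hκ h8 (by
      have h : 22 * κ * m ≤ 44 * κ * m := Nat.mul_le_mul_right _ (Nat.mul_le_mul_right _ (by norm_num))
      omega) hcov
  · refine emp_nine' δ (Fin.append μ fun _ : Fin n => 1) (fun l => Fin.castAdd n (c l))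
      (MainN_inj c hc n) m (2 * κ) e hm (by omega) ?_ (MainN_le μ c m n hm hU)
      (MainN_card μ c κ n hκ1 hκ) ?_ ?_ (MainN_cov μ δ n hn)
    · have h : (fun l => (Fin.append μ fun _ : Fin n => 1) (Fin.castAdd n (c l))) =
          fun l => μ (c l) := by
        funext l
        rw [Fin.append_left]
      rw [h]
      exact hstd
    · rw [Fin.append_left]
      exact h8
    · have h : 22 * (2 * κ) * m = 44 * κ * m := by ring
      rw [h]
      exact he

/-- **Main theorem.** If `52 m² ≤ μ (c 3)`: `finrank_of_emp` and `emp_large` (for `Fin.append μ 1` with `2 κ`). Otherwise at most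
three of the nine multiplicities are `≥ 52 m²`: `ShghQG.main` with `i0 = c 0`, `B = image c {1, ..., 8}`:
`Σ_B (μ i + m) + 45 m² ≤ μ (c 1) + μ (c 2) + 6 · 52 m² + 8 m + 45 m² ≤ μ (c 1) + μ (c 2) + 365 m² ≤ δ` if `365 m² ≤ μ (c 0)`, and otherwise
it is `≤ 8 · 365 m² + 53 m² ≤ 3000 m² ≤ δ`; `μ (c 0) + 40 κ m ≤ δ` as one may assume `κ ≤ m` (replace `κ` by
`min κ m`, `ShghQG.card_values_le`); `12800 κ m⁴ ≤ δ²` as `(3 δ) δ ≥ 700000 κ m⁴`. -/
theorem main {k : Type*} [Field k] {s : ℕ} (P : Fin s → Fin 2 → k)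
    (hP : AlgebraicIndependent (⊥ : Subfield k) (fun ij : Fin s × Fin 2 => P ij.1 ij.2))
    (δ : ℕ) (μ : Fin s → ℕ) (c : Fin 9 → Fin s) (hc : Function.Injective c) (m κ : ℕ)
    (hm : 1 ≤ m) (hκ1 : 1 ≤ κ) (hanti : Antitone fun l => μ (c l))
    (hstd : μ (c 0) + μ (c 1) + μ (c 2) ≤ δ) (hU : ∀ i, i ∉ Set.range c → μ i ≤ m)
    (hκ : (((Finset.univ \ Finset.univ.image c).image μ).erase 0).card ≤ κ)
    (h1 : μ (c 0) + 3000 * m ^ 2 ≤ δ) (h2 : ∑ l, μ (c l) + 600 * m ^ 2 ≤ 3 * δ)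
    (h3 : 700000 * κ * m ^ 4 ≤ (3 * δ - ∑ l, μ (c l)) * (δ - μ (c 0))) :
    (Module.finrank k (LS δ μ P) : ℤ) =
      max 0 (((δ + 2).choose 2 : ℤ) - ∑ i, ((μ i + 1).choose 2 : ℤ)) := by
  rcases le_or_gt (52 * m ^ 2) (μ (c 3)) with hcase | hcase
  · refine finrank_of_emp P hP δ μ (fun hcov => ?_) (fun n hn => ?_)
    · refine emp_large δ μ c hc m κ hm hκ1 hanti hstd hU hκ hcase h1 h2 (le_trans ?_ h3) hcov
      exact Nat.mul_le_mul_right _ (Nat.mul_le_mul_right _ (by norm_num))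
    · refine emp_large δ (Fin.append μ fun _ : Fin n => 1) (fun l => Fin.castAdd n (c l))
        (MainN_inj c hc n) m (2 * κ) hm (by omega) ?_ ?_ (MainN_le μ c m n hm hU)
        (MainN_card μ c κ n hκ1 hκ) ?_ ?_ ?_ ?_ (MainN_cov μ δ n hn)
      · have h : (fun l => (Fin.append μ fun _ : Fin n => 1) (Fin.castAdd n (c l))) =
            fun l => μ (c l) := by
          funext l
          rw [Fin.append_left]
        rw [h]
        exact hanti
      · simp only [Fin.append_left]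
        exact hstd
      · simp only [Fin.append_left]
        exact hcase
      · simp only [Fin.append_left]
        exact h1
      · simp only [Fin.append_left]
        exact h2
      · simp only [Fin.append_left]
        have h : 350000 * (2 * κ) * m ^ 4 = 700000 * κ * m ^ 4 := by ring
        rw [h]
        exact h3
  · classical
    have hm2 : m ≤ m ^ 2 := by nlinarith
    have hB0 : insert (c 0) ((Finset.univ.erase (0 : Fin 9)).image c) = Finset.univ.image c := by
      rw [← Finset.image_insert, Finset.insert_erase (Finset.mem_univ _)]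
    have hle1 : ∀ l, l ≠ 0 → μ (c l) ≤ μ (c 1) := by
      intro l hl
      exact hanti (show (1 : Fin 9) ≤ l from Fin.one_le_of_ne_zero hl)
    have hle0 : ∀ l, μ (c l) ≤ μ (c 0) := fun l => hanti (Fin.zero_le l)
    have hle3 : ∀ l : Fin 9, 3 ≤ l → μ (c l) ≤ μ (c 3) := fun l hl => hanti hl
    refine ShghQG.main P hP δ μ m (min κ m) (c 0) ((Finset.univ.erase (0 : Fin 9)).image c) hm
      (le_min hκ1 hm) ?_ ?_ ?_ ?_ ?_ ?_ ?_
    · intro h
      obtain ⟨l, hl, hl'⟩ := Finset.mem_image.mp h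
      exact (Finset.mem_erase.mp hl).1 (hc hl')
    · intro i hi0 hiB
      refine hU i fun ⟨l, hl⟩ => ?_
      by_cases hl0 : l = 0
      · exact hi0 (by rw [← hl, hl0])
      · exact hiB (Finset.mem_image.mpr ⟨l, Finset.mem_erase.mpr ⟨hl0, Finset.mem_univ _⟩, hl⟩)
    · rw [hB0]
      refine le_min hκ (ShghQG.card_values_le μ m _ fun i hi => hU i fun ⟨l, hl⟩ => ?_)
      exact (Finset.mem_sdiff.mp hi).2 (Finset.mem_image.mpr ⟨l, Finset.mem_univ _, hl⟩)
    · intro i hi
      obtain ⟨l, hl, rfl⟩ := Finset.mem_image.mp hi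
      refine ⟨hle0 l, ?_⟩
      have h5 := hle1 l (Finset.mem_erase.mp hl).1
      omega
    · rw [Finset.sum_image (fun a _ b _ h => hc h)]
      have h6 : ∑ x ∈ Finset.univ.erase (0 : Fin 9), (μ (c x) + m) + (μ (c 0) + m) =
          ∑ x : Fin 9, (μ (c x) + m) := Finset.sum_erase_add _ _ (Finset.mem_univ _)
      simp only [Fin.sum_univ_succ, Fin.sum_univ_zero] at h6
      have e1 : (Fin.succ 0 : Fin 9) = 1 := rfl
      have t3 := hle3 3 (by decide)
      have t4 := hle3 4 (by decide)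
      have t5 := hle3 5 (by decide)
      have t6 := hle3 6 (by decide)
      have t7 := hle3 7 (by decide)
      have t8 := hle3 8 (by decide)
      have u1 := hle0 1
      have u2 := hle0 2
      change _ + _ = (μ (c 0) + m) + ((μ (c 1) + m) + ((μ (c 2) + m) + ((μ (c 3) + m) +
        ((μ (c 4) + m) + ((μ (c 5) + m) + ((μ (c 6) + m) + ((μ (c 7) + m) +
          ((μ (c 8) + m) + 0)))))))) at h6
      rcases le_or_gt (365 * m ^ 2) (μ (c 0)) with h7 | h7
      · omega
      · omega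
    · have h8 : 40 * min κ m * m ≤ 40 * m ^ 2 := by
        have h9 : min κ m ≤ m := min_le_right _ _
        calc 40 * min κ m * m ≤ 40 * m * m := Nat.mul_le_mul_right _ (Nat.mul_le_mul_left _ h9)
          _ = 40 * m ^ 2 := by ring
      omega
    · have h9 : min κ m ≤ κ := min_le_left _ _
      have h10 : (3 * δ - ∑ l, μ (c l)) * (δ - μ (c 0)) ≤ (3 * δ) * δ :=
        Nat.mul_le_mul (Nat.sub_le _ _) (Nat.sub_le _ _)
      have h11 : 700000 * κ * m ^ 4 ≤ 3 * δ ^ 2 := by
        refine (h3.trans h10).trans (le_of_eq ?_)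
        ring
      have h12 : 12800 * min κ m * m ^ 4 ≤ 12800 * κ * m ^ 4 :=
        Nat.mul_le_mul_right _ (Nat.mul_le_mul_left _ h9)
      have h13 : 12800 * κ * m ^ 4 = 12800 * (κ * m ^ 4) := by ring
      have h14 : 700000 * κ * m ^ 4 = 700000 * (κ * m ^ 4) := by ring
      omega

end ShghN
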