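import Pool.Agent.ShghQG.Close

/-!
# Closing phase for almost concave demands
-/

namespace ShghN

open ShghQ ShghQG

/-- Concavity up to an error of two. -/
def WConc (m : ℕ) (D : ℕ → ℕ) : Prop :=
  ∀ a b, a ≤ b → b + 1 ≤ m → (D a : ℤ) - D (a + 1) ≤ (D b : ℤ) - D (b + 1) + 2

theorem CloN_sum0 (n : ℕ) : 2 * ∑ t ∈ Finset.range n, ((t : ℤ) + 1) = n * (n + 1) := by
  induction n with
  | zero => simp
  | succ n ih =>
    rw [Finset.sum_range_succ, mul_add, ih]
    push_cast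
    ring

/-- Adapt the proof of `ShghQG.clo_r_zone`. Each of the terms
`Λ_{x+1} - Λ_{t+1}` is now `≥ 16 (x - t) - 2 t - 2`, so
`(x+1)(x+2) r ≥ 4 x (x+1) (x+2) + 4 x (x+1) - 2 x (x+1) = x (x+1) (4x + 10) ≥ (x+1)(x+2)(3x+1)` for `x ≥ 1`.
(In `ShghQG.clo_r_zone` the sum of the main terms is
`2 Σ (t+1) (16 (x-t) - 2 t) = (16/3) x(x+1)(x+2) - (4/3) (x-1)x(x+1) = x (x+1) (4x + 12)`; the new error is
`2 Σ_{t<x} (t+1) 2 = 2 x (x+1)`.) -/
theorem clo_r_zone {m μ q0 x : ℕ} {D F : ℕ → ℕ} {ρ : ℤ} {e : List ℕ} (hμm : μ ≤ m) (hmq : m ≤ q0)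
    (h : Clo m μ q0 D F ρ (x + 1) e) (hx1 : 1 ≤ x) (hx : x + 1 ≤ μ) (hconc : WConc m D) :
    3 * (x : ℤ) + 1 ≤ (D x : ℤ) - F x - ((μ - x : ℕ) : ℤ) * ρ := by
  have hE := CloR_list_nonneg (min μ (x + 1)) e
  have htot := CloR_total (hμm.trans hmq) h
  have hcol := h.col
  set E := (e.map fun g => ((min μ (x + 1) - g : ℕ) : ℤ)).sum with hEdef
  have hcast : ((μ - (x + 1) : ℕ) : ℤ) = (μ : ℤ) - (x + 1 : ℕ) := by
    rw [Nat.cast_sub hx]
  have hcast' : ((μ - x : ℕ) : ℤ) = (μ : ℤ) - x := by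
    rw [Nat.cast_sub (by omega)]
  have hz := zone_identity (x + 1) (by omega) μ ρ E (fun l => (D l : ℤ) - F l)
    (by
      rw [hcast] at hcol
      linarith)
    (by
      rw [htot]
      congr 2
      apply Finset.sum_congr rfl
      intro l hl
      rw [Finset.mem_range] at hl
      rw [Nat.cast_sub (by omega)])
  simp only [Nat.add_sub_cancel] at hz
  have hsum : ∑ t ∈ Finset.range x, ((t : ℤ) + 1) * (16 * ((x : ℤ) - t) - 2 * t - 2) ≤
      ∑ t ∈ Finset.range x, ((t : ℤ) + 1) * (((D x : ℤ) - F x) - ((D (x + 1) : ℤ) - F (x + 1)) -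
        (((D t : ℤ) - F t) - ((D (t + 1) : ℤ) - F (t + 1)))) := by
    apply Finset.sum_le_sum
    intro t ht
    rw [Finset.mem_range] at ht
    apply mul_le_mul_of_nonneg_left _ (by positivity)
    have hsl := hconc t x (by omega) (by omega)
    have hc := h.conc (t + 1) (x + 1) (by omega) (by omega) hx le_rfl
    have h1 : x + 1 + μ - max (x + 1) (t + 1 + μ) = x - t := by omega
    rw [h1] at hc
    simp only [Nat.add_sub_cancel] at hc
    have h2 : ((2 * (t + 1) - (x + 1) : ℕ) : ℤ) ≤ t := by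
      have : 2 * (t + 1) - (x + 1) ≤ t := by omega
      exact_mod_cast this
    have h3 : ((x - t : ℕ) : ℤ) = (x : ℤ) - t := by rw [Nat.cast_sub ht.le]
    rw [h3] at hc
    linarith
  have hs1 := CloR_sum1 x
  have hs2 := CloN_sum0 x
  have hs3 : ∑ t ∈ Finset.range x, ((t : ℤ) + 1) * (16 * ((x : ℤ) - t) - 2 * t - 2) =
      ∑ t ∈ Finset.range x, ((t : ℤ) + 1) * (16 * ((x : ℤ) - t) - 2 * t) -
        2 * ∑ t ∈ Finset.range x, ((t : ℤ) + 1) := by
    rw [Finset.mul_sum, ← Finset.sum_sub_distrib]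
    exact Finset.sum_congr rfl (fun t _ => by ring)
  rw [hs3] at hsum
  rw [hcast']
  have hx' : (1 : ℤ) ≤ x := by exact_mod_cast hx1
  push_cast at hz
  have hEx : 0 ≤ E * ((x : ℤ) + 1 - 2) * ((x : ℤ) + 1 + 1) := by
    apply mul_nonneg (mul_nonneg hE (by linarith)) (by linarith)
  have hr : ((x : ℤ) + 1) * (x + 1 + 1) * ((D x : ℤ) - F x - ((μ : ℤ) - x) * ρ) ≥
      (x : ℤ) * (x + 1) * (4 * x + 10) := by
    have h5 : ((x : ℤ) + 1) * (x + 1 + 1) * ((D x : ℤ) - F x - ((μ : ℤ) - x) * ρ) =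
        ((x : ℤ) + 1) * (x + 1 + 1) * ((D x : ℤ) - F x - ((μ : ℤ) - (x + 1) + 1) * ρ) := by ring
    rw [h5, hz]
    nlinarith
  have hpos : 0 < ((x : ℤ) + 1) * (x + 1 + 1) := by positivity
  have h6 : ((x : ℤ) + 1) * (x + 1 + 1) * (3 * (x : ℤ) + 1) ≤
      ((x : ℤ) + 1) * (x + 1 + 1) * ((D x : ℤ) - F x - ((μ : ℤ) - x) * ρ) := by
    refine le_trans ?_ hr
    nlinarith [mul_nonneg (by linarith : (0 : ℤ) ≤ (x : ℤ) - 1) (by linarith : (0 : ℤ) ≤ (x : ℤ) + 1),
      mul_nonneg (mul_nonneg (by linarith : (0 : ℤ) ≤ (x : ℤ) - 1)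
        (by linarith : (0 : ℤ) ≤ (x : ℤ) + 1)) (by linarith : (0 : ℤ) ≤ (x : ℤ) + 4)]
  exact le_of_mul_le_mul_left h6 hpos

theorem CloN_step {m μ q0 N x : ℕ} {D F : ℕ → ℕ} (hμ : 1 ≤ μ) (hμm : μ ≤ m) (hq : 2 * m ≤ q0)
    (hD : ∀ l, l ≤ q0 → 8 * m ^ 2 + m * (D l - D (l - 1)) ≤ D l)
    (h20 : ∀ l, l ≤ 2 * m → 20 * m ^ 2 + m * (D l - D (l - 1)) ≤ D l)
    (hconc : WConc m D)
    (hx1 : 1 ≤ x) (hxq : x + 1 ≤ q0)
    (h : ∃ (Z : List (ℕ × ℕ)) (ρ : ℤ) (e : List ℕ), (Z.length : ℤ) + ρ = N ∧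
      (∀ z ∈ Z, Adm (q0 + 1) μ z.1 z.2) ∧
      Clo m μ q0 D (fun l => F l + (Z.map fun z => pat μ z.1 z.2 l).sum) ρ (x + 1) e) :
    ∃ (Z : List (ℕ × ℕ)) (ρ : ℤ) (e : List ℕ), (Z.length : ℤ) + ρ = N ∧
      (∀ z ∈ Z, Adm (q0 + 1) μ z.1 z.2) ∧
      Clo m μ q0 D (fun l => F l + (Z.map fun z => pat μ z.1 z.2 l).sum) ρ x e := by
  obtain ⟨Z, ρ, e, hlen, hadm, hclo⟩ := h
  have hm : 1 ≤ m := by omega
  have hmq : m ≤ q0 := by omega
  have hmZ : (1 : ℤ) ≤ m := by exact_mod_cast hm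
  have hμmZ : (μ : ℤ) ≤ m := by exact_mod_cast hμm
  have key : 3 * ((min μ x : ℕ) : ℤ) + 1 ≤
      (D x : ℤ) - (fun l => F l + (Z.map fun z => pat μ z.1 z.2 l).sum : ℕ → ℕ) x -
        ((μ - x : ℕ) : ℤ) * ρ ∧
      (μ + 1 ≤ x → x < 2 * μ → 20 * (μ : ℤ) ≤
        (D x : ℤ) - (fun l => F l + (Z.map fun z => pat μ z.1 z.2 l).sum : ℕ → ℕ) x -
          ((μ - x : ℕ) : ℤ) * ρ) := by
    by_cases hx : μ ≤ x
    · have h1 := ShghQG.clo_r_big hm hclo hx
      have h2 := hD (x + 1) hxq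
      rw [Nat.add_sub_cancel] at h2
      have h2' : (8 * (m : ℤ) ^ 2) + m * ((D (x + 1) - D x : ℕ) : ℤ) ≤ D (x + 1) := by
        exact_mod_cast h2
      set r : ℤ := (D x : ℤ) - ((F x + (Z.map fun z => pat μ z.1 z.2 x).sum : ℕ) : ℤ) -
        ((μ - x : ℕ) : ℤ) * ρ with hr
      have h1' : (D (x + 1) : ℤ) ≤ m * r + m * ((D (x + 1) - D x : ℕ) : ℤ) := h1
      have h3 : 8 * (m : ℤ) ≤ r := by
        by_contra hcon
        push Not at hcon
        nlinarith
      refine ⟨?_, ?_⟩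
      · show 3 * ((min μ x : ℕ) : ℤ) + 1 ≤ r
        rw [min_eq_left hx]
        linarith
      · intro _ h5
        show 20 * (μ : ℤ) ≤ r
        have h6 := h20 (x + 1) (by omega)
        rw [Nat.add_sub_cancel] at h6
        have h6' : (20 * (m : ℤ) ^ 2) + m * ((D (x + 1) - D x : ℕ) : ℤ) ≤ D (x + 1) := by
          exact_mod_cast h6
        have h7 : 20 * (m : ℤ) ≤ r := by
          by_contra hcon
          push Not at hcon
          nlinarith
        linarith
    · push Not at hx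
      have h1 := clo_r_zone hμm hmq hclo hx1 hx hconc
      refine ⟨?_, ?_⟩
      · rw [min_eq_right hx.le]
        have h2 : (1 : ℤ) ≤ x := by exact_mod_cast hx1
        linarith
      · intro h5 _
        omega
  obtain ⟨b, e', heb, hclo'⟩ := clo_step hμ hμm hmq hclo hx1 key.1 key.2
  refine ⟨Z ++ e.map (fun g => (x, g)) ++ List.replicate (b - e.length) (x, min μ (x + 1)),
    ρ - b, e', ?_, ?_, ?_⟩
  · rw [List.length_append, List.length_append, List.length_map, List.length_replicate]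
    push_cast
    rw [Nat.cast_sub heb]
    linarith
  · intro z hz
    rw [List.mem_append, List.mem_append] at hz
    rcases hz with (hz | hz) | hz
    · exact hadm z hz
    · rw [List.mem_map] at hz
      obtain ⟨g, hg, rfl⟩ := hz
      obtain ⟨h1, h2, h3⟩ := hclo.e_bd g hg
      have h4 : g + 1 ≤ μ := h2.trans (min_le_left _ _)
      have h5 : g + 1 ≤ x + 1 := h2.trans (min_le_right _ _)
      exact ⟨h1, by show g ≤ μ; omega, by show g ≤ x + 1; omega, by show x < q0 + 1; omega,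
        fun h6 => by
          have h7 : x + 1 = q0 + 1 := h6
          omega⟩
    · rw [List.mem_replicate] at hz
      obtain ⟨-, rfl⟩ := hz
      exact ⟨by show 1 ≤ min μ (x + 1); omega, by show min μ (x + 1) ≤ μ; omega,
        by show min μ (x + 1) ≤ x + 1; omega, by show x < q0 + 1; omega,
        fun h6 => by
          have h7 : x + 1 = q0 + 1 := h6
          omega⟩
  · have hF : (fun l => F l + ((Z ++ e.map (fun g => (x, g)) ++
        List.replicate (b - e.length) (x, min μ (x + 1))).map fun z => pat μ z.1 z.2 l).sum) =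
        fun l => (fun l => F l + (Z.map fun z => pat μ z.1 z.2 l).sum : ℕ → ℕ) l +
          (e.map fun g => pat μ x g l).sum + (b - e.length) * pat μ x (min μ (x + 1)) l := by
      funext l
      rw [List.map_append, List.map_append, List.sum_append, List.sum_append, List.map_map,
        ShghQG.Close_sum_rep]
      simp only [Function.comp_def]
      ring
    rw [hF]
    exact hclo'

/-- Copy of `ShghQG.close` (with `Close_step`), with the new `clo_r_zone`. -/
theorem close {m μ q0 N : ℕ} {D F : ℕ → ℕ} (hμ : 1 ≤ μ) (hμm : μ ≤ m) (hq : 2 * m ≤ q0)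
    (hD : ∀ l, l ≤ q0 → 8 * m ^ 2 + m * (D l - D (l - 1)) ≤ D l)
    (h20 : ∀ l, l ≤ 2 * m → 20 * m ^ 2 + m * (D l - D (l - 1)) ≤ D l)
    (hconc : WConc m D) (hle : F q0 ≤ D q0)
    (hsteep : ∀ l, l < q0 → F (l + 1) + m * F l ≤ m * F (l + 1))
    (hsupp : ∀ l, l ≤ μ → F l = 0)
    (htot : ∑ l ∈ Finset.range (q0 + 1), D l = ∑ l ∈ Finset.range (q0 + 1), F l + N * tri μ) :
    ∃ Z : List (ℕ × ℕ), Z.length = N ∧ (∀ z ∈ Z, Adm (q0 + 1) μ z.1 z.2) ∧
      ∀ l, l ≤ q0 → F l + (Z.map fun z => pat μ z.1 z.2 l).sum = D l := by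
  have hm : 1 ≤ m := by omega
  have hall : ∀ k, k < q0 → ∃ (Z : List (ℕ × ℕ)) (ρ : ℤ) (e : List ℕ),
      (Z.length : ℤ) + ρ = N ∧ (∀ z ∈ Z, Adm (q0 + 1) μ z.1 z.2) ∧
      Clo m μ q0 D (fun l => F l + (Z.map fun z => pat μ z.1 z.2 l).sum) ρ (q0 - k) e := by
    intro k
    induction k with
    | zero =>
      intro _
      obtain ⟨b, e, hclo⟩ := clo_init hμ hμm hq hle hsteep hsupp htot
      refine ⟨List.replicate b (q0, μ), N - b, e, ?_, ?_, ?_⟩
      · rw [List.length_replicate]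
        ring
      · intro z hz
        rw [List.mem_replicate] at hz
        obtain ⟨-, rfl⟩ := hz
        exact ⟨hμ, le_rfl, by show μ ≤ q0 + 1; omega, by show q0 < q0 + 1; omega, fun _ => rfl⟩
      · have hF : (fun l => F l + ((List.replicate b (q0, μ)).map
            fun z => pat μ z.1 z.2 l).sum) = fun l => F l + b * pat μ q0 μ l := by
          funext l
          rw [ShghQG.Close_sum_rep]
        rw [hF, Nat.sub_zero]
        exact hclo
    | succ k ih =>
      intro hk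
      have h1 := ih (by omega)
      obtain ⟨x, hx⟩ : ∃ x, q0 - (k + 1) = x := ⟨_, rfl⟩
      have hx' : q0 - k = x + 1 := by omega
      rw [hx'] at h1
      rw [hx]
      exact CloN_step hμ hμm hq hD h20 hconc (by omega) (by omega) h1
  obtain ⟨Z, ρ, e, hlen, hadm, hclo⟩ := hall (q0 - 1) (by omega)
  have hq1 : q0 - (q0 - 1) = 1 := by omega
  rw [hq1] at hclo
  have hD1 := hD 1 (by omega)
  obtain ⟨rfl, hρ, h0⟩ := ShghQG.clo_end hμ hm (by omega) hclo (by
    have h1 : 1 - 1 = 0 := rfl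
    rw [h1] at hD1
    omega)
  refine ⟨Z ++ List.replicate ρ.toNat (0, 1), ?_, ?_, ?_⟩
  · rw [List.length_append, List.length_replicate]
    omega
  · intro z hz
    rw [List.mem_append] at hz
    rcases hz with hz | hz
    · exact hadm z hz
    · rw [List.mem_replicate] at hz
      obtain ⟨-, rfl⟩ := hz
      exact ⟨le_rfl, hμ, le_rfl, by show 0 < q0 + 1; omega, fun h6 => by
          have h7 : 0 + 1 = q0 + 1 := h6
          omega⟩
  · intro l hl
    have hsum : ((Z ++ List.replicate ρ.toNat (0, 1)).map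
        fun z : ℕ × ℕ => pat μ z.1 z.2 l).sum =
        (Z.map fun z => pat μ z.1 z.2 l).sum + ρ.toNat * (μ - l) := by
      rw [List.map_append, List.sum_append, ShghQG.Close_sum_rep, ShghQG.Close_pat01]
    rw [hsum]
    have hρ' : ((ρ.toNat : ℕ) : ℤ) = ρ := Int.toNat_of_nonneg hρ
    have hgoal : ((F l + (Z.map fun z => pat μ z.1 z.2 l).sum : ℕ) : ℤ) +
        ((μ - l : ℕ) : ℤ) * ρ = D l := by
      rcases Nat.lt_trichotomy l 1 with h | h | h
      · have hl0 : l = 0 := by omega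
        subst hl0
        rw [Nat.sub_zero]
        exact h0
      · subst h
        have h2 := hclo.col
        simp only [List.map_nil, List.sum_nil, add_zero] at h2
        exact h2
      · exact hclo.full l h hl
    have hgoal2 : ((F l + ((Z.map fun z => pat μ z.1 z.2 l).sum + ρ.toNat * (μ - l)) : ℕ) : ℤ) =
        (D l : ℤ) := by
      rw [← hgoal]
      push_cast
      rw [hρ']
      ring
    exact_mod_cast hgoal2

end ShghN
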