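import Pool.Agent.ShghN.EmpN
import Pool.Agent.ShghQ.Colon
import Pool.Agent.ShghQ.Clear
import Pool.Agent.ShghQ.Config

/-!
# Collision of clusters of points

If no curve of degree `M' - 1` has the multiplicities `μ i` at the points `q i` of a cluster, then the limit of a curve
through the points `c + t q i` for `t → 0` has multiplicity `≥ M'` at `c`.
-/

namespace ShghN

open ShghQ MvPolynomial Polynomial

theorem ClusterN_X_dvd_iff {K : Type*} [Field K] (f : MvPolynomial (Fin 2) (Polynomial K)) :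
    MvPolynomial.C Polynomial.X ∣ f ↔ MvPolynomial.map (Polynomial.evalRingHom 0) f = 0 := by
  rw [MvPolynomial.C_dvd_iff_dvd_coeff]
  constructor
  · intro h
    ext x
    rw [MvPolynomial.coeff_map, MvPolynomial.coeff_zero, Polynomial.coe_evalRingHom,
      ← Polynomial.coeff_zero_eq_eval_zero]
    exact Polynomial.X_dvd_iff.1 (h x)
  · intro h x
    rw [Polynomial.X_dvd_iff, Polynomial.coeff_zero_eq_eval_zero]
    have h1 := congrArg (MvPolynomial.coeff x) h
    rw [MvPolynomial.coeff_map, MvPolynomial.coeff_zero] at h1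
    exact h1

theorem ClusterN_div {K : Type*} [Field K] (f : MvPolynomial (Fin 2) (Polynomial K))
    (hf : f ≠ 0) : ∃ (v : ℕ) (h : MvPolynomial (Fin 2) (Polynomial K)),
      f = MvPolynomial.C (Polynomial.X ^ v) * h ∧
        MvPolynomial.map (Polynomial.evalRingHom 0) h ≠ 0 := by
  have hu : ¬ IsUnit (MvPolynomial.C Polynomial.X : MvPolynomial (Fin 2) (Polynomial K)) := by
    intro h
    have h1 := (ClusterN_X_dvd_iff (1 : MvPolynomial (Fin 2) (Polynomial K))).1
      (isUnit_iff_dvd_one.1 h)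
    rw [map_one] at h1
    exact one_ne_zero h1
  obtain ⟨n, a, ha, he⟩ := WfDvdMonoid.max_power_factor' hf hu
  exact ⟨n, a, by rw [he, MvPolynomial.C_pow], fun h => ha ((ClusterN_X_dvd_iff a).2 h)⟩

/-- The substitution `x ↦ X x`, `y ↦ X y`. -/
noncomputable def ClusterN_S (K : Type*) [Field K] :
    MvPolynomial (Fin 2) (Polynomial K) →ₐ[Polynomial K] MvPolynomial (Fin 2) (Polynomial K) :=
  MvPolynomial.aeval ![MvPolynomial.C Polynomial.X * MvPolynomial.X 0,
    MvPolynomial.C Polynomial.X * MvPolynomial.X 1]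

theorem ClusterN_S_monomial {K : Type*} [Field K] (y : Fin 2 →₀ ℕ) (r : Polynomial K) :
    ClusterN_S K (MvPolynomial.monomial y r) =
      MvPolynomial.monomial y (Polynomial.X ^ y.degree * r) := by
  have hd : y.degree = y 0 + y 1 := by
    rw [Finsupp.degree_eq_sum, Fin.sum_univ_two]
  rw [ClusterN_S, MvPolynomial.aeval_monomial, MvPolynomial.monomial_eq,
    Finsupp.prod_fintype _ _ (fun i => pow_zero _), Finsupp.prod_fintype _ _ (fun i => pow_zero _),
    Fin.prod_univ_two, Fin.prod_univ_two, hd, MvPolynomial.algebraMap_eq, MvPolynomial.C_mul,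
    MvPolynomial.C_pow, Matrix.cons_val_zero, Matrix.cons_val_one, Matrix.cons_val_fin_one]
  ring

theorem ClusterN_S_coeff {K : Type*} [Field K] (g : MvPolynomial (Fin 2) (Polynomial K))
    (x : Fin 2 →₀ ℕ) :
    (ClusterN_S K g).coeff x = Polynomial.X ^ x.degree * g.coeff x := by
  classical
  refine MvPolynomial.induction_on' g ?_ ?_
  · intro u a
    rw [ClusterN_S_monomial, MvPolynomial.coeff_monomial, MvPolynomial.coeff_monomial]
    by_cases h : u = x
    · rw [if_pos h, if_pos h, h]
    · rw [if_neg h, if_neg h, mul_zero]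
  · intro p q hp hq
    rw [map_add, MvPolynomial.coeff_add, MvPolynomial.coeff_add, hp, hq, mul_add]

theorem ClusterN_mem {K : Type*} [Field K] (c q : Fin 2 → K) (n : ℕ)
    (f : MvPolynomial (Fin 2) (Polynomial K))
    (hf : f ∈ ShghQ.pt (Polynomial.C (c 0) + Polynomial.X * Polynomial.C (q 0))
      (Polynomial.C (c 1) + Polynomial.X * Polynomial.C (q 1)) ^ n) :
    ClusterN_S K (ShghE.tfShift (Polynomial.C (c 0)) (Polynomial.C (c 1)) f) ∈
      ShghQ.pt (Polynomial.C (q 0)) (Polynomial.C (q 1)) ^ n := by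
  have hS0 : ClusterN_S K (MvPolynomial.X 0) =
      MvPolynomial.C Polynomial.X * MvPolynomial.X 0 := by
    simp [ClusterN_S]
  have hS1 : ClusterN_S K (MvPolynomial.X 1) =
      MvPolynomial.C Polynomial.X * MvPolynomial.X 1 := by
    simp [ClusterN_S]
  have hSC : ∀ r, ClusterN_S K (MvPolynomial.C r) = MvPolynomial.C r := by
    intro r
    simp [ClusterN_S]
  have h1 := Ideal.mem_map_of_mem ((ClusterN_S K).comp
    (ShghE.tfShift (Polynomial.C (c 0)) (Polynomial.C (c 1)))) hf
  rw [Ideal.map_pow] at h1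
  refine Ideal.pow_right_mono ?_ n h1
  rw [ShghQ.pt, Ideal.map_span, Ideal.span_le]
  rintro _ ⟨g, hg, rfl⟩
  rcases hg with rfl | rfl
  · have h2 : ((ClusterN_S K).comp (ShghE.tfShift (Polynomial.C (c 0)) (Polynomial.C (c 1))))
        (MvPolynomial.X 0 - MvPolynomial.C (Polynomial.C (c 0) +
          Polynomial.X * Polynomial.C (q 0))) =
        MvPolynomial.C Polynomial.X * (MvPolynomial.X 0 - MvPolynomial.C (Polynomial.C (q 0))) := by
      rw [AlgHom.comp_apply, map_sub, ShghE.tfShift_X0, ShghE.tfShift_C, map_sub, map_add, hS0,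
        hSC, hSC, MvPolynomial.C_add, MvPolynomial.C_mul]
      ring
    rw [h2]
    exact Ideal.mul_mem_left _ _ (Ideal.subset_span (Or.inl rfl))
  · have h2 : ((ClusterN_S K).comp (ShghE.tfShift (Polynomial.C (c 0)) (Polynomial.C (c 1))))
        (MvPolynomial.X 1 - MvPolynomial.C (Polynomial.C (c 1) +
          Polynomial.X * Polynomial.C (q 1))) =
        MvPolynomial.C Polynomial.X * (MvPolynomial.X 1 - MvPolynomial.C (Polynomial.C (q 1))) := by
      rw [AlgHom.comp_apply, map_sub, ShghE.tfShift_X1, ShghE.tfShift_C, map_sub, map_add, hS1,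
        hSC, hSC, MvPolynomial.C_add, MvPolynomial.C_mul]
      ring
    rw [h2]
    exact Ideal.mul_mem_left _ _ (Ideal.subset_span (Or.inr rfl))

theorem ClusterN_colon {K : Type*} [Field K] (a b : Polynomial K) (v n : ℕ)
    (h : MvPolynomial (Fin 2) (Polynomial K))
    (hh : MvPolynomial.C (Polynomial.X ^ v) * h ∈ ShghQ.pt a b ^ n) : h ∈ ShghQ.pt a b ^ n := by
  refine ShghQ.colon_zero a b _ h n ?_ hh
  rw [MvPolynomial.eval_C]
  exact pow_ne_zero _ Polynomial.X_ne_zero

theorem ClusterN_map_degree {K : Type*} [Field K] (h : MvPolynomial (Fin 2) (Polynomial K)) :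
    (MvPolynomial.map (Polynomial.evalRingHom 0) h).totalDegree ≤ h.totalDegree := by
  rw [MvPolynomial.totalDegree, MvPolynomial.totalDegree]
  exact Finset.sup_mono (MvPolynomial.support_map_subset _ _)

/-- One cluster. Let `f : K[X][x, y]` be not divisible by `X`, in the sense that `f₀ = map (evalRingHom 0) f ≠ 0` is allowed
to be anything; suppose `f ∈ pt (c + X q i) ^ μ i` for all `i`. Then `f₀ ∈ pt c ^ M'`. PROOF. By `mem_pt_iff` for `f₀` suppose
that the translate `g` of `f` by `C c` (`g = aeval ![X 0 + C (C c0), X 1 + C (C c1)] f`) has a coefficient `g_e`, `|e| < M'`,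
`(g_e)(0) ≠ 0`. Let `v` be the minimum of `|e| + (order of g_e at 0)` over the nonzero coefficients, so `v ≤ M' - 1`.
Substituting `x ↦ X x`, `y ↦ X y` in `g` gives `X ^ v h` with `h : K[X][x, y]`; `X ^ v h ∈ pt (C q i) ^ μ i` (the substitution
`x ↦ c + X x` maps `pt (c + X q i)` into `pt (C q i)`), so `h ∈ pt (C q i) ^ μ i` by `colon_zero` (the constant `X ^ v` does not
vanish in the domain `K[X]`), and `h₀ = map (evalRingHom 0) h ∈ pt (q i) ^ μ i` by `map_mem_pt`. The total degree of `h₀` is
`≤ v ≤ M' - 1` (a coefficient `g_e X ^ |e|` with `|e| > v` is divisible by `X ^ (v+1)`) and `h₀ ≠ 0`. Contradiction to `hq`. -/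
theorem cluster_one {K : Type*} [Field K] {ι : Type*} (M' : ℕ) (μ : ι → ℕ) (c : Fin 2 → K)
    (q : ι → Fin 2 → K) (hq : NoCurve (M' - 1) μ q)
    (f : MvPolynomial (Fin 2) (Polynomial K))
    (hf : ∀ i, f ∈ ShghQ.pt (Polynomial.C (c 0) + Polynomial.X * Polynomial.C (q i 0))
      (Polynomial.C (c 1) + Polynomial.X * Polynomial.C (q i 1)) ^ μ i) :
    MvPolynomial.map (Polynomial.evalRingHom 0) f ∈ ShghQ.pt (c 0) (c 1) ^ M' := by
  classical
  have hmap := Colon_shift_map (Polynomial.evalRingHom (0 : K)) (Polynomial.C (c 0))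
    (Polynomial.C (c 1)) f
  rw [Polynomial.coe_evalRingHom, Polynomial.eval_C, Polynomial.eval_C] at hmap
  rw [ShghQ.mem_pt_iff]
  intro e he
  change MvPolynomial.coeff e (ShghE.tfShift (c 0) (c 1)
    (MvPolynomial.map (Polynomial.evalRingHom 0) f)) = 0
  rw [hmap, MvPolynomial.coeff_map]
  set g := ShghE.tfShift (Polynomial.C (c 0)) (Polynomial.C (c 1)) f with hg
  by_contra hne
  rw [Polynomial.coe_evalRingHom, ← Polynomial.coeff_zero_eq_eval_zero] at hne
  have hG0 : ClusterN_S K g ≠ 0 := by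
    intro h0
    have h1 := ClusterN_S_coeff g e
    rw [h0, MvPolynomial.coeff_zero] at h1
    have h2 := (mul_eq_zero.1 h1.symm).resolve_left (pow_ne_zero _ Polynomial.X_ne_zero)
    rw [h2, Polynomial.coeff_zero] at hne
    exact hne rfl
  obtain ⟨v, h, hGh, hh0⟩ := ClusterN_div _ hG0
  have hco : ∀ x, Polynomial.X ^ x.degree * g.coeff x = Polynomial.X ^ v * h.coeff x := by
    intro x
    rw [← ClusterN_S_coeff, hGh, MvPolynomial.coeff_C_mul]
  have hlt : ∀ x : Fin 2 →₀ ℕ, v < x.degree → (h.coeff x).coeff 0 = 0 := by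
    intro x hx
    obtain ⟨d, hd⟩ := Nat.exists_eq_add_of_lt hx
    have h1 := hco x
    rw [hd, pow_add, pow_add, pow_one, mul_assoc, mul_assoc] at h1
    have h2 := mul_left_cancel₀ (pow_ne_zero _ Polynomial.X_ne_zero) h1
    rw [← h2, ← Polynomial.X_dvd_iff]
    exact Dvd.dvd.mul_left (Dvd.intro _ rfl) _
  have hve : v ≤ e.degree := by
    by_contra hcon
    rw [not_le] at hcon
    obtain ⟨d, hd⟩ := Nat.exists_eq_add_of_lt hcon
    have h1 := hco e
    rw [hd, pow_add, pow_add, pow_one, mul_assoc, mul_assoc] at h1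
    have h2 := mul_left_cancel₀ (pow_ne_zero _ Polynomial.X_ne_zero) h1
    apply hne
    rw [h2, ← Polynomial.X_dvd_iff]
    exact Dvd.dvd.mul_left (Dvd.intro _ rfl) _
  apply hh0
  refine hq _ ?_ ?_
  · refine (?_ : _ ≤ v).trans (by omega)
    rw [MvPolynomial.totalDegree]
    refine Finset.sup_le fun x hx => ?_
    rw [MvPolynomial.mem_support_iff, MvPolynomial.coeff_map, Polynomial.coe_evalRingHom,
      ← Polynomial.coeff_zero_eq_eval_zero] at hx
    by_contra hcon
    rw [not_le] at hcon
    exact hx (hlt x hcon)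
  · intro i
    have h1 := ClusterN_mem c (q i) (μ i) f (hf i)
    rw [← hg, hGh] at h1
    have h2 := ShghQ.map_mem_pt (Polynomial.evalRingHom (0 : K)) _ _ _
      (ClusterN_colon _ _ _ _ _ h1)
    rw [Polynomial.coe_evalRingHom, Polynomial.eval_C, Polynomial.eval_C] at h2
    exact h2

/-- Several clusters at once. `g i = some a` if the point `i` belongs to the cluster `a`. Over a field `K` with generic
points (`exists_generic` for `A ⊕ ι`) take the points `C (Q i)` (`g i = none`) and `C (Q a) + X C (Q i)` (`g i = some a`)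
over `FractionRing K[X]`; this configuration carries no curve: clear denominators (`ShghQ.clear`, so it is enough to
consider `f` over `K[X]`); divide `f ≠ 0` by a power of `X` such that `f₀ = map (evalRingHom 0) f ≠ 0` (`colon_zero` shows that
the quotient is still in the ideals); `f₀` has degree `≤ δ`, multiplicity `μ i` at `Q i` for `g i = none`
(`map_mem_pt`), and multiplicity `M' a` at `Q a` by `cluster_one` with `h2`. So `f₀ = 0` by `h1`. Then `emp_of_config`. -/
theorem clusters {F : Type*} [Field F] {ι A : Type} [Fintype ι] [Fintype A] (δ : ℕ) (μ : ι → ℕ)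
    (g : ι → Option A) (M' : A → ℕ)
    (h1 : Emp F δ (Sum.elim M' (fun i : {i // g i = none} => μ i) :
      A ⊕ {i // g i = none} → ℕ))
    (h2 : ∀ a, Emp F (M' a - 1) (fun i : {i // g i = some a} => μ i)) : Emp F δ μ := by
  classical
  obtain ⟨K, _, _, Q, hQ⟩ := exists_generic F (A ⊕ ι)
  let P : ι → Fin 2 → Polynomial K := fun i j => match g i with
    | none => Polynomial.C (Q (Sum.inr i) j)
    | some a => Polynomial.C (Q (Sum.inl a) j) + Polynomial.X * Polynomial.C (Q (Sum.inr i) j)
  have hP0 : ∀ i, g i = none → ∀ j, P i j = Polynomial.C (Q (Sum.inr i) j) := by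
    intro i hi j
    simp only [P, hi]
  have hP1 : ∀ i a, g i = some a → ∀ j, P i j =
      Polynomial.C (Q (Sum.inl a) j) + Polynomial.X * Polynomial.C (Q (Sum.inr i) j) := by
    intro i a hi j
    simp only [P, hi]
  have key : ∀ f : MvPolynomial (Fin 2) (Polynomial K), f.totalDegree ≤ δ →
      (∀ i, f ∈ ShghQ.pt (P i 0) (P i 1) ^ μ i) → f = 0 := by
    intro f hfδ hf
    by_contra hf0
    obtain ⟨v, h, hfh, hh0⟩ := ClusterN_div f hf0
    have hmem : ∀ i, h ∈ ShghQ.pt (P i 0) (P i 1) ^ μ i := by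
      intro i
      have h3 := hf i
      rw [hfh] at h3
      exact ClusterN_colon _ _ _ _ _ h3
    have hh : h ≠ 0 := by
      rintro rfl
      exact hh0 (map_zero _)
    have hC : (MvPolynomial.C (Polynomial.X ^ v) : MvPolynomial (Fin 2) (Polynomial K)) ≠ 0 := by
      intro h3
      exact pow_ne_zero v (Polynomial.X_ne_zero (R := K))
        (MvPolynomial.C_injective (Fin 2) _ (by rw [h3, map_zero]))
    have hdeg : h.totalDegree ≤ δ := by
      have h3 := MvPolynomial.totalDegree_mul_of_isDomain hC hh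
      rw [← hfh] at h3
      omega
    apply hh0
    refine h1 K (Sum.elim (fun a => Q (Sum.inl a)) (fun i => Q (Sum.inr i.1))) ?_ _
      ((ClusterN_map_degree h).trans hdeg) ?_
    · have h3 := hQ.comp (fun x : (A ⊕ {i // g i = none}) × Fin 2 =>
        ((Sum.elim Sum.inl (fun i => Sum.inr i.1) x.1 : A ⊕ ι), x.2)) (by
          rintro ⟨a | i, j⟩ ⟨a' | i', j'⟩ hx
          · simpa using hx
          · simp at hx
          · simp at hx
          · have h4 : i.1 = i'.1 ∧ j = j' := by simpa using hx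
            rw [Subtype.ext h4.1, h4.2])
      convert h3 using 1
      funext x
      obtain ⟨a | i, j⟩ := x <;> rfl
    · rintro (a | i)
      · refine cluster_one (M' a) (fun i : {i // g i = some a} => μ i) (Q (Sum.inl a))
          (fun i => Q (Sum.inr i.1)) ?_ h ?_
        · refine h2 a K (fun i => Q (Sum.inr i.1)) ?_
          exact hQ.comp (fun x : {i // g i = some a} × Fin 2 => ((Sum.inr x.1.1 : A ⊕ ι), x.2)) (by
            rintro ⟨i, j⟩ ⟨i', j'⟩ hx
            have h4 : i.1 = i'.1 ∧ j = j' := by simpa using hx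
            rw [Subtype.ext h4.1, h4.2])
        · intro i
          have h3 := hmem i.1
          rw [hP1 i.1 a i.2, hP1 i.1 a i.2] at h3
          exact h3
      · have h3 := hmem i.1
        rw [hP0 i.1 i.2, hP0 i.1 i.2] at h3
        have h4 := ShghQ.map_mem_pt (Polynomial.evalRingHom (0 : K)) _ _ _ h3
        rw [Polynomial.coe_evalRingHom, Polynomial.eval_C, Polynomial.eval_C] at h4
        exact h4
  exact emp_of_config (K' := FractionRing (Polynomial K))
    (fun i j => algebraMap (Polynomial K) (FractionRing (Polynomial K)) (P i j))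
    fun f hfδ hf => ShghQ.clear P μ δ key f hfδ hf

/-- The homogeneous class: `ShghQ.exists_config` with `m = μ0`, `κ = 1`, `δ = M' - 1`, the field `AlgebraicClosure F`. -/
theorem emp_hom {F : Type*} [Field F] (μ0 M' n : ℕ) (hμ0 : 1 ≤ μ0) (hM : 50 * μ0 ^ 2 ≤ M')
    (hn : tri M' ≤ n * tri μ0) : Emp F (M' - 1) (fun _ : Fin n => μ0) := by
  classical
  have hM1 : 1 ≤ M' := by
    have : 1 ≤ μ0 ^ 2 := Nat.one_le_pow _ _ hμ0
    omega
  have hM2 : M' - 1 + 1 = M' := by omega
  obtain ⟨P, hP⟩ := exists_config (k := AlgebraicClosure F) (fun _ : Fin n => μ0) μ0 1 (M' - 1)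
    hμ0 (fun _ => le_rfl) (by
      refine (Finset.card_le_card (t := {μ0}) ?_).trans (Finset.card_singleton μ0).le
      intro x hx
      obtain ⟨-, hx⟩ := Finset.mem_erase.1 hx
      obtain ⟨i, -, hi⟩ := Finset.mem_image.1 hx
      exact Finset.mem_singleton.2 hi.symm) (by
      rw [hM2]
      calc 2500 * 1 * μ0 ^ 4 = (50 * μ0 ^ 2) ^ 2 := by ring
        _ ≤ M' ^ 2 := Nat.pow_le_pow_left hM 2) (by
      rw [hM2, Finset.sum_const, Finset.card_univ, Fintype.card_fin, smul_eq_mul]
      exact hn)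
  exact emp_of_config P fun f hf hf' => hP f ⟨hf, hf'⟩

end ShghN
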