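import Pool.Agent.ShghW.ProfSum
import Pool.Agent.ShghQ.Pat
import Pool.Agent.ShghN.CloN

/-!
# The rows and the demands of a standard class (one-sided profile)

Everything here has been checked by computer for 750000 random standard classes.
-/

namespace ShghN

open ShghQ ShghT

/-- The number of free leading coefficients of the level `j`: they are in the columns `0, ..., rN - 1`. -/
def rN (δ : ℕ) (M : Fin 9 → ℕ) (e j : ℕ) : ℕ :=
  if j = Jt δ M ∧ δ - 3 * j = M 0 - j then δ - 3 * j - (M 1 - j) + 1 else max (e - kp δ M j) 1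

/-- The demand of the column `l`. -/
def DN (δ : ℕ) (M : Fin 9 → ℕ) (e l : ℕ) : ℕ :=
  ((Finset.range (Jt δ M + 1)).filter fun j => l < rN δ M e j).card

variable {δ : ℕ} {M : Fin 9 → ℕ} {e : ℕ}

theorem rN_pos (δ : ℕ) (M : Fin 9 → ℕ) (e j : ℕ) : 1 ≤ rN δ M e j := by
  unfold rN
  split_ifs
  · omega
  · exact le_max_right _ _

/-- `kp_le`, `pen_eq` (`2 p + kp Jt = e`, so `p + 1 ≤ e` if `e ≥ 1`). -/
theorem rN_le (h : Std δ M e) (he : 0 < e) {j : ℕ} (hj : j ≤ Jt δ M) : rN δ M e j ≤ e := by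
  unfold rN
  split_ifs with hp
  · obtain ⟨h1, h2⟩ := hp
    subst h1
    have h3 := pen_eq h h2
    omega
  · exact max_le (Nat.sub_le _ _) he

/-- `kp_mono`, `kp_lt`; in the pencil case `p + 1 ≤ 2 p ≤ e - kp (Jt - 1)` if `p ≥ 1`. -/
theorem rN_anti (h : Std δ M e) (he : 0 < e) {i j : ℕ} (hij : i ≤ j) (hj : j ≤ Jt δ M) :
    rN δ M e j ≤ rN δ M e i := by
  rcases Nat.eq_or_lt_of_le hij with rfl | hlt
  · exact le_rfl
  · have h1 : rN δ M e i = max (e - kp δ M i) 1 := by
      unfold rN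
      rw [if_neg (fun hp => by omega)]
    have h2 := kp_mono h hij hj
    rw [h1]
    unfold rN
    split_ifs with hp
    · obtain ⟨h3, h4⟩ := hp
      subst h3
      have h5 := pen_eq h h4
      omega
    · omega

/-- The levels `j ≤ Jt` with `l < rN j` are `0, ..., DN l - 1` (`rN_anti`). -/
theorem lt_rN_iff (h : Std δ M e) (he : 0 < e) {j : ℕ} (hj : j ≤ Jt δ M) (l : ℕ) :
    l < rN δ M e j ↔ j < DN δ M e l := by
  constructor
  · intro hl
    have hsub : Finset.range (j + 1) ⊆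
        (Finset.range (Jt δ M + 1)).filter fun j => l < rN δ M e j := by
      intro i hi
      rw [Finset.mem_range] at hi
      rw [Finset.mem_filter, Finset.mem_range]
      exact ⟨by omega, lt_of_lt_of_le hl (rN_anti h he (by omega) hj)⟩
    have h1 := Finset.card_le_card hsub
    rw [Finset.card_range] at h1
    exact h1
  · intro hl
    by_contra hcon
    have hsub : ((Finset.range (Jt δ M + 1)).filter fun j => l < rN δ M e j) ⊆
        Finset.range j := by
      intro i hi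
      rw [Finset.mem_filter, Finset.mem_range] at hi
      rw [Finset.mem_range]
      by_contra hij
      have h2 := rN_anti h he (i := j) (j := i) (by omega) (by omega)
      omega
    have h1 := Finset.card_le_card hsub
    rw [Finset.card_range] at h1
    have h2 : DN δ M e l ≤ j := h1
    omega

theorem DN_zero (δ : ℕ) (M : Fin 9 → ℕ) (e : ℕ) : DN δ M e 0 = Jt δ M + 1 := by
  unfold DN
  rw [Finset.filter_true_of_mem fun j _ => show 0 < rN δ M e j from rN_pos δ M e j,
    Finset.card_range]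

theorem DN_anti (δ : ℕ) (M : Fin 9 → ℕ) (e l : ℕ) : DN δ M e (l + 1) ≤ DN δ M e l := by
  unfold DN
  refine Finset.card_le_card fun j hj => ?_
  rw [Finset.mem_filter] at hj ⊢
  exact ⟨hj.1, by omega⟩

/-- For `j ≤ M 8`, `kp j = 0` (`kp_of_le`), `M 8 ≤ Jt` (`min_le_Jt`), so `rN j = e` for `j < M 8`. -/
theorem DN_ge (h : Std δ M e) (he : 0 < e) {l : ℕ} (hl : l < e) : M 8 ≤ DN δ M e l := by
  have hsub : Finset.range (M 8) ⊆
      (Finset.range (Jt δ M + 1)).filter fun j => l < rN δ M e j := by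
    intro j hj
    rw [Finset.mem_range] at hj
    have h1 := min_le_Jt h
    have h2 : rN δ M e j = max (e - kp δ M j) 1 := by
      unfold rN
      rw [if_neg (fun hp => by omega)]
    rw [Finset.mem_filter, Finset.mem_range, h2, kp_of_le h hj.le]
    exact ⟨by omega, by omega⟩
  have h1 := Finset.card_le_card hsub
  rw [Finset.card_range] at h1
  exact h1

theorem RowN_rN_of_lt {j : ℕ} (h : Std δ M e) (he : 0 < e) (hj : j < Jt δ M) :
    rN δ M e j = e - kp δ M j := by
  have h1 := ProfSum.kp_lt h he hj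
  unfold rN
  rw [if_neg (fun hp => by omega)]
  omega

theorem RowN_rN_eq (h : Std δ M e) (he : 0 < e) {l j : ℕ} (hj : j < DN δ M e l)
    (hj2 : DN δ M e (l + 1) ≤ j) (hJ : j ≤ Jt δ M) : rN δ M e j = l + 1 := by
  have h1 := (lt_rN_iff h he hJ l).2 hj
  have h2 : ¬ l + 1 < rN δ M e j := fun h3 => by
    have := (lt_rN_iff h he hJ (l + 1)).1 h3
    omega
  omega

theorem RowN_DN_le (l : ℕ) : DN δ M e l ≤ Jt δ M + 1 := by
  have h1 := Finset.card_filter_le (Finset.range (Jt δ M + 1)) (fun j => l < rN δ M e j)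
  rw [Finset.card_range] at h1
  exact h1

/-- The difference is the number of the levels `j ≤ Jt` with `rN j = l + 1 < e`. For `j < Jt` the numbers
`rN j = e - kp j` with `kp j > 0` are pairwise different (`kp_strict`), so there are at most two such levels. -/
theorem DN_step2 (h : Std δ M e) (he : 0 < e) {l : ℕ} (hl : l + 1 < e) :
    DN δ M e l ≤ DN δ M e (l + 1) + 2 := by
  by_contra hcon
  push Not at hcon
  have h0 := RowN_DN_le (δ := δ) (M := M) (e := e) l
  have h1 := RowN_rN_eq h he (l := l) (j := DN δ M e (l + 1)) (by omega) le_rfl (by omega)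
  have h2 := RowN_rN_eq h he (l := l) (j := DN δ M e (l + 1) + 1) (by omega) (by omega) (by omega)
  rw [RowN_rN_of_lt h he (by omega)] at h1 h2
  exact kp_strict h (i := DN δ M e (l + 1)) (j := DN δ M e (l + 1) + 1) (by omega) (by omega)
    (by omega) (by omega)

/-- For `l ≥ 1` at most one: also `rN Jt ≠ rN j` for `j < Jt` if both are equal to `l + 1 ≥ 2` (and `< e`): if the level
`Jt` is not the pencil case then `rN Jt = e - kp Jt` and `kp_strict` applies; in the pencil case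
`rN Jt = p + 1 ≥ 2`, `p ≥ 1`, `e - kp j > e - kp Jt = 2 p ≥ p + 1` (`kp_strict`, or `kp Jt = 0` and then `rN j = e`). -/
theorem DN_step (h : Std δ M e) (he : 0 < e) {l : ℕ} (h1 : 1 ≤ l) (hl : l + 1 < e) :
    DN δ M e l ≤ DN δ M e (l + 1) + 1 := by
  by_contra hcon
  push Not at hcon
  have h0 := RowN_DN_le (δ := δ) (M := M) (e := e) l
  have ha := RowN_rN_eq h he (l := l) (j := DN δ M e (l + 1)) (by omega) le_rfl (by omega)
  have hb := RowN_rN_eq h he (l := l) (j := DN δ M e (l + 1) + 1) (by omega) (by omega) (by omega)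
  rw [RowN_rN_of_lt h he (by omega)] at ha
  have hm := kp_mono h (i := DN δ M e (l + 1)) (j := DN δ M e (l + 1) + 1) (by omega) (by omega)
  have hs : kp δ M (DN δ M e (l + 1)) ≠ kp δ M (DN δ M e (l + 1) + 1) := fun hne =>
    kp_strict h (i := DN δ M e (l + 1)) (j := DN δ M e (l + 1) + 1) (by omega) (by omega)
      (by omega) hne
  unfold rN at hb
  split_ifs at hb with hp
  · obtain ⟨h3, h4⟩ := hp
    rw [h3] at h4 hb hs hm
    have h5 := pen_eq h h4
    omega
  · omega

/-- Exchange of the sums. -/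
theorem RowN_exch (h : Std δ M e) (he : 0 < e) :
    ∑ l ∈ Finset.range e, DN δ M e l = ∑ j ∈ Finset.range (Jt δ M + 1), rN δ M e j := by
  unfold DN
  simp only [Finset.card_filter]
  rw [Finset.sum_comm]
  refine Finset.sum_congr rfl fun j hj => ?_
  rw [Finset.mem_range] at hj
  have h1 := rN_le h he (j := j) (by omega)
  rw [← Finset.card_filter]
  have h2 : ((Finset.range e).filter fun l => l < rN δ M e j) = Finset.range (rN δ M e j) := by
    ext l
    simp only [Finset.mem_filter, Finset.mem_range]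
    omega
  rw [h2, Finset.card_range]

/-- As `sum_Qd`: exchange the sums, `Σ_{l<e} [l < rN j] = rN j`, then steps (2) and (3) of the proof of `sum_Qd`
(`hh_step`, `hh_zero`, `hh_pen`, `hh_not_pen` in `ShghW/ProfSum.lean`, `kp_lt`). -/
theorem sum_DN (h : Std δ M e) (he : 0 < e) :
    ∑ l ∈ Finset.range e, DN δ M e l + ∑ l, (M l + 1).choose 2 = (δ + 2).choose 2 := by
  have h2 : ((∑ ρ ∈ Finset.range e, DN δ M e ρ : ℕ) : ℚ) = ProfSum.hh δ M 0 := by
    rw [RowN_exch h he, Finset.sum_range_succ, Nat.cast_add]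
    have h3 : ((rN δ M e (Jt δ M) : ℕ) : ℚ) = ProfSum.hh δ M (Jt δ M) := by
      by_cases hp : Pen δ M
      · rw [ProfSum.hh_pen h hp]
        unfold rN
        rw [if_pos ⟨rfl, hp⟩]
        push_cast
        ring
      · rw [ProfSum.hh_not_pen h hp]
        unfold rN
        rw [if_neg (fun hh => hp hh.2)]
    have h4 : ((∑ j ∈ Finset.range (Jt δ M), rN δ M e j : ℕ) : ℚ) =
        ProfSum.hh δ M 0 - ProfSum.hh δ M (Jt δ M) := by
      rw [← Finset.sum_range_sub', Nat.cast_sum]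
      refine Finset.sum_congr rfl fun j hj => ?_
      have hj' := Finset.mem_range.1 hj
      have h5 := ProfSum.kp_lt h he hj'
      rw [RowN_rN_of_lt h he hj', ProfSum.hh_step h hj', Nat.cast_sub h5.le]
    rw [h3, h4]
    ring
  have h6 : ((∑ ρ ∈ Finset.range e, DN δ M e ρ + ∑ l, (M l + 1).choose 2 : ℕ) : ℚ) =
      (((δ + 2).choose 2 : ℕ) : ℚ) := by
    rw [Nat.cast_add, h2, ProfSum.hh_zero h, Nat.cast_choose_two, Nat.cast_sum]
    have h7 : ∀ l, (((M l + 1).choose 2 : ℕ) : ℚ) = ((M l : ℚ) + 1) * (M l : ℚ) / 2 := by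
      intro l
      rw [Nat.cast_choose_two]
      push_cast
      ring
    simp only [h7]
    push_cast
    ring
  exact_mod_cast h6

/-- Convexity of `kp`. For `j ≤ M 1` one has `kl j = M 0 + M 1 + j - δ` (natural subtraction); if `M 1 < Jt` then
`kl j = 0` for all `j ≤ Jt` (`M 0 - (M 1 + 1) ≤ δ - 3 (M 1 + 1)` by `le_Jt_iff`). The sum of the `j - M l` is
convex. -/
theorem kp_convex (h : Std δ M e) {j : ℕ} (hj : j + 2 ≤ Jt δ M) :
    2 * kp δ M (j + 1) ≤ kp δ M j + kp δ M (j + 2) := by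
  have hJ := (le_Jt_iff h (j + 2)).1 hj
  obtain ⟨h1, h2, -, -, -, -, -, -, h9⟩ := h.facts
  have hk : 2 * kl δ M (j + 1) ≤ kl δ M j + kl δ M (j + 2) := by
    unfold kl
    omega
  have hs : 2 * ∑ l, (j + 1 - M l) ≤ ∑ l, (j - M l) + ∑ l, (j + 2 - M l) := by
    rw [Finset.mul_sum, ← Finset.sum_add_distrib]
    exact Finset.sum_le_sum fun l _ => by omega
  unfold kp
  omega

theorem RowN_incr (h : Std δ M e) (i t : ℕ) (ht : i + t + 1 ≤ Jt δ M) :
    (kp δ M (i + 1) : ℤ) - kp δ M i ≤ kp δ M (i + t + 1) - kp δ M (i + t) := by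
  induction t with
  | zero => exact le_rfl
  | succ t ih =>
    have h1 := ih (by omega)
    have h2 := kp_convex h (j := i + t) (by omega)
    have e1 : i + (t + 1) + 1 = i + t + 2 := by omega
    have e2 : i + (t + 1) = i + t + 1 := by omega
    rw [e1, e2]
    omega

theorem RowN_super (h : Std δ M e) (a b : ℕ) (hab : a + b ≤ Jt δ M) :
    kp δ M a + kp δ M b ≤ kp δ M (a + b) := by
  induction a with
  | zero =>
    rw [kp_of_le h (Nat.zero_le _), zero_add, zero_add]
  | succ a ih =>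
    have h1 := ih (by omega)
    have h2 := RowN_incr h a b (by omega)
    have e1 : a + 1 + b = a + b + 1 := by omega
    rw [e1]
    omega

theorem RowN_sum_kp (h : Std δ M e) :
    2 * ∑ j ∈ Finset.range (Jt δ M + 1), kp δ M j ≤ (Jt δ M + 1) * kp δ M (Jt δ M) := by
  have h1 : ∑ j ∈ Finset.range (Jt δ M + 1), kp δ M (Jt δ M - j) =
      ∑ j ∈ Finset.range (Jt δ M + 1), kp δ M j := by
    have := Finset.sum_range_reflect (fun j => kp δ M j) (Jt δ M + 1)
    rw [← this]
    refine Finset.sum_congr rfl fun j _ => ?_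
    congr 1
  calc 2 * ∑ j ∈ Finset.range (Jt δ M + 1), kp δ M j
      = ∑ j ∈ Finset.range (Jt δ M + 1), (kp δ M j + kp δ M (Jt δ M - j)) := by
        rw [Finset.sum_add_distrib, h1]
        ring
    _ ≤ ∑ j ∈ Finset.range (Jt δ M + 1), kp δ M (Jt δ M) := by
        refine Finset.sum_le_sum fun j hj => ?_
        rw [Finset.mem_range] at hj
        have h2 := RowN_super h j (Jt δ M - j) (by omega)
        have e1 : j + (Jt δ M - j) = Jt δ M := by omega
        rwa [e1] at h2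
    _ = (Jt δ M + 1) * kp δ M (Jt δ M) := by
        rw [Finset.sum_const, Finset.card_range, smul_eq_mul]

/-- `kp 0 = 0` and convexity: `Jt * kp j ≤ j * kp Jt`, so `Σ_{j≤Jt} (e - kp j) ≥ (Jt + 1) (e - kp Jt / 2)`. If the level
`Jt` is not the pencil case, `Σ rN j ≥ Σ (e - kp j) ≥ e (Jt + 1) / 2`. In the pencil case, `kp Jt = e - 2 p` and
`Σ_{j<Jt} (e - kp j) ≥ Jt e - (e - 2 p)(Jt - 1)/2 = e (Jt + 1)/2 + p (Jt - 1)`, and `rN Jt = p + 1`
(`Jt = 0`: `kp 0 = 0`, so `e = 2 p`, `rN = p + 1`). Exchange the sums as in `sum_DN`. -/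
theorem area_DN (h : Std δ M e) (he : 0 < e) :
    e * (Jt δ M + 1) ≤ 2 * ∑ l ∈ Finset.range e, DN δ M e l := by
  have hk := RowN_sum_kp h
  have hkJ := kp_le h (le_refl (Jt δ M))
  rw [RowN_exch h he]
  rw [Finset.sum_range_succ] at hk ⊢
  have hs : ∑ j ∈ Finset.range (Jt δ M), rN δ M e j + ∑ j ∈ Finset.range (Jt δ M), kp δ M j =
      Jt δ M * e := by
    rw [← Finset.sum_add_distrib]
    have h1 : ∀ j ∈ Finset.range (Jt δ M), rN δ M e j + kp δ M j = e := by
      intro j hj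
      rw [Finset.mem_range] at hj
      have h2 := ProfSum.kp_lt h he hj
      rw [RowN_rN_of_lt h he hj]
      omega
    rw [Finset.sum_congr rfl h1, Finset.sum_const, Finset.card_range, smul_eq_mul]
  obtain ⟨J, hJ⟩ : ∃ J, J = Jt δ M := ⟨_, rfl⟩
  obtain ⟨R, hR⟩ : ∃ R, R = ∑ j ∈ Finset.range (Jt δ M), rN δ M e j := ⟨_, rfl⟩
  obtain ⟨K, hK⟩ : ∃ K, K = ∑ j ∈ Finset.range (Jt δ M), kp δ M j := ⟨_, rfl⟩
  rw [← hR, ← hK] at hs
  rw [← hK] at hk
  rw [← hR]
  by_cases hp : Pen δ M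
  · have h5 := pen_eq h hp
    have h6 : rN δ M e (Jt δ M) = δ - 3 * Jt δ M - (M 1 - Jt δ M) + 1 := by
      unfold rN
      rw [if_pos ⟨rfl, hp⟩]
    obtain ⟨p, hpp⟩ : ∃ p, p = δ - 3 * Jt δ M - (M 1 - Jt δ M) := ⟨_, rfl⟩
    rw [h6, ← hpp]
    rw [← hpp] at h5
    obtain ⟨k, hkk⟩ : ∃ k, k = kp δ M (Jt δ M) := ⟨_, rfl⟩
    rw [← hkk] at h5 hk hkJ
    rw [← hJ] at hk hs ⊢
    subst h5
    nlinarith
  · have h6 : e - kp δ M (Jt δ M) ≤ rN δ M e (Jt δ M) := by
      unfold rN
      rw [if_neg (fun hh => hp hh.2)]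
      exact le_max_left _ _
    have h7 : e ≤ rN δ M e (Jt δ M) + kp δ M (Jt δ M) := by omega
    obtain ⟨k, hkk⟩ : ∃ k, k = kp δ M (Jt δ M) := ⟨_, rfl⟩
    obtain ⟨r, hrr⟩ : ∃ r, r = rN δ M e (Jt δ M) := ⟨_, rfl⟩
    rw [← hkk] at h7 hk hkJ
    rw [← hrr] at h7 ⊢
    rw [← hJ] at hk hs ⊢
    nlinarith

end ShghN
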