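import Pool.Agent.ShghN.FillN
import Pool.Agent.ShghN.RowN
import Pool.Agent.ShghQG.Dem
import Pool.Agent.ShghQ.Comb

/-!
# The combinatorial theorem for nine large points
-/

namespace ShghN

open ShghQ ShghQG ShghT

/-- Choice of the points: `C₀ ⊆ S ⊆ U`, total area between `A` and `A + tri m`. (`S` minimal among the sets between
`C₀` and `U` with `A ≤ Σ_S tri` and positive multiplicities outside `C₀`; if `S ≠ C₀` remove a point of `S \ C₀`; if
`S = C₀` then `Σ_{C₀} tri < A + tri m` by hypothesis.) -/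
theorem exists_between {s : ℕ} (μ : Fin s → ℕ) (m A : ℕ) (C₀ U : Finset (Fin s)) (hC : C₀ ⊆ U)
    (hμ : ∀ i ∈ U, μ i ≤ m) (hA : ∑ i ∈ C₀, tri (μ i) ≤ A) (hcov : A ≤ ∑ i ∈ U, tri (μ i))
    (hm : 1 ≤ m) :
    ∃ S, C₀ ⊆ S ∧ S ⊆ U ∧ (∀ i ∈ S, i ∉ C₀ → 1 ≤ μ i) ∧ A ≤ ∑ i ∈ S, tri (μ i) ∧
      ∑ i ∈ S, tri (μ i) < A + tri m := by
  classical
  set U' := C₀ ∪ U.filter (fun i => 1 ≤ μ i) with hU'
  have hU'U : U' ⊆ U := Finset.union_subset hC (Finset.filter_subset _ _)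
  have hsum : ∑ i ∈ U', tri (μ i) = ∑ i ∈ U, tri (μ i) := by
    refine Finset.sum_subset hU'U fun i hi hi' => ?_
    have h1 : ¬ 1 ≤ μ i := fun h2 => hi'
      (Finset.mem_union_right _ (Finset.mem_filter.2 ⟨hi, h2⟩))
    have h2 : μ i = 0 := by omega
    rw [h2]
    rfl
  obtain ⟨S, hS, hmin⟩ := Finset.exists_min_image
    (U'.powerset.filter fun S => C₀ ⊆ S ∧ A ≤ ∑ i ∈ S, tri (μ i)) (fun S => S.card)
    ⟨U', Finset.mem_filter.2 ⟨Finset.mem_powerset.2 (Finset.Subset.refl _),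
      Finset.subset_union_left, by rw [hsum]; exact hcov⟩⟩
  obtain ⟨hS1, hS2, hS3⟩ := Finset.mem_filter.1 hS
  rw [Finset.mem_powerset] at hS1
  refine ⟨S, hS2, hS1.trans hU'U, ?_, hS3, ?_⟩
  · intro i hi hiC
    rcases Finset.mem_union.1 (hS1 hi) with h1 | h1
    · exact absurd h1 hiC
    · exact (Finset.mem_filter.1 h1).2
  · by_cases hSC : S ⊆ C₀
    · have h1 : S = C₀ := Finset.Subset.antisymm hSC hS2
      rw [h1]
      have h2 : tri 1 ≤ tri m := tri_mono hm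
      have h3 : tri 1 = 1 := rfl
      omega
    · obtain ⟨i, hi, hiC⟩ := Finset.not_subset.1 hSC
      have h1 : ∑ j ∈ S.erase i, tri (μ j) + tri (μ i) = ∑ j ∈ S, tri (μ j) :=
        Finset.sum_erase_add S (fun j => tri (μ j)) hi
      have h2 : ∑ j ∈ S.erase i, tri (μ j) < A := by
        by_contra hcon
        have h3 := hmin (S.erase i) (Finset.mem_filter.2
          ⟨Finset.mem_powerset.2 ((Finset.erase_subset _ _).trans hS1),
            Finset.subset_erase.2 ⟨hS2, hiC⟩, by omega⟩)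
        have h4 := Finset.card_erase_lt_of_mem hi
        omega
      have h3 : tri (μ i) ≤ tri m := tri_mono (hμ i (hU'U (hS1 hi)))
      omega

theorem CombN_pat_zero (ν l : ℕ) : pat ν 0 1 l = ν - l := by
  unfold pat
  split_ifs <;> omega

theorem CombN_sur_le {m L σ : ℕ} (hσ : σ / (L - 2 * m) ≤ m) (l : ℕ) : sur m L σ l ≤ m + 1 := by
  unfold sur
  split_ifs <;> omega

/-- Adding the large points. -/
theorem CombN_assemble {s : ℕ} (μ : Fin s → ℕ) (L : ℕ) (I U S : Finset (Fin s)) (D : ℕ → ℕ)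
    (hIU : Disjoint I U) (hSU : S ⊆ U) (hL2 : 2 ≤ L)
    (hμL : ∀ i ∈ I, μ i < L) (p n : Fin s → ℕ)
    (hA : ∀ i ∈ S, Adm L (μ i) (p i) (n i))
    (hfill : ∀ l, l < L → ∑ i ∈ S, pat (μ i) (p i) (n i) l = D l) :
    ∃ (T : Finset (Fin s)) (p' n' : Fin s → ℕ), T ⊆ I ∪ U ∧
      (∀ i ∈ T, Adm L (μ i) (p' i) (n' i)) ∧
      ∀ l, l < L → ∑ i ∈ T, pat (μ i) (p' i) (n' i) l = D l + ∑ i ∈ I, (μ i - l) := by
  classical
  let p' : Fin s → ℕ := fun i => if i ∈ I then 0 else p i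
  let n' : Fin s → ℕ := fun i => if i ∈ I then 1 else n i
  have hSI : ∀ i ∈ S, i ∉ I := fun i hi h => Finset.disjoint_left.1 hIU h (hSU hi)
  have hpI : ∀ i ∈ I, p' i = 0 ∧ n' i = 1 := fun i hi => ⟨if_pos hi, if_pos hi⟩
  have hpS : ∀ i ∈ S, p' i = p i ∧ n' i = n i := fun i hi =>
    ⟨if_neg (hSI i hi), if_neg (hSI i hi)⟩
  refine ⟨S ∪ I.filter (fun i => 1 ≤ μ i), p', n', ?_, ?_, ?_⟩
  · intro i hi
    rcases Finset.mem_union.1 hi with hi | hi
    · exact Finset.mem_union_right _ (hSU hi)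
    · exact Finset.mem_union_left _ (Finset.mem_filter.1 hi).1
  · intro i hi
    rcases Finset.mem_union.1 hi with hi | hi
    · rw [(hpS i hi).1, (hpS i hi).2]
      exact hA i hi
    · obtain ⟨h1, h2⟩ := Finset.mem_filter.1 hi
      have h3 := hμL i h1
      rw [(hpI i h1).1, (hpI i h1).2]
      exact ⟨le_rfl, h2, by omega, by omega, fun h4 => by omega⟩
  · intro l hl
    have hdis : Disjoint S (I.filter (fun i => 1 ≤ μ i)) := by
      rw [Finset.disjoint_left]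
      intro i hi hi'
      exact hSI i hi (Finset.mem_filter.1 hi').1
    rw [Finset.sum_union hdis]
    have e1 : ∑ i ∈ S, pat (μ i) (p' i) (n' i) l = D l := by
      rw [← hfill l hl]
      refine Finset.sum_congr rfl fun i hi => ?_
      rw [(hpS i hi).1, (hpS i hi).2]
    have e2 : ∑ i ∈ I.filter (fun i => 1 ≤ μ i), pat (μ i) (p' i) (n' i) l =
        ∑ i ∈ I, pat (μ i) (p' i) (n' i) l := by
      refine Finset.sum_subset (Finset.filter_subset _ _) fun i hi hi' => ?_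
      rw [Finset.mem_filter, not_and] at hi'
      have h1 := hi' hi
      have h2 := pat_le (μ i) (p' i) (n' i) l
      omega
    have e3 : ∑ i ∈ I, pat (μ i) (p' i) (n' i) l = ∑ i ∈ I, (μ i - l) := by
      refine Finset.sum_congr rfl fun i hi => ?_
      rw [(hpI i hi).1, (hpI i hi).2, CombN_pat_zero]
    rw [e1, e2, e3]

theorem CombN_DN_low {δ : ℕ} {M : Fin 9 → ℕ} {e : ℕ} (h : Std δ M e) (he : 0 < e) (l : ℕ)
    (hl : l < e) : Jt δ M ≤ DN δ M e l + l := by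
  induction l with
  | zero =>
    rw [DN_zero]
    omega
  | succ l ih =>
    have h1 := ih (by omega)
    rcases Nat.eq_zero_or_pos l with rfl | hl0
    · have h2 := DN_step2 h he (l := 0) (by omega)
      rw [DN_zero] at h2
      omega
    · have h2 := DN_step h he (l := l) hl0 (by omega)
      omega

/-- The class `C₀`. -/
theorem CombN_exists_C {s : ℕ} (μ : Fin s → ℕ) (m μ0 J : ℕ) (U : Finset (Fin s)) (hm : 1 ≤ m)
    (hμ0 : 1 ≤ μ0) (hμ0m : μ0 ≤ m) (hmJ : m ≤ J)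
    (hcl : 10 * m * (J + 1) ≤ (U.filter fun i => μ i = μ0).card * tri μ0) :
    ∃ C₀ : Finset (Fin s), C₀ ⊆ U ∧ (∀ i ∈ C₀, μ i = μ0) ∧
      10 * m * (J + 1) ≤ ∑ i ∈ C₀, tri (μ i) ∧ ∑ i ∈ C₀, tri (μ i) ≤ 11 * m * (J + 1) := by
  classical
  obtain ⟨t, ht⟩ : ∃ t, t = tri μ0 := ⟨_, rfl⟩
  obtain ⟨N, hN⟩ : ∃ N, N = 10 * m * (J + 1) := ⟨_, rfl⟩
  rw [← ht, ← hN] at hcl
  have ht0 : 1 ≤ t := by
    have h1 : tri 1 ≤ tri μ0 := tri_mono hμ0
    have h2 : tri 1 = 1 := rfl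
    omega
  have htm : t ≤ m ^ 2 := by
    rw [ht]
    exact Comb_tri_le hμ0m
  have hex : ∃ c, N ≤ c * t := ⟨_, hcl⟩
  have h1 := Nat.find_spec hex
  have h2 : Nat.find hex ≤ (U.filter fun i => μ i = μ0).card := Nat.find_min' hex hcl
  have h3 : Nat.find hex * t < N + t := by
    rcases Nat.eq_zero_or_pos (Nat.find hex) with h4 | h4
    · rw [h4]
      omega
    · have h5 := Nat.find_min hex (show Nat.find hex - 1 < Nat.find hex by omega)
      obtain ⟨c, hc⟩ : ∃ c, Nat.find hex = c + 1 := ⟨Nat.find hex - 1, by omega⟩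
      rw [hc, Nat.add_sub_cancel] at h5
      rw [hc, Nat.add_mul, Nat.one_mul]
      omega
  obtain ⟨C, hC1, hC2⟩ := Finset.exists_subset_card_eq h2
  have hCm : ∀ i ∈ C, μ i = μ0 := fun i hi => (Finset.mem_filter.1 (hC1 hi)).2
  have hsum : ∑ i ∈ C, tri (μ i) = Nat.find hex * t := by
    rw [Finset.sum_congr rfl fun i hi => by rw [hCm i hi], Finset.sum_const, hC2, smul_eq_mul, ← ht]
  refine ⟨C, hC1.trans (Finset.filter_subset _ _), hCm, ?_, ?_⟩
  · rw [hsum]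
    omega
  · rw [hsum]
    have h6 : m ^ 2 ≤ m * (J + 1) := by nlinarith
    have h7 : N + m * (J + 1) = 11 * m * (J + 1) := by
      rw [hN]
      ring
    omega

/-- `L = e`, `J = Jt`. Large points of the strip: the points of `I` get the pattern `(0, 1)`, `pat ν 0 1 l = ν - l`.
`D1 l = DN l - Σ_I (μ i - l)`. For `l ≤ w`: `DN l ≥ DN 0 - (l + 1) ≥ J - w` (`DN_step`, `DN_step2`), so
`D1 l ≥ J - w - Σ_I μ i ≥ 23 m² + m |I|`, if `l ≤ w` and `l < e`; for `w < l < e`: `D1 l = DN l ≥ M 8 ≥ 22 m²`.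
`A = Σ_{l<e} D1 l = Σ DN - Σ_I tri` (`μ i ≤ w ≤ e`); `2 Σ_I tri (μ i) ≤ (w + 1) Σ_I μ i ≤ (w + 1)(J + 1)`, so `area_DN` gives
`2 A ≥ (J + 1)(e - w - 1) ≥ 22 m (J + 1)`. `C₀` = a subset of the class of `μ0` in `U` with
`10 m (J + 1) ≤ |C₀| tri μ0 ≤ 10 m (J + 1) + tri m ≤ 11 m (J + 1) ≤ A` (`tri m ≤ m² ≤ m (J + 1)`). `exists_between` gives
`S`; `σ = Σ_S tri - A < tri m ≤ m²`; `D l = D1 l + sur m e σ l` (`ShghQG.sur`, `sum_sur`, `sur_step`; `σ / (e - 2 m) ≤ m` as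
`e - 2 m ≥ m`, so the jump at `2 m` is at most `m + 1`). `Dm = 2 (J + 1)` (`D l ≤ J + 1 + m + 1`). `fill` with
`T2 = S \ C₀`, `T3 = C₀`: `(2 m + 3) Dm ≤ 10 m (J + 1) ≤ Σ_{C₀} tri`. `hmild`, `h20`: `D l - D (l-1) ≤ |I| + (m + 1) [l = 2 m]` for
`l ≤ w`, `≤ (m + 1)[l = 2 m]` for `l > w` (`DN` is nonincreasing), and `m (m + 1) ≤ 2 m²`, `D l ≥ D1 l`.
`WConc`: for `a ≤ b`, `b + 1 ≤ m`, `a + 1 < e`: there is no surplus in the columns `≤ m`; `0 ≤ DN a - DN (a+1) ≤ 2`,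
`0 ≤ DN b - DN (b+1)`, and `(μ i - a) - (μ i - (a+1)) ≥ (μ i - b) - (μ i - (b+1))`. Finally
`T = S ∪ {i ∈ I | 1 ≤ μ i}`. -/
theorem comb {s : ℕ} (μ : Fin s → ℕ) (m μ0 w : ℕ) {δ : ℕ} {M : Fin 9 → ℕ} {e : ℕ}
    (hstd : Std δ M e) (I U : Finset (Fin s)) (hm : 1 ≤ m) (hIU : Disjoint I U)
    (hU : ∀ i ∈ U, μ i ≤ m) (hIw : ∀ i ∈ I, μ i ≤ w) (h8 : 22 * m ^ 2 ≤ M 8)
    (hJ : ∑ i ∈ I, (μ i + m) + w + 23 * m ^ 2 ≤ Jt δ M) (he : w + 1 + 22 * m ≤ e)
    (hμ0 : 1 ≤ μ0) (hμ0m : μ0 ≤ m)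
    (hcl : 10 * m * (Jt δ M + 1) ≤ (U.filter fun i => μ i = μ0).card * tri μ0)
    (hcov : tri (δ + 1) ≤ ∑ l, tri (M l) + ∑ i ∈ I ∪ U, tri (μ i)) :
    ∃ (T : Finset (Fin s)) (p n : Fin s → ℕ), T ⊆ I ∪ U ∧
      (∀ i ∈ T, Adm e (μ i) (p i) (n i)) ∧
      ∀ l, l < e → DN δ M e l ≤ ∑ i ∈ T, pat (μ i) (p i) (n i) l := by
  classical
  obtain ⟨J, hJ'⟩ : ∃ J, J = Jt δ M := ⟨_, rfl⟩
  rw [← hJ'] at hJ hcl
  have he0 : 0 < e := by omega
  have hmm : 1 ≤ m ^ 2 := Nat.one_le_pow _ _ hm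
  have hm2 : m ≤ m ^ 2 := by nlinarith
  have hIs : ∑ i ∈ I, (μ i + m) = ∑ i ∈ I, μ i + m * I.card := by
    rw [Finset.sum_add_distrib, Finset.sum_const, smul_eq_mul, mul_comm I.card m]
  rw [hIs] at hJ
  have hlow := CombN_DN_low hstd he0
  have hup : ∀ l, DN δ M e l ≤ J + 1 := fun l => by
    rw [hJ']
    exact RowN_DN_le l
  have hanti := DN_anti δ M e
  set Ld : ℕ → ℕ := fun l => ∑ i ∈ I, (μ i - l) with hLd
  have hLd0 : ∀ l, Ld l ≤ ∑ i ∈ I, μ i := fun l => Finset.sum_le_sum fun i _ => Nat.sub_le _ _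
  have hLdw : ∀ l, w ≤ l → Ld l = 0 := fun l hl => Finset.sum_eq_zero fun i hi => by
    have := hIw i hi
    omega
  have hLd1 : ∀ l, Ld l ≤ Ld (l + 1) + I.card := by
    intro l
    have h2 : I.card = ∑ i ∈ I, 1 := by simp
    rw [h2, hLd]
    simp only
    rw [← Finset.sum_add_distrib]
    exact Finset.sum_le_sum fun i _ => by omega
  have hLdc : ∀ a b, a ≤ b → Ld b + Ld (a + 1) ≤ Ld a + Ld (b + 1) := by
    intro a b hab
    rw [hLd]
    simp only
    rw [← Finset.sum_add_distrib, ← Finset.sum_add_distrib]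
    exact Finset.sum_le_sum fun i _ => by omega
  -- the demands without surplus
  set D1 : ℕ → ℕ := fun l => DN δ M e l - Ld l with hD1
  have hbig1 : ∀ l, l ≤ w → 23 * m ^ 2 + m * I.card + Ld l ≤ DN δ M e l := by
    intro l hl
    have h1 := hlow l (by omega)
    have h2 := hLd0 l
    rw [← hJ'] at h1
    omega
  have hbig2 : ∀ l, l < e → 22 * m ^ 2 + Ld l ≤ DN δ M e l := by
    intro l hl
    rcases Nat.le_total l w with h1 | h1
    · have h2 := hbig1 l h1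
      omega
    · have h2 := hLdw l h1
      have h3 := DN_ge hstd he0 hl
      omega
  have hD1e : ∀ l, l < e → D1 l + Ld l = DN δ M e l := by
    intro l hl
    have h1 := hbig2 l hl
    simp only [hD1]
    omega
  -- the area
  obtain ⟨A, hAdef⟩ : ∃ A, A = ∑ l ∈ Finset.range e, D1 l := ⟨_, rfl⟩
  have hLds : ∑ l ∈ Finset.range e, Ld l = ∑ i ∈ I, tri (μ i) := by
    rw [hLd]
    simp only
    rw [Finset.sum_comm]
    refine Finset.sum_congr rfl fun i hi => Pat_sum (μ i) e ?_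
    have := hIw i hi
    omega
  have hA1 : A + ∑ i ∈ I, tri (μ i) = ∑ l ∈ Finset.range e, DN δ M e l := by
    rw [hAdef, ← hLds, ← Finset.sum_add_distrib]
    exact Finset.sum_congr rfl fun l hl => hD1e l (Finset.mem_range.1 hl)
  have hAU : A ≤ ∑ i ∈ U, tri (μ i) := by
    have h1 := sum_DN hstd he0
    rw [Finset.sum_union hIU] at hcov
    have h2 : tri (δ + 1) = (δ + 2).choose 2 := rfl
    have h3 : ∑ l, tri (M l) = ∑ l, (M l + 1).choose 2 := rfl
    rw [h2, h3] at hcov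
    omega
  have hAlow : 11 * m * (J + 1) ≤ A := by
    have h1 := area_DN hstd he0
    rw [← hJ', ← hA1] at h1
    have h2 : 2 * ∑ i ∈ I, tri (μ i) ≤ (w + 1) * ∑ i ∈ I, μ i := by
      rw [Finset.mul_sum, Finset.mul_sum]
      refine Finset.sum_le_sum fun i hi => ?_
      rw [two_mul_tri, mul_comm]
      exact Nat.mul_le_mul_right _ (by
        have := hIw i hi
        omega)
    have h3 : (w + 1) * ∑ i ∈ I, μ i ≤ (w + 1) * (J + 1) := Nat.mul_le_mul_left _ (by omega)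
    have h4 : (w + 1 + 22 * m) * (J + 1) ≤ e * (J + 1) := Nat.mul_le_mul_right _ he
    have h5 : (w + 1 + 22 * m) * (J + 1) = (w + 1) * (J + 1) + 2 * (11 * m * (J + 1)) := by ring
    omega
  obtain ⟨C₀, hCU, hCm, hC1, hC2⟩ := CombN_exists_C μ m μ0 J U hm hμ0 hμ0m (by omega) hcl
  obtain ⟨S, hCS, hSU, hSp, hSA, hSA2⟩ := exists_between μ m A C₀ U hCU hU (by omega) hAU hm
  have htm : tri m ≤ m ^ 2 := Comb_tri_le le_rfl
  obtain ⟨σ, hσ⟩ := Nat.exists_eq_add_of_le hSA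
  have hσlt : σ < m ^ 2 := by omega
  have hσdiv : σ / (e - 2 * m) ≤ m := by
    refine Nat.div_le_of_le_mul ?_
    have h1 : m * m ≤ (e - 2 * m) * m := Nat.mul_le_mul_right m (by omega)
    have h2 : m ^ 2 = m * m := by ring
    omega
  set D : ℕ → ℕ := fun l => D1 l + sur m e σ l with hD
  have hsumD : ∑ l ∈ Finset.range e, D l = ∑ i ∈ S, tri (μ i) := by
    rw [hD]
    simp only
    rw [Finset.sum_add_distrib, sum_sur m e σ (by omega), ← hAdef, hσ]
  have hSC : ∑ i ∈ S \ C₀, tri (μ i) + ∑ i ∈ C₀, tri (μ i) = ∑ i ∈ S, tri (μ i) :=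
    Finset.sum_sdiff hCS
  have hmild : ∀ l, l < e → 20 * m ^ 2 + m * (D l - D (l - 1)) ≤ D l := by
    intro l hl
    have hge : D1 l ≤ D l := Nat.le_add_right _ _
    rcases Nat.eq_zero_or_pos l with hl0 | hl0
    · subst hl0
      rw [Nat.zero_sub, Nat.sub_self, mul_zero, add_zero]
      have h1 := hbig2 0 hl
      have h2 := hD1e 0 hl
      omega
    obtain ⟨k, rfl⟩ : ∃ k, l = k + 1 := ⟨l - 1, by omega⟩
    rw [Nat.add_sub_cancel]
    have hsur := sur_step m e σ (k + 1)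
    rw [Nat.add_sub_cancel] at hsur
    have hsur2 : sur m e σ (k + 1) ≤ sur m e σ k + (m + 1) := by
      refine hsur.trans (Nat.add_le_add_left ?_ _)
      split_ifs <;> omega
    have e1 := hD1e k (by omega)
    have e2 := hD1e (k + 1) hl
    have e3 := hanti k
    have hmul : m * (m + 1) ≤ 2 * m ^ 2 := by nlinarith
    rcases Nat.le_total (k + 1) w with h1 | h1
    · have h2 := hbig1 (k + 1) h1
      have h3 := hLd1 k
      have hdiff : D (k + 1) - D k ≤ I.card + (m + 1) := by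
        simp only [hD]
        omega
      have h4 : m * (D (k + 1) - D k) ≤ m * (I.card + (m + 1)) := Nat.mul_le_mul_left _ hdiff
      rw [Nat.mul_add] at h4
      omega
    · rcases Nat.eq_or_lt_of_le h1 with h5 | h5
      · have h2 := hbig1 (k + 1) (by omega)
        have h3 := hLd1 k
        have hdiff : D (k + 1) - D k ≤ I.card + (m + 1) := by
          simp only [hD]
          omega
        have h4 : m * (D (k + 1) - D k) ≤ m * (I.card + (m + 1)) := Nat.mul_le_mul_left _ hdiff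
        rw [Nat.mul_add] at h4
        omega
      · have h2 := hbig2 (k + 1) hl
        have h3 := hLdw k (by omega)
        have h6 := hLdw (k + 1) (by omega)
        have hdiff : D (k + 1) - D k ≤ m + 1 := by
          simp only [hD]
          omega
        have h4 : m * (D (k + 1) - D k) ≤ m * (m + 1) := Nat.mul_le_mul_left _ hdiff
        omega
  have hconc : WConc m D := by
    intro a b hab hbm
    have hs : ∀ l, l ≤ m → D l = D1 l := by
      intro l hl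
      simp only [hD]
      have : sur m e σ l = 0 := by
        unfold sur
        rw [if_neg (by omega)]
      rw [this, Nat.add_zero]
    rw [hs a (by omega), hs (a + 1) (by omega), hs b (by omega), hs (b + 1) (by omega)]
    have e1 := hD1e a (by omega)
    have e2 := hD1e (a + 1) (by omega)
    have e3 := hD1e b (by omega)
    have e4 := hD1e (b + 1) (by omega)
    have h1 := DN_step2 hstd he0 (l := a) (by omega)
    have h2 := hanti b
    have h3 := hLdc a b hab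
    omega
  have hDmax : ∀ l, l < e → D l ≤ 2 * (J + 1) := by
    intro l hl
    have h1 := CombN_sur_le hσdiv l
    have h2 := hup l
    have h3 := hD1e l hl
    simp only [hD]
    omega
  have hunion : S \ C₀ ∪ C₀ = S := Finset.sdiff_union_of_subset hCS
  obtain ⟨p, n, hA, hfill⟩ := fill μ (m := m) (μ0 := μ0) (L := e) (Dm := 2 * (J + 1))
    (D := D) (S \ C₀) C₀ Finset.sdiff_disjoint hμ0 hμ0m
    (fun i hi => ⟨hSp i (Finset.mem_sdiff.1 hi).1 (Finset.mem_sdiff.1 hi).2,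
      hU i (hSU (Finset.mem_sdiff.1 hi).1)⟩) hCm (by omega) hDmax
    (fun l hl => by
      have := hmild l hl
      omega)
    (fun l hl => hmild l (by omega)) hconc
    (by
      rw [hsumD, ← hSC]
      refine Nat.add_le_add_left (le_trans ?_ hC1) _
      calc (2 * m + 3) * (2 * (J + 1)) ≤ (5 * m) * (2 * (J + 1)) :=
            Nat.mul_le_mul_right _ (by omega)
        _ = 10 * m * (J + 1) := by ring)
    (by rw [hunion, hsumD])
  rw [hunion] at hA hfill
  obtain ⟨T, p', n', hT1, hT2, hT3⟩ := CombN_assemble μ e I U S D hIU hSU (by omega)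
    (fun i hi => by
      have := hIw i hi
      omega) p n hA hfill
  refine ⟨T, p', n', hT1, hT2, fun l hl => ?_⟩
  rw [hT3 l hl]
  have h1 := hD1e l hl
  simp only [hD]
  have h2 : ∑ i ∈ I, (μ i - l) = Ld l := rfl
  rw [h2]
  omega

end ShghN
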