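import Pool.Agent.ShghW.CoreW

/-!
# From a polynomial through the special points to theta functions, for every `N`

`core_W` with an arbitrary period `N` instead of `4 e`.
-/

namespace ShghT

variable {k : Type*} [Field k]

open MvPolynomial in
theorem core_N {N e : ℕ} (hN0 : 0 < N) (d : ℕ) (M : Fin 9 → ℕ) (hstd : Std d M e)
    (a : Fin 9 → kˣ) (ha : Function.Injective a) (ν : kˣ) (hν : (ν : k) * ∏ l, (-(a l : k)) = 1)
    (α β δ : PowerSeries k) (hα : PowerSeries.constantCoeff α = 0)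
    (hβ : PowerSeries.constantCoeff β = -1) (hδ : PowerSeries.constantCoeff δ = -1)
    (hrel : iota α * x3 k N 0 ^ 3 + iota β * x3 k N 1 ^ 3 +
      iota δ * x3 k N 2 ^ 3 + x3 k N 0 * x3 k N 1 * x3 k N 2 = 0)
    {r : ℕ} (m : Fin r → ℕ) (ci : Fin r → ℤ)
    (hc : ∀ i, 0 ≤ ci i ∧ ci i < (N : ℤ))
    (αi t : Fin r → kˣ)
    (hval : ∀ i, PowerSeries.constantCoeff (Te N (ci i) (hc i).1 (hc i).2
      (αi i) (goodB N a α)) ≠ 0)
    (τ : Fin r → KK k)
    (hτ : ∀ i, τ i * (PowerSeries.constantCoeff (psi (TEe N (ci i) (hc i).1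
      (hc i).2 (αi i)) (MvPolynomial.C (3 * algebraMap (PowerSeries k) (KK k) α) *
        MvPolynomial.X 0 ^ 2 + MvPolynomial.X 1)) *
      PowerSeries.constantCoeff (TEe N (ci i) (hc i).1
      (hc i).2 (αi i) (x3B k N 1)) ^ 3) =
      algebraMap (PowerSeries k) (KK k) (PowerSeries.C (t i : k)) *
        ∏ l, PowerSeries.constantCoeff (TEe N (ci i) (hc i).1
      (hc i).2 (αi i) (thB N (a l))))
    (F : Polynomial (MvPolynomial (Fin 2) (KK k))) (hF : F ≠ 0)
    (hFd : ∀ l, (F.coeff l).totalDegree ≤ d)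
    (hFb : ∀ l i, F.coeff l ∈ pt (bp (TB N (a i)) 0) (bp (TB N (a i)) 1) ^ (M i))
    (hFe : ∀ i, F ∈ (Ideal.span {Polynomial.C (X 0) - (Polynomial.C (C (bp (TEe N
      (ci i) (hc i).1 (hc i).2 (αi i)) 0)) + Polynomial.C (C (τ i)) *
        Polynomial.X), Polynomial.C (X 1) - Polynomial.C (C (bp (TEe N
      (ci i) (hc i).1 (hc i).2 (αi i)) 1))} :
      Ideal (Polynomial (MvPolynomial (Fin 2) (KK k)))) ^ m i) :
    ∃ (w : ℕ) (H : ℕ → Lam k),
      (∀ j ≤ w, IsTh N e ((∏ l, (-(a l : k)) ^ M l) * (ν : k) ^ j) (H j)) ∧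
      (∃ j ≤ w, H j ≠ 0) ∧
      (∀ j ≤ w, H j ≠ 0 → j ≤ Jt d M ∧ ∃ T : Lam k,
        H j = T * Bf N a (kl d M j) (fun l => j - M l) ∧
        (M 0 - j = d - 3 * j → IsSym (-(a 0))⁻¹ (d - 3 * j - (M 1 - j)) T)) ∧
      ∀ i a1 b1, a1 + b1 < m i → ∀ n : ℕ, ∑ j ∈ Finset.range (w + 1),
        (t i : k) ^ j * (j.choose b1 : k) * (∑ᶠ l : ℤ, cf (H j) (n - ci i * l) l *
          (αi i : k) ^ l * ((Ring.choose l a1 : ℤ) : k)) = 0 := by
  classical
  set α' := algebraMap (PowerSeries k) (KK k) α with hα'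
  set β' := algebraMap (PowerSeries k) (KK k) β with hβ'
  set δ' := algebraMap (PowerSeries k) (KK k) δ with hδ'
  have hinj := IsFractionRing.injective (PowerSeries k) (KK k)
  have hδ0 : δ' ≠ 0 := by
    rw [hδ', Ne, map_eq_zero_iff _ hinj]
    rintro rfl
    rw [map_zero] at hδ
    exact one_ne_zero (neg_eq_zero.1 hδ.symm)
  obtain ⟨w, g, hg, l0, hl0w, hl0⟩ := exists_w α' β' δ' hδ0 F hF
  obtain ⟨c, hc0, g', hg'⟩ := exists_scale (S := PowerSeries k) (K := KK k) w g
  set c' := algebraMap (PowerSeries k) (KK k) c with hc'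
  have hc'0 : c' ≠ 0 := by rwa [hc', Ne, map_eq_zero_iff _ hinj]
  -- facts about g
  have key : ∀ j, j ≤ w → g (w - j) ≠ 0 → j ≤ Jt d M ∧ 3 * j + (g (w - j)).totalDegree ≤ d ∧
      ∀ i, g (w - j) ∈ pt (bp (TB N (a i)) 0) (bp (TB N (a i)) 1) ^ (M i - j) := by
    intro j hj hgj
    have h1 := hg (w - j) (Nat.sub_le _ _)
    rw [Nat.sub_sub_self hj] at h1
    have h3 := hFd (w - j)
    rw [h1, totalDegree_Gp_pow_mul _ _ _ hδ0 _ hgj] at h3
    have h6 : ∀ i, g (w - j) ∈ pt (bp (TB N (a i)) 0) (bp (TB N (a i)) 1) ^ (M i - j) := by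
      intro i
      have h3 := hFb (w - j) i
      rw [h1] at h3
      exact colon α' β' δ' _ _ (bp_curve (TB_iota N (a i)) (TB_x3_one N hN0 (a i)) hrel)
        (bp_smooth' (TB_iota N (a i)) (TB_x3_one N hN0 (a i)) α (TB_smooth hN0 (a i) hα)) j _ _ h3
    refine ⟨?_, h3, h6⟩
    rw [le_Jt_iff hstd]
    have h7 := mult_le_totalDegree (bp (TB N (a 0))) (M 0 - j) _ hgj (h6 0)
    omega
  -- the functions H
  have hHex : ∀ j : ℕ, ∃ H : Bann k N,
      IsTh N e ((∏ l, (-(a l : k)) ^ M l) * (ν : k) ^ j) (H : Lam k) ∧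
      ((w < j ∨ g (w - j) = 0) → H = 0) ∧
      (j ≤ w → g (w - j) ≠ 0 →
        PhiB N (d - 3 * j) (g' (w - j)) * ∏ l, thB N (a l) ^ (j - M l) =
          H * ∏ l, thB N (a l) ^ (M l - j)) := by
    intro j
    by_cases hj : j ≤ w ∧ g (w - j) ≠ 0
    · obtain ⟨hjw, hgj⟩ := hj
      obtain ⟨hjJ, hdj, hmj⟩ := key j hjw hgj
      have hg'deg : (g' (w - j)).totalDegree ≤ d - 3 * j := by
        have := totalDegree_of_map c' (g (w - j)) (hg' (w - j) (Nat.sub_le _ _))
        omega
      have h3j : 3 * j ≤ d := by omega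
      have hsum : ∀ l, (M l - j) + j = (j - M l) + M l := fun l => by omega
      have hsum2 : ∑ l, (M l - j) + 9 * j = ∑ l, (j - M l) + ∑ l, M l := by
        rw [← Finset.sum_add_distrib, ← Finset.sum_congr rfl (fun l _ => hsum l),
          Finset.sum_add_distrib]
        simp
      obtain ⟨H, hH1, hH2⟩ := exists_H hN0 e a ha (fun l => M l - j) (fun l => j - M l)
        (d - 3 * j) (g' (w - j)) hg'deg
        (fun l => base_order hN0 (a l) _ _ _ hg'deg c' (g (w - j))
          (hg' (w - j) (Nat.sub_le _ _)) (hmj l)) (sum_mu_le hstd hjJ) (by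
            have := hstd.deg
            omega)
      refine ⟨H, ?_, ?_, ?_⟩
      · have e1 : (∏ l, (-(a l : k)) ^ (M l - j)) * ∏ l, (-((a l)⁻¹ : kˣ) : k) ^ (j - M l) =
            (∏ l, (-(a l : k)) ^ M l) * (ν : k) ^ j := by
          have e2 : (ν : k) ^ j = (∏ l, (-(a l : k)) ^ (-(j : ℤ))) := by
            rw [Finset.prod_zpow, zpow_neg, zpow_natCast, ← inv_pow]
            congr 1
            exact eq_inv_of_mul_eq_one_left hν
          rw [e2, ← Finset.prod_mul_distrib, ← Finset.prod_mul_distrib]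
          refine Finset.prod_congr rfl fun l _ => ?_
          have hne : (-(a l : k)) ≠ 0 := neg_ne_zero.2 (a l).ne_zero
          have e3 : (-((a l)⁻¹ : kˣ) : k) = (-(a l : k))⁻¹ := by
            rw [Units.val_inv_eq_inv_val, neg_inv]
          rw [e3, inv_pow, ← zpow_natCast, ← zpow_natCast, ← zpow_natCast, ← zpow_neg,
            ← zpow_add₀ hne, ← zpow_add₀ hne]
          congr 1
          have := hsum l
          push_cast [Int.ofNat_sub] at *
          omega
        rw [← e1]
        exact hH1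
      · rintro (h | h)
        · omega
        · exact absurd h hgj
      · intro _ _
        exact hH2
    · refine ⟨0, IsTh.zero _ _ _, fun _ => rfl, fun h1 h2 => absurd ⟨h1, h2⟩ hj⟩
  choose H hHth hH0 hHrel using hHex
  have hprodth : ∀ f : Fin 9 → ℕ, (∏ l, th N (a l) ^ f l) ≠ 0 := fun f =>
    Finset.prod_ne_zero_iff.2 fun l _ => pow_ne_zero _ (th_ne_zero hN0 (a l))
  refine ⟨w, fun j => (H j : Lam k), fun j _ => hHth j, ?_, ?_, ?_⟩
  · -- not all vanish
    by_contra hcon
    push Not at hcon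
    have hgl0 : g l0 ≠ 0 := fun h => hl0 (by rw [h]; exact dvd_zero _)
    have hj0 : w - (w - l0) = l0 := Nat.sub_sub_self hl0w
    have hrel2 := hHrel (w - l0) (Nat.sub_le _ _) (by rwa [hj0])
    have hH' : H (w - l0) = 0 := by
      have hcon2 : ((H (w - l0) : Bann k N) : Lam k) = 0 := hcon (w - l0) (Nat.sub_le _ _)
      exact Subtype.ext hcon2
    rw [hH', zero_mul, hj0] at hrel2
    have h7 : Phi N (d - 3 * (w - l0)) (g' l0) = 0 := by
      have h8 := congrArg (fun x : Bann k N => (x : Lam k)) hrel2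
      simp only [Subring.coe_mul, SubmonoidClass.coe_finsetProd, SubmonoidClass.coe_pow,
        Subring.coe_zero] at h8
      rcases mul_eq_zero.1 h8 with h9 | h9
      · exact h9
      · exact absurd h9 (hprodth _)
    obtain ⟨_, hd0, _⟩ := key (w - l0) (Nat.sub_le _ _) (by rwa [hj0])
    rw [hj0] at hd0
    have h10 := Phi_kernel hN0 hα hβ hδ hrel (g := g' l0) (by
      have := totalDegree_of_map c' (g l0) (hg' l0 hl0w)
      omega) h7
    exact hl0 (map_dvd α β δ c' hc'0 (g l0) (hg' l0 hl0w) h10)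
  · -- the factorization
    intro j hjw hHj
    have hgj : g (w - j) ≠ 0 := by
      intro h
      have h2 : ((H j : Bann k N) : Lam k) = 0 := by rw [hH0 j (Or.inr h)]; rfl
      exact hHj h2
    obtain ⟨hjJ, hdj, hmj⟩ := key j hjw hgj
    refine ⟨hjJ, ?_⟩
    have hg'deg : (g' (w - j)).totalDegree ≤ d - 3 * j := by
      have := totalDegree_of_map c' (g (w - j)) (hg' (w - j) (Nat.sub_le _ _))
      omega
    obtain ⟨T, hT1, hT2⟩ := level_T hN0 hα hβ hδ hrel a ha (d - 3 * j) (fun l => M l - j)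
      ⟨mu_le hstd hjJ 0, mu_le hstd hjJ 1⟩ (sum_mu_le hstd hjJ) (mu_zero hstd hjJ) (g' (w - j))
      hg'deg (g (w - j)) c' hc'0 (hg' (w - j) (Nat.sub_le _ _)) hmj
    refine ⟨T, ?_, hT2⟩
    have h8 := congrArg (fun x : Bann k N => (x : Lam k)) (hHrel j hjw hgj)
    simp only [Subring.coe_mul, SubmonoidClass.coe_finsetProd, SubmonoidClass.coe_pow] at h8
    have h9 : Phi N (d - 3 * j) (g' (w - j)) * ∏ l, th N (a l) ^ (j - M l) =
        (H j : Lam k) * ∏ l, th N (a l) ^ (M l - j) := h8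
    rw [hT1] at h9
    refine mul_right_cancel₀ (hprodth (fun l => M l - j)) ?_
    rw [← h9, Bf, kl]
    ring
  · -- the conditions
    intro i a1 b1 hab n
    have hvi := hval i
    have hτi := hτ i
    have hFi := hFe i
    set T := TEe N (ci i) (hc i).1 (hc i).2 (αi i) with hTdef
    have hTi : ∀ b, T (iotaB N b) = PowerSeries.C (algebraMap (PowerSeries k) (KK k) b) :=
      TEe_iota _ _ _
    have hv2 : PowerSeries.constantCoeff (T (goodB N a α)) ≠ 0 := TEe_ne _ _ _ hvi
    rw [goodB, map_mul, map_mul, map_mul, map_mul] at hv2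
    have hx1 := left_ne_zero_of_mul (left_ne_zero_of_mul hv2)
    have hth' := right_ne_zero_of_mul (left_ne_zero_of_mul hv2)
    have hsm := right_ne_zero_of_mul hv2
    have hth : ∀ l, PowerSeries.constantCoeff (T (thB N (a l))) ≠ 0 := by
      rw [map_prod, map_prod] at hth'
      exact fun l => Finset.prod_ne_zero_iff.1 hth' l (Finset.mem_univ _)
    have hu1 : IsUnit (T (x3B k N 1)) :=
      PowerSeries.isUnit_iff_constantCoeff.2 (isUnit_iff_ne_zero.2 hx1)
    have hu2 : ∀ l, IsUnit (T (thB N (a l))) := fun l =>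
      PowerSeries.isUnit_iff_constantCoeff.2 (isUnit_iff_ne_zero.2 (hth l))
    set V := psi T (MvPolynomial.C (3 * α') * MvPolynomial.X 0 ^ 2 + MvPolynomial.X 1) with hV
    have hV0 : PowerSeries.constantCoeff V ≠ 0 := bp_smooth hTi hx1 α hsm
    have hM1 := stepA α' β' δ' (psi T) (psi_Gp T hTi hx1 hrel)
      (Ideal.span {(PowerSeries.X : PowerSeries (KK k))}) (bp T 0) (bp T 1) (τ i) (by
        rw [psi_C, Ideal.mem_span_singleton, PowerSeries.X_dvd_iff, map_sub,
          PowerSeries.constantCoeff_C]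
        exact sub_self _) (by
        rw [psi_C, Ideal.mem_span_singleton, PowerSeries.X_dvd_iff, map_sub,
          PowerSeries.constantCoeff_C]
        exact sub_self _) (m i) F hFi w g hg
    rw [psi_C] at hM1
    set W : (PowerSeries (KK k))ˣ := (∏ l, (hu2 l).unit ^ (M l : ℤ)) *
      hu1.unit ^ (-((d : ℕ) : ℤ)) with hW
    set Z : PowerSeries (KK k) := V * (hu1.unit : PowerSeries (KK k)) ^ 3 *
      (((∏ l, (hu2 l).unit)⁻¹ : (PowerSeries (KK k))ˣ) : PowerSeries (KK k)) with hZ
    have hterm : ∀ j ∈ Finset.range (w + 1),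
        Polynomial.C (PowerSeries.C c') * (Polynomial.C (psi T (g (w - j)) * V ^ j) *
          Polynomial.X ^ j) =
        Polynomial.C ((W : PowerSeries (KK k)) * Z ^ j * T (H j)) * Polynomial.X ^ j := by
      intro j hj
      have hjw : j ≤ w := by
        have := Finset.mem_range.1 hj
        omega
      rw [← mul_assoc, ← Polynomial.C_mul]
      congr 2
      by_cases hgj : g (w - j) = 0
      · rw [hgj, hH0 j (Or.inr hgj)]
        simp
      · have hrel2 := hHrel j hjw hgj
        obtain ⟨hjJ, hdj, hmj⟩ := key j hjw hgj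
        have hg'deg : (g' (w - j)).totalDegree ≤ d - 3 * j := by
          have := totalDegree_of_map c' (g (w - j)) (hg' (w - j) (Nat.sub_le _ _))
          omega
        have h1 := psi_Phi T hTi hx1 hg'deg
        have h2 := congrArg T hrel2
        rw [map_mul, map_mul, map_prod, map_prod] at h2
        simp only [map_pow] at h2
        have h3 := unit_id (fun l => (hu2 l).unit) hu1.unit V (T (PhiB N (d - 3 * j)
          (g' (w - j)))) (T (H j)) (psi T (MvPolynomial.map (algebraMap (PowerSeries k) (KK k))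
            (g' (w - j)))) (fun l => M l - j) (fun l => j - M l) (d - 3 * j) j d
          (fun l => (M l : ℤ)) h1 h2 (fun l => by
            have : (M l - j) + j = (j - M l) + M l := by omega
            push_cast [Int.ofNat_sub] at *
            omega) (by omega)
        rw [hg' (w - j) (Nat.sub_le _ _), map_mul, psi_C] at h3
        rw [← mul_assoc]
        exact h3
    have hM2 := Ideal.mul_mem_left _ (Polynomial.C (PowerSeries.C c')) hM1
    rw [Finset.mul_sum, Finset.sum_congr rfl hterm] at hM2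
    have hW0 : PowerSeries.constantCoeff (W : PowerSeries (KK k)) ≠ 0 :=
      (PowerSeries.isUnit_iff_constantCoeff.1 W.isUnit).ne_zero
    have hZval : PowerSeries.constantCoeff Z = PowerSeries.constantCoeff V *
        PowerSeries.constantCoeff (T (x3B k N 1)) ^ 3 *
          (∏ l, PowerSeries.constantCoeff (T (thB N (a l))))⁻¹ := by
      rw [hZ, map_mul, map_mul, map_pow]
      congr 1
      have h4 : PowerSeries.constantCoeff (((∏ l, (hu2 l).unit)⁻¹ : (PowerSeries (KK k))ˣ) :
          PowerSeries (KK k)) * PowerSeries.constantCoeff (((∏ l, (hu2 l).unit) :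
            (PowerSeries (KK k))ˣ) : PowerSeries (KK k)) = 1 := by
        rw [← map_mul, ← Units.val_mul, inv_mul_cancel, Units.val_one, map_one]
      rw [Units.coe_prod, map_prod] at h4
      exact eq_inv_of_mul_eq_one_left h4
    have hprod0 : (∏ l, PowerSeries.constantCoeff (T (thB N (a l)))) ≠ 0 :=
      Finset.prod_ne_zero_iff.2 fun l _ => hth l
    have hZ0 : PowerSeries.constantCoeff Z ≠ 0 := by
      rw [hZval]
      exact mul_ne_zero (mul_ne_zero hV0 (pow_ne_zero _ hx1)) (inv_ne_zero hprod0)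
    have hτZ : τ i * PowerSeries.constantCoeff Z =
        algebraMap (PowerSeries k) (KK k) (PowerSeries.C (t i : k)) := by
      rw [hZval, ← mul_assoc, hτi, mul_assoc, mul_inv_cancel₀ hprod0, mul_one]
    have hsub := subst_coeff (m i) w (fun j => T (H j)) W Z hW0 hZ0 (τ i) hM2 a1 b1 hab
    rw [hτZ] at hsub
    have hR : ∑ j ∈ Finset.range (w + 1), PowerSeries.C (t i : k) ^ j *
        (j.choose b1 : PowerSeries k) * PowerSeries.coeff a1 (Te N (ci i) (hc i).1
        (hc i).2 (αi i) (H j)) = 0 := by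
      apply hinj
      rw [map_zero, map_sum, ← hsub]
      refine Finset.sum_congr rfl fun j _ => ?_
      rw [map_mul, map_mul, map_pow, map_natCast, hTdef, TEe_apply, toK, PowerSeries.coeff_map]
    have hRn := congrArg (PowerSeries.coeff n) hR
    rw [map_sum, map_zero] at hRn
    rw [← hRn]
    refine Finset.sum_congr rfl fun j _ => ?_
    have h5 : (PowerSeries.C (t i : k) ^ j * (j.choose b1 : PowerSeries k) : PowerSeries k) =
        PowerSeries.C ((t i : k) ^ j * (j.choose b1 : k)) := by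
      rw [map_mul, map_pow, map_natCast]
    rw [h5, PowerSeries.coeff_C_mul, coeff_Te]
    simp only [Units.val_zpow_eq_zpow_val]

end ShghT
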