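import Pool.Agent.ShghT.SemiB
import Pool.Agent.ShghQ.Defs

/-!
# Empty linear systems through generic points
-/

namespace ShghN

open MvPolynomial

universe u v w

/-- The configuration `P` carries no curve of degree `δ` with the multiplicities `μ`. -/
def NoCurve {K : Type v} [Field K] {ι : Type w} (δ : ℕ) (μ : ι → ℕ) (P : ι → Fin 2 → K) : Prop :=
  ∀ f : MvPolynomial (Fin 2) K, f.totalDegree ≤ δ →
    (∀ i, f ∈ ShghQ.pt (P i 0) (P i 1) ^ μ i) → f = 0

/-- The linear system of generic points is empty. -/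
def Emp (F : Type u) [Field F] {ι : Type w} (δ : ℕ) (μ : ι → ℕ) : Prop :=
  ∀ (K : Type u) [Field K] [Algebra F K] (P : ι → Fin 2 → K),
    AlgebraicIndependent F (fun ij : ι × Fin 2 => P ij.1 ij.2) → NoCurve δ μ P

/-- There are generic points: `K = FractionRing (MvPolynomial (ι × Fin 2) F)` (for `ι : Type`, which is enough; the
universe of `K` is that of `F`). -/
theorem exists_generic (F : Type u) [Field F] (ι : Type) :
    ∃ (K : Type u) (_ : Field K) (_ : Algebra F K) (P : ι → Fin 2 → K),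
      AlgebraicIndependent F (fun ij : ι × Fin 2 => P ij.1 ij.2) := by
  refine ⟨FractionRing (MvPolynomial (ι × Fin 2) F), inferInstance, inferInstance,
    fun i j => algebraMap (MvPolynomial (ι × Fin 2) F) _ (X (i, j)), ?_⟩
  exact (algebraicIndependent_X (ι × Fin 2) F).map'
    (f := IsScalarTower.toAlgHom F (MvPolynomial (ι × Fin 2) F)
      (FractionRing (MvPolynomial (ι × Fin 2) F))) (IsFractionRing.injective _ _)

/-- Linear systems and configurations without curves. -/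
theorem EmpN_LS {K : Type v} [Field K] {s : ℕ} {δ : ℕ} {μ : Fin s → ℕ} {P : Fin s → Fin 2 → K} :
    NoCurve δ μ P ↔ ShghT.LS δ μ P = ⊥ := by
  rw [Submodule.eq_bot_iff]
  exact ⟨fun h f hf => h f hf.1 hf.2, fun h f h1 h2 => h f ⟨h1, h2⟩⟩

/-- Reindexing. -/
theorem EmpN_equiv {K : Type v} [Field K] {ι ι' : Type w} {δ : ℕ} {μ : ι → ℕ} {P : ι → Fin 2 → K}
    (e : ι' ≃ ι) : NoCurve δ (fun i => μ (e i)) (fun i => P (e i)) ↔ NoCurve δ μ P := by
  constructor
  · intro h f h1 h2
    exact h f h1 fun i => h2 (e i)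
  · intro h f h1 h2
    refine h f h1 fun i => ?_
    have h3 := h2 (e.symm i)
    simp only [e.apply_symm_apply] at h3
    exact h3

/-- A special configuration without curves (over any field extension) is enough: `ShghT.finrank_LS_le` with an
enumeration `ι ≃ Fin s`; `ShghT.LS` is defined with `ShghT.pt`, which unfolds to the same ideal as `ShghQ.pt`. -/
theorem emp_of_config {F : Type u} [Field F] {ι : Type} [Fintype ι] {δ : ℕ} {μ : ι → ℕ}
    {K' : Type v} [Field K'] [Algebra F K'] (P' : ι → Fin 2 → K') (h : NoCurve δ μ P') :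
    Emp F δ μ := by
  intro K _ _ P hP
  let e := (Fintype.equivFin ι).symm
  rw [← EmpN_equiv e] at h ⊢
  rw [EmpN_LS] at h ⊢
  have hP' : AlgebraicIndependent F
      (fun ij : Fin (Fintype.card ι) × Fin 2 => (fun i => P (e i)) ij.1 ij.2) :=
    hP.comp (fun ij : Fin (Fintype.card ι) × Fin 2 => (e ij.1, ij.2)) (by
      rintro ⟨i, j⟩ ⟨i', j'⟩ hij
      rw [Prod.mk.injEq] at hij
      exact Prod.ext (e.injective hij.1) hij.2)
  have h3 := ShghT.finrank_LS_le (F := F) (fun i => P (e i)) hP' (fun i => P' (e i)) δ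
    (fun i => μ (e i))
  rw [h, finrank_bot] at h3
  exact Submodule.finrank_eq_zero.1 (Nat.le_zero.1 h3)

/-- Fewer points and smaller multiplicities. -/
theorem emp_of_inj {F : Type u} [Field F] {ι ι' : Type} {δ : ℕ} {μ : ι → ℕ} {μ' : ι' → ℕ}
    (φ : ι' → ι) (hφ : Function.Injective φ) (hμ : ∀ i, μ' i ≤ μ (φ i)) (h : Emp F δ μ') :
    Emp F δ μ := by
  intro K _ _ P hP f h1 h2
  refine h K (fun i => P (φ i)) ?_ f h1 fun i => Ideal.pow_le_pow_right (hμ i) (h2 (φ i))
  exact hP.comp (fun ij : ι' × Fin 2 => (φ ij.1, ij.2)) (by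
    rintro ⟨i, j⟩ ⟨i', j'⟩ hij
    rw [Prod.mk.injEq] at hij
    exact Prod.ext (hφ hij.1) hij.2)

/-- The dimension for generic points from two statements on empty systems. Adapt the proof of
`ShghQG.final_of` (`ShghQG/Simple.lean`); in the second case take `K'` from `exists_generic` for `Fin (s + n)`. -/
theorem finrank_of_emp {k : Type u} [Field k] {s : ℕ} (P : Fin s → Fin 2 → k)
    (hP : AlgebraicIndependent (⊥ : Subfield k) (fun ij : Fin s × Fin 2 => P ij.1 ij.2))
    (δ : ℕ) (μ : Fin s → ℕ)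
    (h1 : ShghQ.tri (δ + 1) ≤ ∑ i, ShghQ.tri (μ i) → Emp (⊥ : Subfield k) δ μ)
    (h2 : ∀ n : ℕ, ShghQ.tri (δ + 1) = ∑ i, ShghQ.tri (μ i) + n →
      Emp (⊥ : Subfield k) δ (Fin.append μ fun _ : Fin n => 1)) :
    (Module.finrank k (ShghT.LS δ μ P) : ℤ) =
      max 0 (((δ + 2).choose 2 : ℤ) - ∑ i, ((μ i + 1).choose 2 : ℤ)) := by
  classical
  have htri : ShghQ.tri (δ + 1) = (δ + 2).choose 2 := rfl
  by_cases hcov : ShghQ.tri (δ + 1) ≤ ∑ i, ShghQ.tri (μ i)
  · have h3 : ShghT.LS δ μ P = ⊥ := EmpN_LS.1 (h1 hcov k P hP)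
    have h5 : ((δ + 2).choose 2 : ℤ) ≤ ∑ i, ((μ i + 1).choose 2 : ℤ) := by
      rw [htri] at hcov
      have h6 : (δ + 2).choose 2 ≤ ∑ i, (μ i + 1).choose 2 := hcov
      exact_mod_cast h6
    rw [max_eq_left (by linarith), h3, finrank_bot]
    rfl
  · rw [not_le] at hcov
    obtain ⟨n, hn⟩ : ∃ n, ShghQ.tri (δ + 1) = ∑ i, ShghQ.tri (μ i) + n :=
      ⟨_, (Nat.add_sub_cancel' hcov.le).symm⟩
    obtain ⟨K', _, _, P', hP'⟩ := exists_generic (⊥ : Subfield k) (Fin (s + n))
    have hno := h2 n hn K' P' hP'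
    have h3 := ShghT.finrank_LS_le (F := (⊥ : Subfield k)) P hP
      (fun i => P' (Fin.castAdd n i)) δ μ
    have h4 := ShghT.finrank_LS_le_of_cut δ μ (fun i => P' (Fin.castAdd n i)) n
      (fun i => P' (Fin.natAdd s i)) ∅ (by
        intro f hf _
        rw [Fin.append_castAdd_natAdd] at hf
        exact hno f hf.1 hf.2)
    have h5 := ShghT.le_finrank_LS δ μ P
    rw [Finset.card_empty, add_zero] at h4
    have h6 : (δ + 2).choose 2 = ∑ i, (μ i + 1).choose 2 + n := hn
    have h7 : Module.finrank k (ShghT.LS δ μ P) = n := by omega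
    have h8 : ((δ + 2).choose 2 : ℤ) = ∑ i, ((μ i + 1).choose 2 : ℤ) + n := by
      exact_mod_cast h6
    rw [h7, h8, add_sub_cancel_left, max_eq_right (Int.natCast_nonneg n)]

end ShghN
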