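import Pool.Agent.ShghN.CloN
import Pool.Agent.ShghQG.Fill

/-!
# Filling a strip exactly, all columns deep, almost concave demands
-/

namespace ShghN

open ShghQ ShghQG

/-- Copy of `ShghQG.fill3` with `ShghN.close`. -/
theorem fill3 {s : ℕ} (μ : Fin s → ℕ) {m μ0 L : ℕ} {D : ℕ → ℕ} (S T3 : Finset (Fin s))
    (hd : Disjoint S T3) (hμ0 : 1 ≤ μ0) (hμ0m : μ0 ≤ m) (hT3 : ∀ i ∈ T3, μ i = μ0)
    (hS : ∀ i ∈ S, μ i ≤ m) (hmL : m ≤ L)
    (hmild : ∀ l, l < L → 8 * m ^ 2 + m * (D l - D (l - 1)) ≤ D l)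
    (h20 : ∀ l, l ≤ 2 * m → 20 * m ^ 2 + m * (D l - D (l - 1)) ≤ D l)
    (hconc : WConc m D)
    (p n : Fin s → ℕ) (q : ℕ) (hA : ∀ i ∈ S, Adm L (μ i) (p i) (n i)) (hq : 2 * m ≤ q)
    (hR : Reg m L D (fillOf S μ p n) m q)
    (htot : ∑ i ∈ S ∪ T3, tri (μ i) = ∑ l ∈ Finset.range L, D l) :
    ∃ p' n', (∀ i ∈ S ∪ T3, Adm L (μ i) (p' i) (n' i)) ∧
      ∀ l, l < L → fillOf (S ∪ T3) μ p' n' l = D l := by
  classical
  have hqL := hR.q_lt
  -- the total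
  have hsumF := sum_fillOf hmL S μ p n hS hA
  have hT3sum : ∑ i ∈ T3, tri (μ i) = T3.card * tri μ0 := by
    rw [Finset.sum_congr rfl fun i hi => by rw [hT3 i hi], Finset.sum_const, smul_eq_mul]
  rw [Finset.sum_union hd, ← hsumF, hT3sum] at htot
  have hsplit : ∀ f : ℕ → ℕ, ∑ l ∈ Finset.range L, f l =
      ∑ l ∈ Finset.range (q + 1), f l + ∑ l ∈ Finset.Ico (q + 1) L, f l := fun f =>
    (Finset.sum_range_add_sum_Ico f hqL).symm
  have hIco : ∑ l ∈ Finset.Ico (q + 1) L, fillOf S μ p n l = ∑ l ∈ Finset.Ico (q + 1) L, D l := by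
    refine Finset.sum_congr rfl fun l hl => ?_
    rw [Finset.mem_Ico] at hl
    exact hR.full l (by omega) hl.2
  rw [hsplit, hsplit D, hIco] at htot
  obtain ⟨Z, hZl, hZA, hZ⟩ := ShghN.close (N := T3.card) hμ0 hμ0m hq
    (fun l hl => hmild l (by omega)) h20 hconc (hR.le q le_rfl) hR.steep
    (fun l hl => hR.supp l (by omega)) (by omega)
  let e : T3 ≃ Fin Z.length := T3.equivFin.trans (finCongr hZl.symm)
  let p' : Fin s → ℕ := fun i => if h : i ∈ T3 then (Z[(e ⟨i, h⟩).1]).1 else p i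
  let n' : Fin s → ℕ := fun i => if h : i ∈ T3 then (Z[(e ⟨i, h⟩).1]).2 else n i
  have hp' : ∀ i (h : i ∈ T3), p' i = (Z[(e ⟨i, h⟩).1]).1 := fun i h => dif_pos h
  have hn' : ∀ i (h : i ∈ T3), n' i = (Z[(e ⟨i, h⟩).1]).2 := fun i h => dif_pos h
  have hp0 : ∀ i, i ∉ T3 → p' i = p i := fun i h => dif_neg h
  have hn0 : ∀ i, i ∉ T3 → n' i = n i := fun i h => dif_neg h
  have hSn : ∀ i ∈ S, i ∉ T3 := fun i hi h => Finset.disjoint_left.1 hd hi h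
  refine ⟨p', n', ?_, ?_⟩
  · intro i hi
    rcases Finset.mem_union.1 hi with h | h
    · rw [hp0 i (hSn i h), hn0 i (hSn i h)]
      exact hA i h
    · rw [hp' i h, hn' i h, hT3 i h]
      exact Fill3_adm (hZA _ (List.getElem_mem _)) hqL
  · intro l hl
    have h1 : fillOf (S ∪ T3) μ p' n' l = fillOf S μ p n l +
        (Z.map fun z => pat μ0 z.1 z.2 l).sum := by
      unfold fillOf
      rw [Finset.sum_union hd]
      congr 1
      · refine Finset.sum_congr rfl fun i hi => ?_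
        rw [hp0 i (hSn i hi), hn0 i (hSn i hi)]
      · rw [← Finset.sum_coe_sort T3, ← Fin.sum_univ_fun_getElem Z fun z => pat μ0 z.1 z.2 l]
        refine Fintype.sum_equiv e _ _ fun i => ?_
        rw [hp' i i.2, hn' i i.2, hT3 i i.2]
    rw [h1]
    by_cases hlq : l ≤ q
    · exact hZ l hlq
    · rw [hR.full l (by omega) hl]
      have h2 : (Z.map fun z => pat μ0 z.1 z.2 l).sum = 0 := by
        apply List.sum_eq_zero
        intro x hx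
        obtain ⟨z, hz, rfl⟩ := List.mem_map.1 hx
        exact Fill3_zero (hZA z hz) (by omega) (by omega)
      rw [h2, add_zero]

/-- As `ShghQG.fill` with `T1 = ∅`: `ShghQG.fill12` with `T1 = ∅` and then `fill3`. -/
theorem fill {s : ℕ} (μ : Fin s → ℕ) {m μ0 L Dm : ℕ} {D : ℕ → ℕ} (T2 T3 : Finset (Fin s))
    (h23 : Disjoint T2 T3) (hμ0 : 1 ≤ μ0) (hμ0m : μ0 ≤ m)
    (hT2 : ∀ i ∈ T2, 1 ≤ μ i ∧ μ i ≤ m) (hT3 : ∀ i ∈ T3, μ i = μ0) (hmL : m ≤ L)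
    (hDm : ∀ l, l < L → D l ≤ Dm)
    (hmild : ∀ l, l < L → 8 * m ^ 2 + m * (D l - D (l - 1)) ≤ D l)
    (h20 : ∀ l, l ≤ 2 * m → 20 * m ^ 2 + m * (D l - D (l - 1)) ≤ D l)
    (hconc : WConc m D)
    (ha2 : ∑ i ∈ T2, tri (μ i) + (2 * m + 3) * Dm ≤ ∑ l ∈ Finset.range L, D l)
    (htot : ∑ i ∈ T2 ∪ T3, tri (μ i) = ∑ l ∈ Finset.range L, D l) :
    ∃ p n : Fin s → ℕ, (∀ i ∈ T2 ∪ T3, Adm L (μ i) (p i) (n i)) ∧
      ∀ l, l < L → ∑ i ∈ T2 ∪ T3, pat (μ i) (p i) (n i) l = D l := by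
  have hm1 : 1 ≤ m := hμ0.trans hμ0m
  have h8 : ∀ l, l < L → 8 * m ^ 2 ≤ D l := by
    intro l hl
    have h1 := hmild l hl
    omega
  have hmild0 : ∀ l, l < L → Mild μ0 D l := by
    intro l hl
    have h1 := hmild l hl
    have h2 : μ0 * μ0 ≤ m * m := Nat.mul_le_mul hμ0m hμ0m
    have h3 : m * m ≤ 8 * m ^ 2 := by nlinarith
    have h4 : μ0 * (D l - D (l - 1)) ≤ m * (D l - D (l - 1)) := Nat.mul_le_mul_right _ hμ0m
    unfold Mild
    omega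
  obtain ⟨p, n, q, hA, hq, -, hR⟩ := ShghQG.fill12 μ ∅ T2 (Finset.disjoint_empty_left _) hμ0 hμ0m
    (fun i hi => absurd hi (Finset.notMem_empty i)) hT2 (by omega) hmL hDm hmild0
    (fun l hl _ => hmild l hl) (fun l hl _ => h8 l (by omega)) (fun q F hR _ => h8 q hR.q_lt)
    (by rw [Finset.empty_union]; exact ha2)
  rw [Finset.empty_union] at hA hR
  exact ShghN.fill3 μ T2 T3 h23 hμ0 hμ0m hT3 (fun i hi => (hT2 i hi).2) hmL hmild h20 hconc p n q hA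
    hq hR htot

end ShghN
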