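import Pool.Agent.ShghN.NineN
import Pool.Agent.ShghN.ClusterN
import Pool.Agent.ShghQG.Sub

/-!
# At least four large points among the nine
-/

namespace ShghN

open ShghQ ShghT

/-- The arithmetic of the cluster multiplicity: `k = 50 m² / (μ0 (μ0 + 1)) + 1`, `M' = k μ0 (μ0 + 1)`,
`n = k (M' + 1)`. -/
theorem cluster_mult (m μ0 : ℕ) (hμ0 : 1 ≤ μ0) (hm : μ0 ≤ m) :
    ∃ M' n, 50 * m ^ 2 ≤ M' ∧ M' ≤ 52 * m ^ 2 ∧ n * tri μ0 = tri M' := by
  set a := μ0 * (μ0 + 1) with ha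
  have ha0 : 0 < a := by positivity
  have ham : a ≤ 2 * m ^ 2 := by
    calc a ≤ m * (m + 1) := Nat.mul_le_mul hm (by omega)
      _ ≤ 2 * m ^ 2 := by nlinarith
  set q := 50 * m ^ 2 / a with hq
  have h1 := Nat.div_add_mod (50 * m ^ 2) a
  rw [← hq] at h1
  have h2 : 50 * m ^ 2 % a < a := Nat.mod_lt _ ha0
  have h3 : (q + 1) * a = a * q + a := by ring
  refine ⟨(q + 1) * a, (q + 1) * ((q + 1) * a + 1), by omega, by omega, ?_⟩
  have h4 := two_mul_tri μ0
  have h5 := two_mul_tri ((q + 1) * a)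
  have h6 : 2 * ((q + 1) * ((q + 1) * a + 1) * tri μ0) = 2 * tri ((q + 1) * a) := by
    calc 2 * ((q + 1) * ((q + 1) * a + 1) * tri μ0)
        = (q + 1) * ((q + 1) * a + 1) * (2 * tri μ0) := by ring
      _ = (q + 1) * ((q + 1) * a + 1) * a := by rw [h4]
      _ = 2 * tri ((q + 1) * a) := by rw [h5]; ring
  omega

/-- The new multiplicities. -/
def LargeN_M9 (m : ℕ) (N : Fin 9 → ℕ) (M' : ℕ) (l : Fin 9) : ℕ :=
  if 52 * m ^ 2 ≤ N l then N l else M'

theorem LargeN_four {m : ℕ} {N : Fin 9 → ℕ} (hanti : Antitone N) (h4 : 52 * m ^ 2 ≤ N 3)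
    {l : Fin 9} (hl : ¬ 52 * m ^ 2 ≤ N l) : 4 ≤ l := by
  by_contra h
  apply hl
  refine h4.trans (hanti ?_)
  rw [not_le, Fin.lt_def] at h
  rw [Fin.le_def]
  change l.val ≤ 3
  change l.val < 4 at h
  omega

theorem LargeN_sum_four (X : ℕ) : ∑ l : Fin 9, (if 4 ≤ l then X else 0) = 5 * X := by
  rw [← Finset.sum_filter, Finset.sum_const]
  have h : (Finset.univ.filter fun l : Fin 9 => 4 ≤ l).card = 5 := by decide
  rw [h, smul_eq_mul]

theorem LargeN_std {δ m M' : ℕ} {N : Fin 9 → ℕ} (hanti : Antitone N) (h4 : 52 * m ^ 2 ≤ N 3)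
    (hstd : N 0 + N 1 + N 2 ≤ δ) (h2 : ∑ l, N l + 600 * m ^ 2 ≤ 3 * δ)
    (hM' : M' ≤ 52 * m ^ 2) :
    ∃ e, Std δ (LargeN_M9 m N M') e ∧ 3 * δ ≤ ∑ l, N l + 260 * m ^ 2 + e := by
  have hle : ∑ l, LargeN_M9 m N M' l ≤ ∑ l, N l + 260 * m ^ 2 := by
    have h5 : ∀ l, LargeN_M9 m N M' l ≤ N l + (if 4 ≤ l then 52 * m ^ 2 else 0) := by
      intro l
      unfold LargeN_M9
      by_cases h : 52 * m ^ 2 ≤ N l
      · rw [if_pos h]
        exact Nat.le_add_right _ _
      · rw [if_neg h, if_pos (LargeN_four hanti h4 h)]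
        omega
    calc ∑ l, LargeN_M9 m N M' l ≤ ∑ l, (N l + (if 4 ≤ l then 52 * m ^ 2 else 0)) :=
          Finset.sum_le_sum fun l _ => h5 l
      _ = ∑ l, N l + 260 * m ^ 2 := by
        rw [Finset.sum_add_distrib, LargeN_sum_four]
        ring
  have h012 : ∀ l : Fin 9, l ≤ 3 → LargeN_M9 m N M' l = N l := by
    intro l hl
    unfold LargeN_M9
    rw [if_pos (h4.trans (hanti hl))]
  refine ⟨3 * δ - ∑ l, LargeN_M9 m N M' l, ⟨?_, ?_, ?_⟩, ?_⟩
  · intro l l' hll'
    unfold LargeN_M9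
    have h6 := hanti hll'
    split_ifs <;> omega
  · rw [h012 0 (by decide), h012 1 (by decide), h012 2 (by decide)]
    exact hstd
  · omega
  · omega

theorem LargeN_tri {m M' : ℕ} {N : Fin 9 → ℕ} (hanti : Antitone N) (h4 : 52 * m ^ 2 ≤ N 3) :
    ∑ l, tri (N l) ≤ ∑ l, tri (LargeN_M9 m N M' l) + 5 * tri (52 * m ^ 2) := by
  have h5 : ∀ l, tri (N l) ≤ tri (LargeN_M9 m N M' l) +
      (if 4 ≤ l then tri (52 * m ^ 2) else 0) := by
    intro l
    unfold LargeN_M9
    by_cases h : 52 * m ^ 2 ≤ N l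
    · rw [if_pos h]
      exact Nat.le_add_right _ _
    · rw [if_neg h, if_pos (LargeN_four hanti h4 h)]
      have h6 : tri (N l) ≤ tri (52 * m ^ 2) := tri_mono (by omega)
      omega
  calc ∑ l, tri (N l) ≤ ∑ l, (tri (LargeN_M9 m N M' l) +
      (if 4 ≤ l then tri (52 * m ^ 2) else 0)) := Finset.sum_le_sum fun l _ => h5 l
    _ = _ := by rw [Finset.sum_add_distrib, LargeN_sum_four]

theorem LargeN_Jt {δ m M' : ℕ} {N : Fin 9 → ℕ} (h0 : 52 * m ^ 2 ≤ N 0) :
    Jt δ (LargeN_M9 m N M') = min (δ / 3) ((δ - N 0) / 2) := by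
  unfold Jt LargeN_M9
  rw [if_pos h0]

/-- The arithmetic of the class of `μ0`. -/
theorem LargeN_arith {m κ κ' E Dd e J A T S : ℕ} (hκ1 : 1 ≤ κ') (hκ : κ' ≤ κ) (hκm : κ' ≤ m)
    (hT : 2 * T = 52 * m ^ 2 * (52 * m ^ 2 + 1)) (hE : 600 * m ^ 2 ≤ E)
    (hEe : E ≤ 260 * m ^ 2 + e) (hJ : Dd ≤ 3 * (J + 1))
    (h3 : 350000 * κ * m ^ 4 ≤ E * Dd) (hS : e * (J + 1) ≤ 2 * S) (hA : S ≤ A + 5 * T) :
    κ' * (5 * T + 10 * m * (J + 1)) ≤ A := by
  have hm : 1 ≤ m := hκ1.trans hκm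
  have hEe2 : E ≤ 2 * e := by omega
  have hT2 : T ≤ 1378 * m ^ 4 := by
    have h5 : 52 * m ^ 2 * (52 * m ^ 2 + 1) ≤ 2756 * m ^ 4 := by
      have h6 : 52 * m ^ 2 + 1 ≤ 53 * m ^ 2 := by nlinarith
      calc 52 * m ^ 2 * (52 * m ^ 2 + 1) ≤ 52 * m ^ 2 * (53 * m ^ 2) :=
            Nat.mul_le_mul_left _ h6
        _ = 2756 * m ^ 4 := by ring
    omega
  have hY1 : E * (J + 1) ≤ 4 * A + 20 * T := by
    calc E * (J + 1) ≤ 2 * e * (J + 1) := Nat.mul_le_mul_right _ hEe2
      _ = 2 * (e * (J + 1)) := by ring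
      _ ≤ 4 * A + 20 * T := by omega
  have hY2 : 600 * (m ^ 2 * (J + 1)) ≤ E * (J + 1) := by
    calc 600 * (m ^ 2 * (J + 1)) = 600 * m ^ 2 * (J + 1) := by ring
      _ ≤ E * (J + 1) := Nat.mul_le_mul_right _ hE
  have hY3 : 350000 * (κ' * m ^ 4) ≤ 3 * (E * (J + 1)) := by
    calc 350000 * (κ' * m ^ 4) ≤ 350000 * (κ * m ^ 4) :=
          Nat.mul_le_mul_left _ (Nat.mul_le_mul_right _ hκ)
      _ = 350000 * κ * m ^ 4 := by ring
      _ ≤ E * Dd := h3
      _ ≤ E * (3 * (J + 1)) := Nat.mul_le_mul_left _ hJ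
      _ = 3 * (E * (J + 1)) := by ring
  have h7 : κ' * m * (J + 1) ≤ m ^ 2 * (J + 1) := by
    refine Nat.mul_le_mul_right _ ?_
    rw [pow_two]
    exact Nat.mul_le_mul_right _ hκm
  have h8 : κ' * T ≤ 1378 * (κ' * m ^ 4) := by
    calc κ' * T ≤ κ' * (1378 * m ^ 4) := Nat.mul_le_mul_left _ hT2
      _ = 1378 * (κ' * m ^ 4) := by ring
  have h9 : T ≤ κ' * T := Nat.le_mul_of_pos_left _ hκ1
  have h10 : κ' * (5 * T + 10 * m * (J + 1)) = 5 * (κ' * T) + 10 * (κ' * m * (J + 1)) := by ring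
  rw [h10]
  omega

theorem LargeN_aux {F : Type*} [Field F] {s : ℕ} (δ : ℕ) (μ : Fin s → ℕ) (c : Fin 9 → Fin s)
    (hc : Function.Injective c) (m κ : ℕ) (hm : 1 ≤ m) (hκ1 : 1 ≤ κ) (N : Fin 9 → ℕ)
    (hNl : ∀ l, μ (c l) = N l)
    (hanti : Antitone N) (hstd : N 0 + N 1 + N 2 ≤ δ)
    (hU : ∀ i, i ∉ Set.range c → μ i ≤ m)
    (hκ : (((Finset.univ \ Finset.univ.image c).image μ).erase 0).card ≤ κ)
    (h4 : 52 * m ^ 2 ≤ N 3) (h1 : N 0 + 3000 * m ^ 2 ≤ δ)
    (h2 : ∑ l, N l + 600 * m ^ 2 ≤ 3 * δ)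
    (h3 : 350000 * κ * m ^ 4 ≤ (3 * δ - ∑ l, N l) * (δ - N 0))
    (hcov : tri (δ + 1) ≤ ∑ i, tri (μ i)) : Emp F δ μ := by
  classical
  -- the bound of the number of values
  obtain ⟨κ', hκ'1, hκ'κ, hκ'm, hκ'⟩ : ∃ κ', 1 ≤ κ' ∧ κ' ≤ κ ∧ κ' ≤ m ∧
      (((Finset.univ \ Finset.univ.image c).image μ).erase 0).card ≤ κ' := by
    have h5 := ShghQG.card_values_le μ m (Finset.univ \ Finset.univ.image c) (by
      intro i hi
      apply hU
      rintro ⟨l, rfl⟩
      exact (Finset.mem_sdiff.1 hi).2 (Finset.mem_image_of_mem _ (Finset.mem_univ l)))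
    exact ⟨min κ m, le_min hκ1 hm, min_le_left _ _, min_le_right _ _, le_min hκ h5⟩
  have h40 : 52 * m ^ 2 ≤ N 0 := h4.trans (hanti (by decide))
  set U : Finset (Fin s) := Finset.univ \ Finset.univ.image c with hUdef
  have hUm : ∀ i ∈ U, μ i ≤ m := by
    intro i hi
    apply hU
    rintro ⟨l, rfl⟩
    exact (Finset.mem_sdiff.1 hi).2 (Finset.mem_image_of_mem _ (Finset.mem_univ l))
  have hsumU : ∑ i, tri (μ i) = ∑ i ∈ U, tri (μ i) + ∑ l, tri (N l) := by
    rw [← Finset.sum_sdiff (Finset.subset_univ (Finset.univ.image c)),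
      Finset.sum_image (fun a _ b _ hab => hc hab),
      Finset.sum_congr rfl fun l (_ : l ∈ Finset.univ) => by rw [hNl l]]
  -- the area
  set J := min (δ / 3) ((δ - N 0) / 2) with hJdef
  have hJt : ∀ M', Jt δ (LargeN_M9 m N M') = J := fun M' => LargeN_Jt h40
  have hJ1 : 1000 * m ^ 2 ≤ J := by
    rw [hJdef, le_min_iff]
    constructor <;> omega
  have hJ3 : δ - N 0 ≤ 3 * (J + 1) := by
    rw [hJdef]
    rcases min_cases (δ / 3) ((δ - N 0) / 2) with ⟨h5, -⟩ | ⟨h5, -⟩ <;> rw [h5] <;> omega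
  set A := tri (δ + 1) - ∑ l, tri (N l) with hA
  have hAlow : κ' * (5 * tri (52 * m ^ 2) + 10 * m * (J + 1)) ≤ A := by
    obtain ⟨e, he1, he2⟩ := LargeN_std (M' := 52 * m ^ 2) hanti h4 hstd h2 le_rfl
    have h5 : 1 ≤ m ^ 2 := Nat.one_le_pow _ _ hm
    have he0 : 0 < e := by omega
    have h6 := sum_DN he1 he0
    have h7 := area_DN he1 he0
    rw [hJt] at h7
    have h8 := LargeN_tri (M' := 52 * m ^ 2) hanti h4
    have h9 : ∑ l, (LargeN_M9 m N (52 * m ^ 2) l + 1).choose 2 =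
        ∑ l, tri (LargeN_M9 m N (52 * m ^ 2) l) := rfl
    have h10 : tri (δ + 1) = (δ + 2).choose 2 := rfl
    rw [h9, ← h10] at h6
    exact LargeN_arith (S := ∑ l ∈ Finset.range e, DN δ (LargeN_M9 m N (52 * m ^ 2)) e l)
      (E := 3 * δ - ∑ l, N l) (e := e) hκ'1 hκ'κ hκ'm (two_mul_tri _)
      (by omega) (by omega) hJ3 h3 h7 (by omega)
  have hA1 : 1 ≤ A := by
    refine le_trans ?_ hAlow
    have h5 : 1 ≤ 10 * m * (J + 1) := Nat.one_le_iff_ne_zero.2 (by positivity)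
    calc 1 ≤ 1 * (5 * tri (52 * m ^ 2) + 10 * m * (J + 1)) := by omega
      _ ≤ _ := Nat.mul_le_mul_right _ hκ'1
  obtain ⟨μ0, hμ0, hμ0m, hpig⟩ := pigeon μ m κ' A U hA1 hUm hκ' (by omega)
  set Cl : Finset (Fin s) := U.filter fun i => μ i = μ0 with hCl
  have hcl : 5 * tri (52 * m ^ 2) + 10 * m * (J + 1) ≤ Cl.card * tri μ0 :=
    Nat.le_of_mul_le_mul_left (hAlow.trans hpig) hκ'1
  obtain ⟨M', n, hM1, hM2, hM3⟩ := cluster_mult m μ0 hμ0 hμ0m
  -- the medium points
  let B : Type := {l : Fin 9 // ¬ 52 * m ^ 2 ≤ N l}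
  have hBcard : Fintype.card B ≤ 5 := by
    have h5 : Fintype.card B ≤ Fintype.card {l : Fin 9 // 4 ≤ l} :=
      Fintype.card_subtype_mono _ _ (fun l hl => LargeN_four hanti h4 hl)
    have h6 : Fintype.card {l : Fin 9 // 4 ≤ l} = 5 := by decide
    omega
  have htri0 : 1 ≤ tri μ0 := by
    have h5 := tri_mono hμ0
    have h6 : tri 1 = 1 := rfl
    omega
  have hBn : Fintype.card B * n * tri μ0 ≤ 5 * tri (52 * m ^ 2) := by
    calc Fintype.card B * n * tri μ0 = Fintype.card B * (n * tri μ0) := by ring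
      _ ≤ 5 * tri (52 * m ^ 2) := by
        rw [hM3]
        exact Nat.mul_le_mul hBcard (tri_mono hM2)
  have hcard : Fintype.card (B × Fin n) ≤ Fintype.card Cl := by
    rw [Fintype.card_prod, Fintype.card_fin, Fintype.card_coe]
    refine Nat.le_of_mul_le_mul_right (hBn.trans ?_) htri0
    omega
  obtain ⟨Z0⟩ : Nonempty (B × Fin n ↪ Cl) := Function.Embedding.nonempty_of_card_le hcard
  let Z : B × Fin n → Fin s := fun x => (Z0 x : Fin s)
  have hZinj : Function.Injective Z := fun x y h => Z0.injective (Subtype.ext h)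
  have hZC : ∀ x, Z x ∈ Cl := fun x => (Z0 x).2
  have hZμ : ∀ x, μ (Z x) = μ0 := fun x => (Finset.mem_filter.1 (hZC x)).2
  have hZc : ∀ x l, Z x ≠ c l := by
    intro x l h
    have h5 := (Finset.mem_filter.1 (hZC x)).1
    rw [hUdef, Finset.mem_sdiff] at h5
    exact h5.2 (Finset.mem_image.2 ⟨l, Finset.mem_univ l, h.symm⟩)
  let g : Fin s → Option B := fun i => if h : ∃ x, Z x = i then some h.choose.1 else none
  have hgZ : ∀ x, g (Z x) = some x.1 := by
    intro x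
    have h : ∃ y, Z y = Z x := ⟨x, rfl⟩
    have h5 : g (Z x) = some h.choose.1 := dif_pos h
    rw [h5, hZinj h.choose_spec]
  have hgn : ∀ i, g i = none ↔ ∀ x, Z x ≠ i := by
    intro i
    constructor
    · intro h x hx
      rw [← hx, hgZ] at h
      exact Option.some_ne_none _ h
    · intro h
      exact dif_neg fun ⟨x, hx⟩ => h x hx
  have hgc : ∀ l, g (c l) = none := fun l => (hgn _).2 fun x => hZc x l
  refine clusters δ μ g (fun _ => M') ?_ ?_
  · -- the nine large points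
    let ι' : Type := {i : Fin s // g i = none ∧ ∀ l, 52 * m ^ 2 ≤ N l → i ≠ c l}
    obtain ⟨e, he1, he2⟩ := LargeN_std (M' := M') hanti h4 hstd h2 hM2
    have hm2 : m ≤ m ^ 2 := by nlinarith
    have hm1 : 1 ≤ m ^ 2 := Nat.one_le_pow _ _ hm
    have hemp : Emp F δ (Sum.elim (LargeN_M9 m N M') (fun i : ι' => μ i.1) : Fin 9 ⊕ ι' → ℕ) := by
      refine emp_nine (fun i : ι' => μ i.1) m μ0 (52 * m ^ 2) he1
        (Finset.univ.filter fun i : ι' => ∃ l, c l = i.1)
        (Finset.univ.filter fun i : ι' => ¬ ∃ l, c l = i.1) hm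
        (Finset.disjoint_filter_filter_not _ _ _) ?_ ?_ ?_ ?_ ?_ hμ0 hμ0m ?_ ?_
      · intro i hi
        exact hU _ (Finset.mem_filter.1 hi).2
      · intro i hi
        obtain ⟨l, hl⟩ := (Finset.mem_filter.1 hi).2
        by_contra h5
        rw [← hl, not_le, hNl] at h5
        exact i.2.2 l h5.le hl.symm
      · unfold LargeN_M9
        split_ifs <;> omega
      · rw [hJt]
        have h5 : (Finset.univ.filter fun i : ι' => ∃ l, c l = i.1).card ≤ 5 := by
          have h6 : (Finset.univ.filter fun i : ι' => ∃ l, c l = i.1).card ≤ Fintype.card B := by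
            rw [← Finset.card_univ]
            have h7 : (Finset.univ.filter fun i : ι' => ∃ l, c l = i.1).map
                (Function.Embedding.subtype _) ⊆ Finset.univ.image (fun b : B => c b.1) := by
              intro i hi
              obtain ⟨j, hj, rfl⟩ := Finset.mem_map.1 hi
              obtain ⟨l, hl⟩ := (Finset.mem_filter.1 hj).2
              exact Finset.mem_image.2 ⟨⟨l, fun h => j.2.2 l h hl.symm⟩, Finset.mem_univ _, hl⟩
            have h8 := (Finset.card_le_card h7).trans Finset.card_image_le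
            rwa [Finset.card_map] at h8
          omega
        have h6 : ∑ i ∈ Finset.univ.filter (fun i : ι' => ∃ l, c l = i.1), (μ i.1 + m) ≤
            5 * (53 * m ^ 2) := by
          refine (Finset.sum_le_card_nsmul _ _ (53 * m ^ 2) ?_).trans ?_
          · intro i hi
            obtain ⟨l, hl⟩ := (Finset.mem_filter.1 hi).2
            have h7 : μ i.1 ≤ 52 * m ^ 2 := by
              by_contra h5
              rw [← hl, not_le, hNl] at h5
              exact i.2.2 l h5.le hl.symm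
            omega
          · rw [smul_eq_mul]
            exact Nat.mul_le_mul_right _ h5
        omega
      · omega
      · rw [hJt]
        have h5 : Cl \ Finset.univ.image Z ⊆
            ((Finset.univ.filter fun i : ι' => ¬ ∃ l, c l = i.1).filter
              fun i : ι' => μ i.1 = μ0).map (Function.Embedding.subtype _) := by
          intro i hi
          obtain ⟨hi1, hi2⟩ := Finset.mem_sdiff.1 hi
          obtain ⟨hi3, hi4⟩ := Finset.mem_filter.1 hi1
          have hi5 : ¬ ∃ l, c l = i := by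
            rintro ⟨l, hl⟩
            rw [hUdef, Finset.mem_sdiff] at hi3
            exact hi3.2 (Finset.mem_image.2 ⟨l, Finset.mem_univ l, hl⟩)
          have hi6 : g i = none := (hgn i).2 fun x hx =>
            hi2 (Finset.mem_image.2 ⟨x, Finset.mem_univ x, hx⟩)
          refine Finset.mem_map.2 ⟨⟨i, hi6, fun l _ h => hi5 ⟨l, h.symm⟩⟩, ?_, rfl⟩
          exact Finset.mem_filter.2 ⟨Finset.mem_filter.2 ⟨Finset.mem_univ _, hi5⟩, hi4⟩
        have h6 := Finset.card_le_card h5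
        rw [Finset.card_map] at h6
        have h7 : Cl.card - Fintype.card B * n ≤ (Cl \ Finset.univ.image Z).card := by
          have h8 := Finset.le_card_sdiff (Finset.univ.image Z) Cl
          rw [Finset.card_image_of_injective _ hZinj, Finset.card_univ, Fintype.card_prod,
            Fintype.card_fin] at h8
          exact h8
        calc 10 * m * (J + 1) ≤ Cl.card * tri μ0 - Fintype.card B * n * tri μ0 := by omega
          _ = (Cl.card - Fintype.card B * n) * tri μ0 := (Nat.sub_mul _ _ _).symm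
          _ ≤ _ := Nat.mul_le_mul_right _ (h7.trans h6)
      · rw [Finset.filter_union_filter_not_eq]
        refine hcov.trans ?_
        set V : Finset (Fin s) := Finset.univ.filter fun i =>
          g i = none ∧ ∀ l, 52 * m ^ 2 ≤ N l → i ≠ c l with hV
        have h5 : ∑ i : ι', tri (μ i.1) = ∑ i ∈ V, tri (μ i) := by
          exact (Finset.sum_subtype V (fun x => by simp [hV]) (fun i => tri (μ i))).symm
        rw [h5, ← Finset.sum_filter_add_sum_filter_not Finset.univ (fun i =>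
          g i = none ∧ ∀ l, 52 * m ^ 2 ≤ N l → i ≠ c l) (fun i => tri (μ i)), ← hV]
        have h6 : (Finset.univ.filter fun i =>
            ¬ (g i = none ∧ ∀ l, 52 * m ^ 2 ≤ N l → i ≠ c l)) ⊆
            (Finset.univ.filter fun l => 52 * m ^ 2 ≤ N l).image c ∪ Finset.univ.image Z := by
          intro i hi
          have hi1 := (Finset.mem_filter.1 hi).2
          rw [Finset.mem_union]
          by_cases hi2 : g i = none
          · left
            have hi3 : ¬ ∀ l, 52 * m ^ 2 ≤ N l → i ≠ c l := fun h => hi1 ⟨hi2, h⟩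
            push Not at hi3
            obtain ⟨l, hl1, hl2⟩ := hi3
            exact Finset.mem_image.2 ⟨l, Finset.mem_filter.2 ⟨Finset.mem_univ l, hl1⟩, hl2.symm⟩
          · right
            rw [hgn] at hi2
            push Not at hi2
            obtain ⟨x, hx⟩ := hi2
            exact Finset.mem_image.2 ⟨x, Finset.mem_univ x, hx⟩
        have h7 := Finset.sum_le_sum_of_subset (f := fun i => tri (μ i)) h6
        have h8 := Finset.sum_union_inter (f := fun i => tri (μ i))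
          (s₁ := (Finset.univ.filter fun l => 52 * m ^ 2 ≤ N l).image c)
          (s₂ := Finset.univ.image Z)
        have h9 : ∑ i ∈ (Finset.univ.filter fun l => 52 * m ^ 2 ≤ N l).image c, tri (μ i) =
            ∑ l ∈ Finset.univ.filter (fun l => 52 * m ^ 2 ≤ N l), tri (N l) := by
          rw [Finset.sum_image (fun a _ b _ hab => hc hab)]
          exact Finset.sum_congr rfl fun l _ => by rw [hNl l]
        have h10 : ∑ i ∈ Finset.univ.image Z, tri (μ i) = Fintype.card B * tri M' := by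
          rw [Finset.sum_image (fun a _ b _ hab => hZinj hab),
            Finset.sum_congr rfl fun x _ => by rw [hZμ x], Finset.sum_const, Finset.card_univ,
            Fintype.card_prod, Fintype.card_fin, smul_eq_mul, mul_assoc, hM3]
        have h11 : ∑ l, tri (LargeN_M9 m N M' l) =
            ∑ l ∈ Finset.univ.filter (fun l => 52 * m ^ 2 ≤ N l), tri (N l) +
              Fintype.card B * tri M' := by
          rw [← Finset.sum_filter_add_sum_filter_not Finset.univ (fun l => 52 * m ^ 2 ≤ N l)]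
          congr 1
          · refine Finset.sum_congr rfl fun l hl => ?_
            rw [LargeN_M9, if_pos (Finset.mem_filter.1 hl).2]
          · rw [Finset.sum_congr rfl fun l hl => by
              rw [LargeN_M9, if_neg (Finset.mem_filter.1 hl).2], Finset.sum_const, smul_eq_mul,
              Fintype.card_subtype]
        omega
    let φ : Fin 9 ⊕ ι' → B ⊕ {i // g i = none} := Sum.elim
      (fun l => if h : 52 * m ^ 2 ≤ N l then Sum.inr ⟨c l, hgc l⟩ else Sum.inl ⟨l, h⟩)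
      (fun i => Sum.inr ⟨i.1, i.2.1⟩)
    have hφ1 : ∀ l, 52 * m ^ 2 ≤ N l → φ (Sum.inl l) = Sum.inr ⟨c l, hgc l⟩ := fun l h =>
      dif_pos h
    have hφ2 : ∀ l (h : ¬ 52 * m ^ 2 ≤ N l), φ (Sum.inl l) = Sum.inl ⟨l, h⟩ := fun l h =>
      dif_neg h
    have hφ3 : ∀ i : ι', φ (Sum.inr i) = Sum.inr ⟨i.1, i.2.1⟩ := fun i => rfl
    refine emp_of_inj φ ?_ ?_ hemp
    · rintro (l | i) (l' | i') h
      · by_cases hl : 52 * m ^ 2 ≤ N l
        · by_cases hl' : 52 * m ^ 2 ≤ N l'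
          · rw [hφ1 l hl, hφ1 l' hl'] at h
            exact congrArg Sum.inl (hc (congrArg Subtype.val (Sum.inr.inj h)))
          · rw [hφ1 l hl, hφ2 l' hl'] at h
            exact absurd h (by simp)
        · by_cases hl' : 52 * m ^ 2 ≤ N l'
          · rw [hφ2 l hl, hφ1 l' hl'] at h
            exact absurd h (by simp)
          · rw [hφ2 l hl, hφ2 l' hl'] at h
            exact congrArg Sum.inl (congrArg Subtype.val (Sum.inl.inj h))
      · by_cases hl : 52 * m ^ 2 ≤ N l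
        · rw [hφ1 l hl, hφ3] at h
          exact absurd (congrArg Subtype.val (Sum.inr.inj h)).symm (i'.2.2 l hl)
        · rw [hφ2 l hl, hφ3] at h
          exact absurd h (by simp)
      · by_cases hl : 52 * m ^ 2 ≤ N l'
        · rw [hφ1 l' hl, hφ3] at h
          exact absurd (congrArg Subtype.val (Sum.inr.inj h)) (i.2.2 l' hl)
        · rw [hφ2 l' hl, hφ3] at h
          exact absurd h (by simp)
      · rw [hφ3, hφ3] at h
        have h6 : (⟨i.1, i.2.1⟩ : {i // g i = none}) = ⟨i'.1, i'.2.1⟩ := Sum.inr.inj h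
        have h5 := congrArg (fun x : {i // g i = none} => (x.1 : Fin s)) h6
        exact congrArg Sum.inr (Subtype.ext h5)
    · rintro (l | i)
      · by_cases hl : 52 * m ^ 2 ≤ N l
        · rw [hφ1 l hl]
          change LargeN_M9 m N M' l ≤ μ (c l)
          rw [LargeN_M9, if_pos hl, hNl]
        · rw [hφ2 l hl]
          change LargeN_M9 m N M' l ≤ M'
          rw [LargeN_M9, if_neg hl]
      · exact le_rfl
  · -- the clusters
    intro a
    have h5 : 50 * μ0 ^ 2 ≤ M' :=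
      (Nat.mul_le_mul_left _ (Nat.pow_le_pow_left hμ0m 2)).trans hM1
    refine emp_of_inj (fun k : Fin n => (⟨Z (a, k), hgZ (a, k)⟩ : {i // g i = some a})) ?_ ?_
      (emp_hom μ0 M' n hμ0 h5 hM3.ge)
    · intro k k' h
      have h7 : (⟨Z (a, k), hgZ (a, k)⟩ : {i // g i = some a}) = ⟨Z (a, k'), hgZ (a, k')⟩ := h
      have h6 := congrArg (fun x : {i // g i = some a} => (x.1 : Fin s)) h7
      exact congrArg Prod.snd (hZinj h6)
    · intro k
      exact (hZμ (a, k)).ge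

/-- `L = {l | 52 m² ≤ μ (c l)}` contains `0, 1, 2, 3`, the other indices of `Fin 9` (at most five) are called medium.
`A = tri (δ + 1) - Σ_{l} tri (μ (c l))`; with `M' = M 9`-values as below, `A ≥ Σ DN - 5 tri (52 m²)`.
(1) The class `M9 l = μ (c l)` for `l ∈ L`, `M'` otherwise, is standard with
`e' = 3 δ - Σ M9 ≥ 3 δ - Σ μ (c l) - 5 · 52 m² ≥ (3 δ - Σ μ (c l)) / 2`, as `600 m² ≤ 3 δ - Σ μ (c l)`; it is antitone since
`M' ≤ 52 m² ≤ μ (c l)` for `l ∈ L` and `L` is an initial segment. `Jt δ M9 = Jt δ (μ ∘ c)` depends on `δ` and `μ (c 0)`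
only, `3 (Jt + 1) ≥ δ - μ (c 0)`, and `Jt + 1 ≥ 1000 m²` by `h1`.
(2) `pigeon` on `U = univ \ image c` with `A` gives `μ0` (`A ≥ 1`), and `A ≤ κ |class| tri μ0`. By `sum_DN` and `area_DN` for
`M9` (any admissible `M'`, for example from `cluster_mult` with `μ0`), `2 A ≥ e' (Jt + 1) - 10 tri (52 m²)` and so
`|class| tri μ0 ≥ 5 tri (52 m²) + 10 m (Jt + 1)`: `e' (Jt + 1) ≥ (3 δ - Σ)(δ - μ (c 0)) / 6 ≥ 58000 κ m⁴` by `h3`,
`20 tri (52 m²) ≤ 27560 m⁴`, `e' ≥ 300 m² ≥ 40 κ m` if `κ ≤ m` (replace `κ` by `min κ m`).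
(3) Choose disjoint subsets `Z_l` of the class, `|Z_l| = n` for the medium `l` (`n tri μ0 = tri M' ≤ tri (52 m²)`); the rest of the
class has area `≥ 10 m (Jt + 1)`. `g i = some l` for `i ∈ Z_l`, `none` otherwise.
(4) `clusters` with `A = {l // l ∉ L}`, `M' a = M'`: `h2` is `emp_hom` (`Z_l ≃ Fin n`); `h1` follows by `emp_of_inj` from
`emp_nine` for the index type `{i // g i = none ∧ ∀ l ∈ L, i ≠ c l}`, `I` = the points `c l` with `l` medium, `U` = the
others, `w = 52 m²`: `hJ`: `5 (52 m² + m) + 52 m² + 23 m² ≤ 340 m² ≤ Jt`; `he`: `w + 1 + 22 m ≤ 75 m² + ... ≤ e'`; `hcov` since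
`Σ_{Z} tri = (number of medium) tri M'`. The map `Fin 9 ⊕ {i // ...} → {l // l ∉ L} ⊕ {i // g i = none}` sends `inl l` to
`inr (c l)` for `l ∈ L`, to `inl l` otherwise. -/
theorem emp_large {F : Type*} [Field F] {s : ℕ} (δ : ℕ) (μ : Fin s → ℕ) (c : Fin 9 → Fin s)
    (hc : Function.Injective c) (m κ : ℕ) (hm : 1 ≤ m) (hκ1 : 1 ≤ κ)
    (hanti : Antitone fun l => μ (c l)) (hstd : μ (c 0) + μ (c 1) + μ (c 2) ≤ δ)
    (hU : ∀ i, i ∉ Set.range c → μ i ≤ m)
    (hκ : (((Finset.univ \ Finset.univ.image c).image μ).erase 0).card ≤ κ)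
    (h4 : 52 * m ^ 2 ≤ μ (c 3)) (h1 : μ (c 0) + 3000 * m ^ 2 ≤ δ)
    (h2 : ∑ l, μ (c l) + 600 * m ^ 2 ≤ 3 * δ)
    (h3 : 350000 * κ * m ^ 4 ≤ (3 * δ - ∑ l, μ (c l)) * (δ - μ (c 0)))
    (hcov : tri (δ + 1) ≤ ∑ i, tri (μ i)) : Emp F δ μ :=
  LargeN_aux δ μ c hc m κ hm hκ1 (fun l => μ (c l)) (fun _ => rfl) hanti hstd hU hκ h4 h1 h2 h3 hcov

end ShghN
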