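import Pool.Agent.ShghN.PotZ
import Pool.Agent.ShghN.CoreN
import Pool.Agent.ShghW.LevelB
import Pool.Agent.ShghW.Sym

/-!
# The leading coefficients of one level
-/

namespace ShghN

open ShghQ ShghT

variable {k : Type*} [Field k]

private theorem LevelN_gap_coeff_mul (p q : LaurentPolynomial k) (j : ℤ) :
    (p * q).coeff j = ∑ i ∈ p.coeff.support, p.coeff i * q.coeff (j - i) := by
  classical
  rw [AddMonoidAlgebra.coeff_mul, Finsupp.sum]
  refine Finset.sum_congr rfl fun i _ => ?_
  rw [Finsupp.sum, Finset.sum_eq_single (j - i)]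
  · rw [if_pos (by omega)]
  · intro b _ hb
    rw [if_neg (by omega)]
  · intro h
    rw [Finsupp.notMem_support_iff.mp h, mul_zero, ite_self]

private theorem LevelN_gap_toLaurent_nat (b : Polynomial k) (n : ℕ) :
    (Polynomial.toLaurent b).coeff (n : ℤ) = b.coeff n := by
  induction b using Polynomial.induction_on' with
  | add p q hp hq =>
    rw [map_add, AddMonoidAlgebra.coeff_add, Finsupp.add_apply, hp, hq, Polynomial.coeff_add]
  | monomial m a =>
    rw [← Polynomial.C_mul_X_pow_eq_monomial, Polynomial.toLaurent_C_mul_X_pow,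
      ← LaurentPolynomial.single_eq_C_mul_T, Polynomial.coeff_C_mul_X_pow,
      AddMonoidAlgebra.coeff_single, Finsupp.single_apply]
    by_cases h : m = n
    · subst h
      rw [if_pos rfl, if_pos rfl]
    · rw [if_neg (by omega), if_neg (by omega)]

private theorem LevelN_gap_toLaurent_neg (b : Polynomial k) {j : ℤ} (hj : j < 0) :
    (Polynomial.toLaurent b).coeff j = 0 := by
  induction b using Polynomial.induction_on' with
  | add p q hp hq =>
    rw [map_add, AddMonoidAlgebra.coeff_add, Finsupp.add_apply, hp, hq, add_zero]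
  | monomial m a =>
    rw [← Polynomial.C_mul_X_pow_eq_monomial, Polynomial.toLaurent_C_mul_X_pow,
      ← LaurentPolynomial.single_eq_C_mul_T, AddMonoidAlgebra.coeff_single, Finsupp.single_apply,
      if_neg (by omega)]

private theorem LevelN_gap_toLaurent_big (b : Polynomial k) {j : ℤ} (hj : (b.natDegree : ℤ) < j) :
    (Polynomial.toLaurent b).coeff j = 0 := by
  obtain ⟨n, rfl⟩ := Int.eq_ofNat_of_zero_le (show 0 ≤ j by omega)
  rw [LevelN_gap_toLaurent_nat]
  exact Polynomial.coeff_eq_zero_of_natDegree_lt (by omega)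

/-- If `P b` is supported in `[lo, hi]` then `P` is supported in `[lo, hi - deg b]`. -/
private theorem LevelN_gap_support (P : LaurentPolynomial k) (b : Polynomial k) (hb : b.coeff 0 ≠ 0)
    (lo hi : ℤ) (h : ∀ i, (P * Polynomial.toLaurent b).coeff i ≠ 0 → lo ≤ i ∧ i ≤ hi) (i : ℤ)
    (hi' : P.coeff i ≠ 0) : lo ≤ i ∧ i + b.natDegree ≤ hi := by
  classical
  have hb0 : b ≠ 0 := by
    rintro rfl
    exact hb (Polynomial.coeff_zero 0)
  have hne : P.coeff.support.Nonempty := ⟨i, Finsupp.mem_support_iff.2 hi'⟩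
  constructor
  · set m := P.coeff.support.min' hne with hm
    have hmem : m ∈ P.coeff.support := Finset.min'_mem _ _
    have h1 : (P * Polynomial.toLaurent b).coeff m = P.coeff m * b.coeff 0 := by
      rw [LevelN_gap_coeff_mul, Finset.sum_eq_single m]
      · rw [sub_self, show (0 : ℤ) = ((0 : ℕ) : ℤ) from rfl, LevelN_gap_toLaurent_nat]
      · intro j hj hjm
        have h2 : m ≤ j := Finset.min'_le _ _ hj
        rw [LevelN_gap_toLaurent_neg b (by omega), mul_zero]
      · intro h2
        exact absurd hmem h2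
    have h2 := (h m (by rw [h1]; exact mul_ne_zero (Finsupp.mem_support_iff.1 hmem) hb)).1
    exact h2.trans (Finset.min'_le _ _ (Finsupp.mem_support_iff.2 hi'))
  · set m := P.coeff.support.max' hne with hm
    have hmem : m ∈ P.coeff.support := Finset.max'_mem _ _
    have h1 : (P * Polynomial.toLaurent b).coeff (m + b.natDegree)
        = P.coeff m * b.leadingCoeff := by
      rw [LevelN_gap_coeff_mul, Finset.sum_eq_single m]
      · rw [add_sub_cancel_left, LevelN_gap_toLaurent_nat]
        rfl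
      · intro j hj hjm
        have h2 : j ≤ m := Finset.le_max' _ _ hj
        rw [LevelN_gap_toLaurent_big b (by omega), mul_zero]
      · intro h2
        exact absurd hmem h2
    have h2 := (h (m + b.natDegree) (by
      rw [h1]
      exact mul_ne_zero (Finsupp.mem_support_iff.1 hmem)
        (Polynomial.leadingCoeff_ne_zero.2 hb0))).2
    have h3 : i ≤ m := Finset.le_max' _ _ (Finsupp.mem_support_iff.2 hi')
    omega

/-- The lowest level of a product. -/
private theorem LevelN_gap_level {H T B : Lam k} (hH : H = T * B)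
    (hB : PowerSeries.constantCoeff B ≠ 0) (n : ℕ)
    (hz : ∀ m : ℕ, m < n → ∀ i, cf H m i = 0) :
    ∃ P : LaurentPolynomial k,
      (∀ i, cf H n i = (P * PowerSeries.constantCoeff B).coeff i) ∧ ∀ i, cf T n i = P.coeff i := by
  have hXB : ¬ (PowerSeries.X : Lam k) ∣ B := by
    rw [PowerSeries.X_dvd_iff]
    exact hB
  have h1 : (PowerSeries.X : Lam k) ^ n ∣ H := by
    rw [PowerSeries.X_pow_dvd_iff]
    intro m hm
    refine LaurentPolynomial.ext fun i => ?_
    rw [← cf_nat, hz m hm, AddMonoidAlgebra.coeff_zero, Finsupp.coe_zero, Pi.zero_apply]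
  rw [hH] at h1
  obtain ⟨T', hT'⟩ := PowerSeries.X_prime.pow_dvd_of_dvd_mul_right n hXB h1
  refine ⟨PowerSeries.constantCoeff T', fun i => ?_, fun i => ?_⟩
  · rw [cf_nat, hH, hT', mul_assoc, PowerSeries.coeff_X_pow_mul', if_pos le_rfl, Nat.sub_self,
      PowerSeries.coeff_zero_eq_constantCoeff_apply, map_mul]
  · rw [cf_nat, hT', PowerSeries.coeff_X_pow_mul', if_pos le_rfl, Nat.sub_self,
      PowerSeries.coeff_zero_eq_constantCoeff_apply]

private theorem LevelN_mono {e N : ℕ} {u : ℤ → ℤ} (hu : Pot e N u) (a : ℕ) (d : ℕ) :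
    a + d + 1 < e → u a < u ((a + d + 1 : ℕ) : ℤ) := by
  induction d with
  | zero =>
    intro h
    have h1 := hu.incr a (Nat.zero_le _) (by omega)
    rw [show ((a + 0 + 1 : ℕ) : ℤ) = (a : ℤ) + 1 by push_cast; ring]
    exact h1
  | succ d ih =>
    intro h
    have h1 := ih (by omega)
    have h2 := hu.incr (a + d + 1) (Nat.zero_le _) (by omega)
    rw [show ((a + (d + 1) + 1 : ℕ) : ℤ) = ((a + d + 1 : ℕ) : ℤ) + 1 by push_cast; ring]
    exact h1.trans h2

private theorem LevelN_lt {e N : ℕ} {u : ℤ → ℤ} (hu : Pot e N u) {a b : ℤ} (ha : 0 ≤ a)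
    (hab : a < b) (hb : b < e) : u a < u b := by
  obtain ⟨m, rfl⟩ := Int.eq_ofNat_of_zero_le ha
  obtain ⟨d, hd⟩ := Int.eq_ofNat_of_zero_le (show 0 ≤ b - m - 1 by omega)
  have h := LevelN_mono hu m d (by omega)
  rwa [show ((m + d + 1 : ℕ) : ℤ) = b by omega] at h

private theorem LevelN_window {e N : ℕ} {u : ℤ → ℤ} (hu : Pot e N u) {l₀ i : ℤ} (h0 : 1 ≤ l₀)
    (hl : l₀ < e) (h : u l₀ ≤ u i) : l₀ ≤ i ∧ i ≤ e - 1 := by
  have h1 : u 0 < u l₀ := LevelN_lt hu le_rfl (by omega) hl
  have h2 : 0 ≤ i := by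
    by_contra hcon
    have := hu.out i (Or.inl (by omega))
    omega
  have h3 : i ≤ e := by
    by_contra hcon
    have := hu.out i (Or.inr (by omega))
    omega
  have h4 : i ≠ e := by
    rintro rfl
    have h5 := hu.per 0
    rw [zero_add, mul_zero, sub_zero] at h5
    omega
  refine ⟨?_, by omega⟩
  by_contra hcon
  have := LevelN_lt hu h2 (show i < l₀ by omega) hl
  omega

/-- One level: if the coefficients of `T` at the level `n` cannot be nonzero, those of `H` vanish. -/
private theorem LevelN_aux {e N : ℕ} {u : ℤ → ℤ} (hu : Pot e N u) {H T B : Lam k} (hH : H = T * B)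
    (b : Polynomial k) (hb : b.coeff 0 = 1)
    (hB : PowerSeries.constantCoeff B = Polynomial.toLaurent b) (v : ℤ)
    (hw : ∀ n l : ℤ, n + u l < v → cf H n l = 0) (l₀ : ℤ) (h0 : 1 ≤ l₀) (hl : l₀ < e)
    (hcon : ∀ (n : ℕ), (∀ i, cf T n i ≠ 0 → l₀ ≤ i ∧ i + b.natDegree ≤ e - 1) →
      ∀ i, cf T n i = 0) :
    ∀ n : ℕ, (n : ℤ) ≤ v - u l₀ → ∀ i, cf H n i = 0 := by
  intro n
  induction n using Nat.strong_induction_on with
  | _ n ih =>
    intro hn i
    have hb0 : b ≠ 0 := by
      rintro rfl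
      rw [Polynomial.coeff_zero] at hb
      exact zero_ne_one hb
    have hB0 : PowerSeries.constantCoeff B ≠ 0 := by
      rw [hB]
      exact Polynomial.toLaurent_ne_zero.2 hb0
    obtain ⟨P, hP, hPT⟩ := LevelN_gap_level hH hB0 n (fun m hm j => ih m hm (by omega) j)
    rw [hB] at hP
    have hP0 : P = 0 := by
      refine LaurentPolynomial.ext fun j => ?_
      rw [AddMonoidAlgebra.coeff_zero, Finsupp.coe_zero, Pi.zero_apply, ← hPT]
      refine hcon n (fun i hi => ?_) j
      rw [hPT] at hi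
      refine LevelN_gap_support P b (by rw [hb]; exact one_ne_zero) l₀ (e - 1) (fun l hl' => ?_) i hi
      rw [← hP] at hl'
      refine LevelN_window hu h0 hl ?_
      by_contra hcon2
      exact hl' (hw n l (by omega))
    rw [hP, hP0, zero_mul, AddMonoidAlgebra.coeff_zero, Finsupp.coe_zero, Pi.zero_apply]

private theorem LevelN_const (a : k) (F : Lam k) (n j : ℤ) :
    cf (iota (PowerSeries.C a) * F) n j = a * cf F n j := by
  rw [cf_iota_mul, finsum_eq_single _ 0]
  · rw [cR, if_neg (lt_irrefl 0), sub_zero]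
    simp
  · intro i hi
    rcases lt_or_gt_of_ne hi with h | h
    · rw [cR, if_pos h, zero_mul]
    · rw [cR, if_neg (by omega), PowerSeries.coeff_C, if_neg (by omega), zero_mul]

/-- Copy the private lemmas `gap_support`, `gap_level` (with their auxiliary lemmas) of `ShghW/Gap.lean`.
Let `n₀ = v - u l₀`. If `cf H n i ≠ 0` for some `n ≤ n₀` then `v ≤ n + u i ≤ v - u l₀ + u i`, so `u l₀ ≤ u i`, and
`l₀ ≤ i ≤ e - 1` by `Pot` (`u 0 < u l₀` as `l₀ ≥ 1`; `u e = u 0`). Let `n` be minimal with `cf H n i ≠ 0` for some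
`i` and suppose `0 ≤ n ≤ n₀`; `gap_level` gives a Laurent polynomial `P` with `cf H n i = (P * b) i` and
`gap_support` shows that the support of `P` is contained in `[l₀, e - 1 - natDegree b]`, which is empty. So
`cf H n i = 0` for all `n ≤ n₀` (as in `gap_aux`). -/
theorem gap {e N : ℕ} {u : ℤ → ℤ} (hu : Pot e N u) {H T B : Lam k} (hH : H = T * B)
    (b : Polynomial k) (hb : b.coeff 0 = 1)
    (hB : PowerSeries.constantCoeff B = Polynomial.toLaurent b) (v : ℤ)
    (hw : ∀ n l : ℤ, n + u l < v → cf H n l = 0) (l₀ : ℤ) (h0 : 1 ≤ l₀) (hl : l₀ < e)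
    (hlt : (e : ℤ) ≤ l₀ + b.natDegree) : cf H (v - u l₀) l₀ = 0 := by
  rcases lt_or_ge (v - u l₀) 0 with hn | hn
  · exact cf_neg H hn _
  · obtain ⟨n, hn'⟩ := Int.eq_ofNat_of_zero_le hn
    rw [hn']
    refine LevelN_aux hu hH b hb hB v hw l₀ h0 hl (fun m hm i => ?_) n (by omega) l₀
    by_contra hne
    have := hm i hne
    omega

/-- The same for a symmetric `T`. Let again `n` be the least level with `cf H n i ≠ 0` for some `i` and suppose
`n ≤ v - u l₀`. As above the coefficients of `H` at the level `n` vanish unless `l₀ ≤ i ≤ e - 1`. `T = π ^ n T'`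
(`π` does not divide `B`, see `gap_level`), and `T'` is symmetric, too (`upow (2 p) * inv c T' = c ^ p T'`, cancel
`π ^ n`; `inv c` fixes `π`). Let `P = constantCoeff T'`, a nonzero Laurent polynomial, `cf H n i = (P * b) i`. The
symmetry gives `P (2 p - i) = (unit) P i` for all `i`, so if `i₀` is the lowest exponent of `P` then
`2 p - i₀ ≥ i₀`, so `i₀ ≤ p < l₀`; but `i₀` is also the lowest exponent of `P * b` (`b.coeff 0 = 1`), so
`l₀ ≤ i₀`. Contradiction. -/
theorem gap_sym {e N : ℕ} {u : ℤ → ℤ} (hu : Pot e N u) {H T B : Lam k} (hH : H = T * B)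
    (b : Polynomial k) (hb : b.coeff 0 = 1)
    (hB : PowerSeries.constantCoeff B = Polynomial.toLaurent b) (c : kˣ) (p : ℕ)
    (hT : IsSym c p T) (v : ℤ)
    (hw : ∀ n l : ℤ, n + u l < v → cf H n l = 0) (l₀ : ℤ) (h0 : (p : ℤ) < l₀) (hl : l₀ < e) :
    cf H (v - u l₀) l₀ = 0 := by
  rcases lt_or_ge (v - u l₀) 0 with hn | hn
  · exact cf_neg H hn _
  · obtain ⟨n, hn'⟩ := Int.eq_ofNat_of_zero_le hn
    rw [hn']
    refine LevelN_aux hu hH b hb hB v hw l₀ (by omega) hl (fun m hm i => ?_) n (by omega) l₀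
    by_contra hne
    have h1 := (hm i hne).1
    have h2 : cf T m (2 * (p : ℤ) - i) ≠ 0 := by
      intro h3
      have h4 : cf (upow (2 * (p : ℤ)) * inv c T) m i =
          cf (iota (PowerSeries.C ((c ^ p : kˣ) : k)) * T) m i := by
        rw [IsSym] at hT
        rw [hT]
      rw [cf_upow_mul, cf_inv, LevelN_const, neg_sub, h3, mul_zero] at h4
      rcases mul_eq_zero.1 h4.symm with h5 | h5
      · exact Units.ne_zero _ h5
      · exact hne h5
    have h3 := (hm _ h2).1
    omega

end ShghN
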