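import Pool.Agent.ShghN.SpecialN
import Pool.Agent.ShghN.CombN
import Pool.Agent.ShghN.EmpN
import Pool.Agent.ShghQG.Sub

/-!
# Nine large points
-/

namespace ShghN

open ShghQ ShghT

/-- Pigeonhole (`ShghQG.exists_sub`). -/
theorem pigeon {s : ℕ} (μ : Fin s → ℕ) (m κ A : ℕ) (U : Finset (Fin s)) (hA : 1 ≤ A)
    (hμ : ∀ i ∈ U, μ i ≤ m) (hκ : ((U.image μ).erase 0).card ≤ κ)
    (hcov : A ≤ ∑ i ∈ U, tri (μ i)) :
    ∃ μ0, 1 ≤ μ0 ∧ μ0 ≤ m ∧ A ≤ κ * ((U.filter fun i => μ i = μ0).card * tri μ0) := by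
  obtain ⟨S, μ0, hS, _, _, _, h1, h2, h3⟩ := ShghQG.exists_sub μ m κ A U hA hμ hκ hcov
  refine ⟨μ0, h1, h2, h3.trans (Nat.mul_le_mul_left _ (Nat.mul_le_mul_right _ ?_))⟩
  exact Finset.card_le_card (Finset.filter_subset_filter _ hS)

/-- The field of generic points is infinite. -/
theorem NineN_infinite {F K : Type*} [Field F] [Field K] [Algebra F K] {ι : Type}
    {P : Fin 9 ⊕ ι → Fin 2 → K}
    (hP : AlgebraicIndependent F (fun ij : (Fin 9 ⊕ ι) × Fin 2 => P ij.1 ij.2)) : Infinite K :=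
  Infinite.of_injective _ hP

/-- The case of the index type `Fin r`. -/
theorem NineN_fin {F K : Type*} [Field F] [Field K] [Algebra F K] [Infinite K] {r : ℕ}
    (P : Fin (9 + r) → Fin 2 → K)
    (hP : AlgebraicIndependent F (fun ij : Fin (9 + r) × Fin 2 => P ij.1 ij.2))
    (μ : Fin r → ℕ) (m μ0 w : ℕ) {δ : ℕ} {M : Fin 9 → ℕ} {e : ℕ}
    (hstd : Std δ M e) (I U : Finset (Fin r)) (hm : 1 ≤ m) (hIU : Disjoint I U)
    (hU : ∀ i ∈ U, μ i ≤ m) (hIw : ∀ i ∈ I, μ i ≤ w) (h8 : 22 * m ^ 2 ≤ M 8)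
    (hJ : ∑ i ∈ I, (μ i + m) + w + 23 * m ^ 2 ≤ Jt δ M) (he : w + 1 + 22 * m ≤ e)
    (hμ0 : 1 ≤ μ0) (hμ0m : μ0 ≤ m)
    (hcl : 10 * m * (Jt δ M + 1) ≤ (U.filter fun i => μ i = μ0).card * tri μ0)
    (hcov : tri (δ + 1) ≤ ∑ l, tri (M l) + ∑ i ∈ I ∪ U, tri (μ i)) :
    LS δ (Fin.append M μ) P = ⊥ := by
  obtain ⟨T, p, n, _, hA, hD⟩ := comb μ m μ0 w hstd I U hm hIU hU hIw h8 hJ he hμ0 hμ0m hcl hcov
  have happ : ∀ i : Fin r, Fin.append μ (fun _ : Fin 0 => 1) i = μ i := fun i =>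
    Fin.append_left μ (fun _ : Fin 0 => 1) i
  have h1 := upper P hP δ M μ e (by omega) hstd 0 T p n
    (fun i hi => by rw [happ i]; exact hA i hi)
    (fun l hl => (hD l hl).trans (le_of_eq (Finset.sum_congr rfl fun i _ => by rw [happ i])))
  exact Submodule.finrank_eq_zero.1 (Nat.le_zero.1 h1)

/-- `comb` and `upper` with `n₁ = 0` (transport along `ι ≃ Fin r` and `Fin 9 ⊕ Fin r ≃ Fin (9 + r)`, for example with
`emp_of_inj`); the field `K` with the generic points is infinite. -/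
theorem emp_nine {F : Type*} [Field F] {ι : Type} [Fintype ι] [DecidableEq ι] (μ : ι → ℕ)
    (m μ0 w : ℕ) {δ : ℕ} {M : Fin 9 → ℕ} {e : ℕ}
    (hstd : Std δ M e) (I U : Finset ι) (hm : 1 ≤ m) (hIU : Disjoint I U)
    (hU : ∀ i ∈ U, μ i ≤ m) (hIw : ∀ i ∈ I, μ i ≤ w) (h8 : 22 * m ^ 2 ≤ M 8)
    (hJ : ∑ i ∈ I, (μ i + m) + w + 23 * m ^ 2 ≤ Jt δ M) (he : w + 1 + 22 * m ≤ e)
    (hμ0 : 1 ≤ μ0) (hμ0m : μ0 ≤ m)
    (hcl : 10 * m * (Jt δ M + 1) ≤ (U.filter fun i => μ i = μ0).card * tri μ0)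
    (hcov : tri (δ + 1) ≤ ∑ l, tri (M l) + ∑ i ∈ I ∪ U, tri (μ i)) :
    Emp F δ (Sum.elim M μ : Fin 9 ⊕ ι → ℕ) := by
  intro K _ _ P hP f hf1 hf2
  have hinf : Infinite K := NineN_infinite hP
  set r := Fintype.card ι
  set φ : Fin r ≃ ι := (Fintype.equivFin ι).symm
  set g : Fin (9 + r) → Fin 9 ⊕ ι :=
    Fin.append (fun l => Sum.inl l) (fun i => Sum.inr (φ i)) with hg
  have hginj : Function.Injective g := by
    intro a b
    refine Fin.addCases (fun a => ?_) (fun a => ?_) a <;>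
    refine Fin.addCases (fun b => ?_) (fun b => ?_) b <;>
    intro hab
    · rw [hg, Fin.append_left, Fin.append_left] at hab
      rw [Sum.inl_injective hab]
    · rw [hg, Fin.append_left, Fin.append_right] at hab
      exact absurd hab (by simp)
    · rw [hg, Fin.append_left, Fin.append_right] at hab
      exact absurd hab (by simp)
    · rw [hg, Fin.append_right, Fin.append_right] at hab
      rw [φ.injective (Sum.inr_injective hab)]
  have hP' : AlgebraicIndependent F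
      (fun ij : Fin (9 + r) × Fin 2 => (fun i => P (g i)) ij.1 ij.2) :=
    hP.comp (fun ij : Fin (9 + r) × Fin 2 => (g ij.1, ij.2)) (by
      rintro ⟨i, j⟩ ⟨i', j'⟩ hij
      rw [Prod.mk.injEq] at hij
      exact Prod.ext (hginj hij.1) hij.2)
  have hLS := NineN_fin (fun i => P (g i)) hP' (fun i => μ (φ i)) m μ0 w hstd
    (I.map φ.symm.toEmbedding) (U.map φ.symm.toEmbedding) hm
    (by rw [Finset.disjoint_map]; exact hIU)
    (by
      intro i hi
      obtain ⟨j, hj, rfl⟩ := Finset.mem_map.1 hi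
      rw [Equiv.coe_toEmbedding, Equiv.apply_symm_apply]
      exact hU j hj)
    (by
      intro i hi
      obtain ⟨j, hj, rfl⟩ := Finset.mem_map.1 hi
      rw [Equiv.coe_toEmbedding, Equiv.apply_symm_apply]
      exact hIw j hj)
    h8
    (by
      rw [Finset.sum_map]
      simp only [Equiv.coe_toEmbedding, Equiv.apply_symm_apply]
      exact hJ)
    he hμ0 hμ0m
    (by
      rw [Finset.filter_map, Finset.card_map]
      have h1 : ((fun i => μ (φ i) = μ0) ∘ φ.symm.toEmbedding) = fun i => μ i = μ0 := by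
        funext i
        simp
      have h2 : (U.filter ((fun i => μ (φ i) = μ0) ∘ φ.symm.toEmbedding)).card =
          (U.filter fun i => μ i = μ0).card := by
        congr 1
        refine Finset.filter_congr fun i _ => ?_
        simp
      rw [h2]
      exact hcl)
    (by
      rw [← Finset.map_union, Finset.sum_map]
      simp only [Equiv.coe_toEmbedding, Equiv.apply_symm_apply]
      exact hcov)
  have hmem : f ∈ LS δ (Fin.append M fun i => μ (φ i)) (fun i => P (g i)) := by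
    refine ⟨hf1, fun i => ?_⟩
    refine Fin.addCases (fun l => ?_) (fun i => ?_) i
    · have h1 : g (Fin.castAdd r l) = Sum.inl l := by rw [hg, Fin.append_left]
      rw [Fin.append_left]
      beta_reduce
      rw [h1]
      exact hf2 (Sum.inl l)
    · have h1 : g (Fin.natAdd 9 i) = Sum.inr (φ i) := by rw [hg, Fin.append_right]
      rw [Fin.append_right]
      beta_reduce
      rw [h1]
      exact hf2 (Sum.inr (φ i))
  rw [hLS] at hmem
  exact (Submodule.mem_bot K).1 hmem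

/-- The points `c 0, ..., c 8` have the large multiplicities; all other points are small. `pigeon` with
`A = tri (δ + 1) - Σ tri (μ (c l)) = Σ DN` (`sum_DN`; `2 A ≥ e (Jt + 1) ≥ 22 κ m (Jt + 1)` by `area_DN`) gives `μ0` with
`10 m (Jt + 1) ≤ |class| tri μ0`. `emp_nine` with `I = ∅`, `w = 0` and the index type `{i // i ∉ Set.range c}`, and `emp_of_inj`
for the map `Fin 9 ⊕ {i // i ∉ Set.range c} → Fin s`. (`M 8 ≤ Jt`.) -/
theorem emp_nine' {F : Type*} [Field F] {s : ℕ} (δ : ℕ) (μ : Fin s → ℕ) (c : Fin 9 → Fin s)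
    (hc : Function.Injective c) (m κ e : ℕ) (hm : 1 ≤ m) (hκ1 : 1 ≤ κ)
    (hstd : Std δ (fun l => μ (c l)) e) (hU : ∀ i, i ∉ Set.range c → μ i ≤ m)
    (hκ : (((Finset.univ \ Finset.univ.image c).image μ).erase 0).card ≤ κ)
    (h8 : 23 * m ^ 2 ≤ μ (c 8)) (he : 22 * κ * m + 1 ≤ e)
    (hcov : tri (δ + 1) ≤ ∑ i, tri (μ i)) : Emp F δ μ := by
  classical
  set U : Finset (Fin s) := Finset.univ \ Finset.univ.image c with hUdef
  have hmemU : ∀ i, i ∈ U ↔ i ∉ Set.range c := by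
    intro i
    simp [hUdef]
  have hkm : 1 ≤ κ * m := Nat.mul_pos hκ1 hm
  have he0 : 0 < e := by
    rw [mul_assoc] at he
    omega
  have hsum : ∑ i, tri (μ i) = ∑ l, tri (μ (c l)) + ∑ i ∈ U, tri (μ i) := by
    have h1 : ∑ l, tri (μ (c l)) = ∑ i ∈ Finset.univ.image c, tri (μ i) := by
      rw [Finset.sum_image (fun a _ b _ hab => hc hab)]
    rw [h1, hUdef, add_comm]
    exact (Finset.sum_sdiff (Finset.subset_univ _)).symm
  have hDN := sum_DN hstd he0
  have harea := area_DN hstd he0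
  set A := ∑ l ∈ Finset.range e, DN δ (fun l => μ (c l)) e l with hA
  set J := Jt δ (fun l => μ (c l)) with hJdef
  have htri : tri (δ + 1) = A + ∑ l, tri (μ (c l)) := hDN.symm
  have hAU : A ≤ ∑ i ∈ U, tri (μ i) := by
    rw [htri, hsum] at hcov
    omega
  have hA1 : 1 ≤ A := by
    have h1 : 1 * 1 ≤ e * (J + 1) := Nat.mul_le_mul he0 (by omega)
    omega
  obtain ⟨μ0, h1, h2, h3⟩ := pigeon μ m κ A U hA1 (fun i hi => hU i ((hmemU i).1 hi)) hκ hAU
  have hcl : 10 * m * (J + 1) ≤ (U.filter fun i => μ i = μ0).card * tri μ0 := by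
    set N := (U.filter fun i => μ i = μ0).card * tri μ0
    have h4 : (22 * κ * m + 1) * (J + 1) ≤ 2 * (κ * N) :=
      (Nat.mul_le_mul_right _ he).trans (harea.trans (Nat.mul_le_mul_left _ h3))
    by_contra hcon
    rw [not_le] at hcon
    have h5 : κ * N ≤ κ * (10 * m * (J + 1)) := Nat.mul_le_mul_left _ hcon.le
    nlinarith [Nat.zero_le (κ * m * (J + 1))]
  have hmono := hstd.facts
  have h8J : μ (c 8) ≤ J := min_le_Jt hstd
  have hm22 : 22 * m ≤ 22 * κ * m := by
    rw [mul_assoc]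
    exact Nat.mul_le_mul_left _ (Nat.le_mul_of_pos_left _ hκ1)
  have hE := emp_nine (F := F) (fun i : {i // i ∉ Set.range c} => μ i) m μ0 0 hstd ∅
    Finset.univ hm (Finset.disjoint_empty_left _) (fun i _ => hU i i.2) (by simp)
    (by nlinarith [h8]) (by
      rw [Finset.sum_empty, zero_add, zero_add]
      exact h8.trans h8J) (by omega) h1 h2 (by
      have h4 : (Finset.univ.filter fun i : {i // i ∉ Set.range c} => μ i = μ0).card =
          (U.filter fun i => μ i = μ0).card := by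
        rw [Finset.card_filter, Finset.card_filter,
          Finset.sum_subtype U hmemU (fun i => if μ i = μ0 then 1 else 0)]
      rw [h4]
      exact hcl) (by
      rw [Finset.empty_union, ← Finset.sum_subtype U hmemU (fun i => tri (μ i)), ← hsum]
      exact hcov)
  refine emp_of_inj (Sum.elim c Subtype.val) ?_ ?_ hE
  · rintro (a | a) (b | b) hab
    · exact congrArg Sum.inl (hc hab)
    · exact absurd ⟨a, hab⟩ b.2
    · exact absurd ⟨b, hab.symm⟩ a.2
    · exact congrArg Sum.inr (Subtype.ext hab)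
  · rintro (a | a)
    · exact le_rfl
    · exact le_rfl

end ShghN
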