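import Pool.Agent.ShghN.VanN
import Pool.Agent.ShghN.LevelN
import Pool.Agent.ShghN.RowN
import Pool.Agent.ShghT.Lin
import Pool.Agent.ShghW.NoTheta

/-!
# There are no theta functions satisfying the conditions of all points
-/

namespace ShghN

open ShghQ ShghT

variable {k : Type*} [Field k]

/-- The levels are products of the fixed part and a moving part (as `ShghT.LevOK`, every `N`). -/
def LevN (N d : ℕ) (M : Fin 9 → ℕ) (a : Fin 9 → kˣ) (H : ℕ → Lam k) : Prop :=
  ∀ j, H j ≠ 0 → j ≤ Jt d M ∧ ∃ T : Lam k,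
    H j = T * Bf N a (kl d M j) (fun l => j - M l) ∧
    (M 0 - j = d - 3 * j → IsSym (-(a 0))⁻¹ (d - 3 * j - (M 1 - j)) T)

/-- The leading coefficients of the level `j` in the columns `l ≥ rN j` vanish. `H j = 0` is trivial. Otherwise
`constantCoeff_Bf`, `bpol_coeff_zero`, `bpol_natDegree` (`natDegree = kp j`) and: in the pencil case (first case of `rN`)
`gap_sym` with `p = d - 3 j - (M 1 - j)`, `l > p`; otherwise `gap`: `l ≥ max (e - kp j) 1`. -/
theorem lev_vanish {e N : ℕ} (hN : 0 < N) {u : ℤ → ℤ} (hu : Pot e N u) {d : ℕ} {M : Fin 9 → ℕ}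
    (hstd : Std d M e) {a : Fin 9 → kˣ} {H : ℕ → Lam k} (hH : LevN N d M a H) (v : ℤ)
    (hw : ∀ j, ∀ n l : ℤ, n + u l < v → cf (H j) n l = 0) {l j : ℕ} (hl : l < e)
    (hj : rN d M e j ≤ l) : cf (H j) (v - u l) l = 0 := by
  by_cases h0 : H j = 0
  · rw [h0, cf_zero]
  · obtain ⟨hjJ, T, hT, hsym⟩ := hH j h0
    rw [rN] at hj
    split_ifs at hj with hp
    · exact gap_sym hu hT (bpol a (kl d M j) (fun l => j - M l)) (bpol_coeff_zero a _ _)
        (constantCoeff_Bf hN a _ _) _ _ (hsym hp.2.symm) v (hw j) l (by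
          have h1 : d - 3 * j - (M 1 - j) < l := hj
          exact_mod_cast h1) (by exact_mod_cast hl)
    · refine gap hu hT (bpol a (kl d M j) (fun l => j - M l)) (bpol_coeff_zero a _ _)
        (constantCoeff_Bf hN a _ _) v (hw j) l ?_ (by exact_mod_cast hl) ?_
      · have h1 : 1 ≤ l := (le_max_right _ _).trans hj
        exact_mod_cast h1
      · have h1 : e - kp d M j ≤ l := (le_max_left _ _).trans hj
        rw [bpol_natDegree]
        have h2 : e ≤ l + (kl d M j + ∑ l, (j - M l)) := by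
          rw [kp] at h1
          omega
        exact_mod_cast h2

/-- A lower bound of the weights in the window `0, ..., e - 1` is a lower bound of all weights: `IsTh` relates the
coefficient `(n, l)` to `(n + N l, l + e)`, and `n + N l + u (l + e) = n + u l` by `Pot.per`. (Induction on the distance
from the window, in both directions; `γ ≠ 0`.) -/
theorem weight_all {e N : ℕ} (he : 0 < e) {u : ℤ → ℤ} (hu : Pot e N u) {γ : k} (hγ : γ ≠ 0)
    {H : Lam k} (hH : IsTh N e γ H) (v : ℤ)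
    (hw : ∀ l : ℤ, 0 ≤ l → l < e → ∀ n, n + u l < v → cf H n l = 0) (n l : ℤ)
    (hn : n + u l < v) : cf H n l = 0 := by
  have he' : (0 : ℤ) < e := by exact_mod_cast he
  have key : ∀ s r : ℤ, 0 ≤ r → r < e → ∀ n : ℤ, n + u (r + e * s) < v →
      cf H n (r + e * s) = 0 := by
    intro s r hr0 hr1
    induction s using Int.induction_on with
    | zero =>
      intro n hn
      rw [mul_zero, add_zero] at hn ⊢
      exact hw r hr0 hr1 n hn
    | succ s ih =>
      intro n hn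
      have e1 : r + (e : ℤ) * ((s : ℤ) + 1) = (r + e * s) + e := by ring
      rw [e1] at hn ⊢
      have h1 := hH (n - N * (r + e * s)) (r + e * s)
      rw [sub_add_cancel] at h1
      rw [h1, ih, mul_zero]
      rw [hu.per] at hn
      linarith
    | pred s ih =>
      intro n hn
      have e1 : (r + (e : ℤ) * (-(s : ℤ) - 1)) + e = r + e * (-(s : ℤ)) := by ring
      have h1 := hH n (r + (e : ℤ) * (-(s : ℤ) - 1))
      have h2 := hu.per (r + (e : ℤ) * (-(s : ℤ) - 1))
      rw [e1] at h1 h2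
      rw [ih _ (by rw [h2]; linarith)] at h1
      exact (mul_eq_zero.mp h1.symm).resolve_left hγ
  have h1 := key (l / e) (l % e) (Int.emod_nonneg _ he'.ne') (Int.emod_lt_of_pos _ he') n
  rw [Int.emod_add_mul_ediv] at h1
  exact h1 hn

/-- The potential is at least `u 0` on the window. -/
theorem NoThetaN_u_nonneg {e N : ℕ} {u : ℤ → ℤ} (hu : Pot e N u) (ρ : ℕ) (hρ : ρ < e) :
    u 0 ≤ u ρ := by
  induction ρ with
  | zero => exact le_refl _
  | succ ρ ih =>
    have h1 := ih (by omega)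
    have h2 := hu.incr ρ (by positivity) (by exact_mod_cast hρ)
    push_cast
    linarith

/-- Copy the structure of `ShghT.no_theta`. Suppose some `H j ≠ 0`. There is a minimal `v` among the numbers
`n + u l` with `cf (H j) n l ≠ 0`, `j ≤ Jt`, `0 ≤ l < e` (`n ≥ 0` and the finitely many `u l`, `0 ≤ l < e`, are bounded
below; `IsTh.eq_zero` shows that there is such a nonzero coefficient), attained at `(j₁, n₁, l₁)`. By
`weight_all` all weights are `≥ v`. Let `G = Σ_{j ≤ Jt} cf (H j) (v - u l₁) l₁ X ^ j`, a polynomial over `k`. Its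
coefficients vanish from the index `DN l₁` on (`lev_vanish`, `lt_rN_iff`). By `van` and `hfit`, for every `i` and
`b < A i l₁` one has `Σ_j t ^ j (j choose b) G_j = t ^ b eval t (hasseDeriv b G) = 0`. So `G = 0` by `ShghT.hermite` with
`hcov`, in contradiction to `G_{j₁} = cf (H j₁) n₁ l₁ ≠ 0`. -/
theorem no_theta {e N : ℕ} (he : 0 < e) (hN : 0 < N) {u : ℤ → ℤ} (hu : Pot e N u) {d : ℕ}
    {M : Fin 9 → ℕ} (hstd : Std d M e) {a : Fin 9 → kˣ} (γ ν : k) (hγ : γ ≠ 0) (hν : ν ≠ 0)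
    {r : ℕ} (m : Fin r → ℕ) (c : Fin r → ℤ) (hc : ∀ i, 0 ≤ c i) (A : Fin r → ℕ → ℕ)
    (hfit : ∀ i, FitZ e u (c i) (m i) (A i)) (αi t : Fin r → k) (hα : ∀ i, αi i ≠ 0)
    (ht : ∀ i, t i ≠ 0) (hinj : Function.Injective t)
    (hcov : ∀ l < e, DN d M e l ≤ ∑ i, A i l)
    (H : ℕ → Lam k) (hH : ∀ j ≤ Jt d M, IsTh N e (γ * ν ^ j) (H j)) (hlev : LevN N d M a H)
    (hcond : ∀ i a b, a + b < m i → ∀ n : ℕ, ∑ j ∈ Finset.range (Jt d M + 1),
      t i ^ j * (j.choose b : k) * (∑ᶠ l : ℤ, cf (H j) (n - c i * l) l *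
        αi i ^ l * ((Ring.choose l a : ℤ) : k)) = 0) :
    ∀ j ≤ Jt d M, H j = 0 := by
  by_contra hcon
  push Not at hcon
  obtain ⟨j₀, hj₀, hHj₀⟩ := hcon
  have he' : (0 : ℤ) < e := by exact_mod_cast he
  have hγj : ∀ j, γ * ν ^ j ≠ 0 := fun j => mul_ne_zero hγ (pow_ne_zero _ hν)
  classical
  have hex : ∃ w : ℕ, ∃ j ≤ Jt d M, ∃ ρ : ℕ, ρ < e ∧ ∃ n : ℤ, cf (H j) n ρ ≠ 0 ∧
      n + u ρ - u 0 = w := by
    by_contra hne
    refine hHj₀ ((hH j₀ hj₀).eq_zero he (hγj j₀) fun ρ hρ n => ?_)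
    by_contra hc
    have hn : 0 ≤ n := by
      by_contra hn
      exact hc (cf_neg _ (not_le.mp hn) _)
    have h1 : 0 ≤ n + u ρ - u 0 := by
      have := NoThetaN_u_nonneg hu ρ hρ
      linarith
    obtain ⟨w, hv⟩ := Int.eq_ofNat_of_zero_le h1
    exact hne ⟨w, j₀, hj₀, ρ, hρ, n, hc, hv⟩
  obtain ⟨j₁, hj₁, ρ₁, hρ₁, n₁, hc₁, hv₁⟩ := Nat.find_spec hex
  have hmin := fun v hv => Nat.find_min hex (m := v) hv
  generalize Nat.find hex = μ at *
  obtain ⟨v, hv⟩ : ∃ v : ℤ, v = μ + u 0 := ⟨_, rfl⟩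
  have hμ : ∀ j ≤ Jt d M, ∀ ρ : ℤ, 0 ≤ ρ → ρ < e → ∀ n, n + u ρ < v →
      cf (H j) n ρ = 0 := by
    intro j hj ρ hρ0 hρ n hn
    obtain ⟨ρ, rfl⟩ := Int.eq_ofNat_of_zero_le hρ0
    have hρ : ρ < e := by exact_mod_cast hρ
    by_contra hc
    have hn0 : 0 ≤ n := by
      by_contra hn
      exact hc (cf_neg _ (not_le.mp hn) _)
    have h1 : 0 ≤ n + u ρ - u 0 := by
      have := NoThetaN_u_nonneg hu ρ hρ
      linarith
    obtain ⟨w, hw⟩ := Int.eq_ofNat_of_zero_le h1
    refine hmin w ?_ ⟨j, hj, ρ, hρ, n, hc, hw⟩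
    have h2 : (w : ℤ) < μ := by
      have h3 : (w : ℤ) = n + u (ρ : ℤ) - u 0 := hw.symm
      have h4 : n + u (ρ : ℤ) < v := hn
      rw [h3]
      linarith
    exact_mod_cast h2
  have hw : ∀ j, ∀ n l : ℤ, n + u l < v → cf (H j) n l = 0 := by
    intro j n l hnl
    by_cases h0 : H j = 0
    · rw [h0, cf_zero]
    · have hjJ := (hlev j h0).1
      exact weight_all he hu (hγj j) (hH j hjJ) v (hμ j hjJ) n l hnl
  let G : Polynomial k := ∑ j ∈ Finset.range (Jt d M + 1),
    Polynomial.monomial j (cf (H j) (v - u ρ₁) ρ₁)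
  have hGc : ∀ j, G.coeff j = if j < Jt d M + 1 then cf (H j) (v - u ρ₁) ρ₁ else 0 := by
    intro j
    simp only [G, Polynomial.finsetSum_coeff, Polynomial.coeff_monomial]
    rw [Finset.sum_ite_eq']
    simp
  have hG : G = 0 := by
    refine hermite (Finset.univ : Finset (Fin r)) t (fun i _ i' _ h => hinj h)
      (fun i => A i ρ₁) G ?_ ?_
    · intro i _ b hb
      obtain ⟨s, hs⟩ := hfit i ρ₁ hρ₁ (lt_of_le_of_lt (Nat.zero_le b) hb)
      have hkey := van (Jt d M) H (c i) (hc i) (αi i) (t i) (hα i) (m i) (hcond i) v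
        (fun j _ n l h => hw j n l h) ρ₁ (A i ρ₁) s hs b hb
      refine (mul_eq_zero.mp ?_).resolve_left (pow_ne_zero b (ht i))
      rw [← hkey]
      simp only [G, map_sum, Polynomial.hasseDeriv_monomial, Polynomial.eval_finsetSum,
        Polynomial.eval_monomial, Finset.mul_sum]
      refine Finset.sum_congr rfl fun j hj => ?_
      rcases lt_or_ge j b with hjb | hjb
      · rw [Nat.choose_eq_zero_of_lt hjb]
        simp
      · rw [show t i ^ j = t i ^ b * t i ^ (j - b) by rw [← pow_add]; congr 1; omega]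
        ring
    · intro j hj
      rw [hGc]
      split_ifs with hjJ
      · have h1 : ¬ j < DN d M e ρ₁ := not_lt.mpr ((hcov ρ₁ hρ₁).trans hj)
        have h2 : rN d M e j ≤ ρ₁ := by
          rw [← lt_rN_iff hstd he (Nat.lt_succ_iff.mp hjJ) ρ₁] at h1
          exact not_lt.mp h1
        exact lev_vanish hN hu hstd hlev v hw hρ₁ h2
      · rfl
  have h := hGc j₁
  rw [hG, Polynomial.coeff_zero, if_pos (by omega), show v - u ρ₁ = n₁ by rw [hv]; linarith] at h
  exact hc₁ h.symm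

end ShghN
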