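import Pool.Agent.ShghQ.Ord
import Pool.Agent.ShghQ.Fit
import Pool.Agent.ShghT.Defs

/-!
# The potential on the integers
-/

namespace ShghN

open ShghQ

/-- The value of the column `l`. -/
def valZ (u : ℤ → ℤ) (c : ℤ) (l : ℤ) : ℤ := u l - c * l

/-- A potential for theta functions of degree `e` with respect to `q = π ^ N`: increasing on the window
`0, ..., e - 1`, smaller than `u 0` outside `0, ..., e` (and `u e = u 0` by `per`). -/
structure Pot (e N : ℕ) (u : ℤ → ℤ) : Prop where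
  per : ∀ l, u (l + e) = u l - N * l
  incr : ∀ l, 0 ≤ l → l + 1 < e → u l < u (l + 1)
  out : ∀ l, (l < 0 ∨ (e : ℤ) < l) → u l < u 0

/-- The upper level sets of the values with respect to `c` fit to the numbers `A l` and the multiplicity `ν`. -/
def FitZ (e : ℕ) (u : ℤ → ℤ) (c : ℤ) (ν : ℕ) (A : ℕ → ℕ) : Prop :=
  ∀ l₀ : ℕ, l₀ < e → 0 < A l₀ →
    ∃ s : ℤ, ∀ l : ℤ, valZ u c l₀ ≤ valZ u c l → s ≤ l ∧ l + A l₀ ≤ s + ν

/-- `Qf e l` in terms of the quotient `s` and the remainder `ρ`. -/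
theorem PotZ_Qf (e : ℕ) (l : ℤ) :
    2 * ShghT.Qf e l = 2 * ((l % e) * (l / e)) + e * ((l / e) * (l / e - 1)) := by
  unfold ShghT.Qf
  have h : 2 * ((l / e) * (l / e - 1) / 2) = (l / e) * (l / e - 1) :=
    Int.two_mul_ediv_two_of_even (Int.even_mul_pred_self _)
  linear_combination (e : ℤ) * h

theorem PotZ_per (e : ℕ) (he : 1 ≤ e) (l : ℤ) :
    ShghT.Qf e (l + e) = ShghT.Qf e l + l := by
  have he' : (e : ℤ) ≠ 0 := by
    have : e ≠ 0 := by omega
    exact_mod_cast this
  have h1 := PotZ_Qf e l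
  have h2 := PotZ_Qf e (l + e)
  have h3 : (l + e) % (e : ℤ) = l % e := by simp
  have h4 : (l + e) / (e : ℤ) = l / e + 1 := Int.add_ediv_of_dvd_right (dvd_refl _) |>.trans (by
    rw [Int.ediv_self he'])
  rw [h3, h4] at h2
  have h5 := Int.emod_add_mul_ediv l e
  have h6 : 2 * ShghT.Qf e (l + e) = 2 * (ShghT.Qf e l + l) := by
    linear_combination h2 - h1 + 2 * h5
  linarith

/-- On the window the exponent vanishes. -/
theorem PotZ_win {e : ℕ} {l : ℤ} (h0 : 0 ≤ l) (h1 : l < e) : ShghT.Qf e l = 0 ∧ l % e = l := by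
  have h2 : l / (e : ℤ) = 0 := Int.ediv_eq_zero_of_lt h0 h1
  have h3 : l % (e : ℤ) = l := Int.emod_eq_of_lt h0 h1
  refine ⟨?_, h3⟩
  have h := PotZ_Qf e l
  rw [h2] at h
  linarith

/-- The exponent is positive to the right of the window. -/
theorem PotZ_right {e : ℕ} (he : 1 ≤ e) {l : ℤ} (h1 : (e : ℤ) < l) : 1 ≤ ShghT.Qf e l := by
  have he' : (0 : ℤ) < e := by exact_mod_cast he
  have h := PotZ_Qf e l
  have h5 := Int.emod_add_mul_ediv l e
  have h6 := Int.emod_nonneg l he'.ne'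
  have h7 := Int.emod_lt_of_pos l he'
  set s := l / (e : ℤ)
  set r := l % (e : ℤ)
  have hs : 1 ≤ s := by
    by_contra hcon
    push Not at hcon
    have : s ≤ 0 := by omega
    nlinarith
  rcases Int.lt_or_le 1 s with h2 | h2
  · have h3 : 0 ≤ r * s := by positivity
    have h4 : 2 ≤ s * (s - 1) := by nlinarith
    nlinarith
  · have hs1 : s = 1 := by omega
    rw [hs1] at h h5
    have : 1 ≤ r := by linarith
    nlinarith

/-- The exponent is large to the left of the window. -/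
theorem PotZ_left {e : ℕ} (he : 1 ≤ e) {l : ℤ} (h1 : l < 0) :
    ∃ t : ℤ, 1 ≤ t ∧ t ≤ ShghT.Qf e l ∧ -l ≤ e * t := by
  have he' : (0 : ℤ) < e := by exact_mod_cast he
  have h := PotZ_Qf e l
  have h5 := Int.emod_add_mul_ediv l e
  have h6 := Int.emod_nonneg l he'.ne'
  have h7 := Int.emod_lt_of_pos l he'
  set s := l / (e : ℤ)
  set r := l % (e : ℤ)
  have hs : s ≤ -1 := by
    by_contra hcon
    push Not at hcon
    have : 0 ≤ s := by omega
    nlinarith
  refine ⟨-s, by linarith, ?_, by linarith⟩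
  obtain ⟨t, ht⟩ : ∃ t, t = -s := ⟨_, rfl⟩
  have hst : s = -t := by rw [ht]; ring
  rw [hst] at h h5 hs ⊢
  have ht1 : 1 ≤ t := by linarith
  have h8 : r * t ≤ (e - 1) * t := by
    have : r ≤ e - 1 := by omega
    exact mul_le_mul_of_nonneg_right this (by linarith)
  have h9 : 0 ≤ (e : ℤ) * (t * (t - 1)) := by
    have : 0 ≤ t * (t - 1) := mul_nonneg (by linarith) (by linarith)
    positivity
  nlinarith

/-- Take `u₀`, `c` from `ShghQ.exists_ord e (m + 1)`. Facts on them, for `p < e`, `1 ≤ n ≤ m + 1`, `n ≤ p + 1`, `c = c p n`: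
* `c > 0` (`Sees.right` at `l ≥ e`, where `u₀` is constant);
* `u₀ l < u₀ (l+1)` for `l + 1 < e` (`Sees.left` for `p = e - 1`, `n = 1`, `l < e - 1`).
Let `Bd` be a bound of `|u₀ l|` (`l ≤ e`) and of all `c p n` (`p < e`, `n ≤ m + 1`), `N = 4 (e + 1) (Bd + 1)`, and
`u (ρ + e s) = u₀ ρ - N (s ρ + e s (s-1)/2)` for `0 ≤ ρ < e` (`s ρ + e s (s-1)/2 = ShghT.Qf e l`); `per` is a
computation (`s (s+1)/2 = s (s-1)/2 + s`). Outside the window, for `0 ≤ c ≤ Bd`: `valZ u c l < valZ u c l'` for all `l'` in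
the window, if `c > 0`: for `l = e` one has `valZ u c e = u₀ 0 - c e < u₀ 0 - c l' ≤ u₀ l' - c l'`; for the
other `l = ρ + e s` (`s ≠ 0`) the number `s ρ + e s (s-1)/2` is `≥ 1` and `≥ |s|` if `s < 0`, so
`valZ u c l ≤ Bd + c e |s| [s < 0] - N (...) < - Bd - c e ≤ valZ u c l'`. For `c = 0` this gives `out`.
So the set `{l | valZ u c l₀ ≤ valZ u c l}` is contained in the window, where `valZ u c l = val u₀ c l`
(the values of `u₀` at `0, ..., e - 1`), and `ShghQ.fit` gives `FitZ`. -/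
theorem exists_pot (e m : ℕ) (he : 1 ≤ e) :
    ∃ (N : ℕ) (u : ℤ → ℤ) (c : ℕ → ℕ → ℕ), 0 < N ∧ Pot e N u ∧
      ∀ ν p n, Adm e ν p n → n ≤ m → c p n < N ∧ FitZ e u (c p n) ν (fun l => pat ν p n l) := by
  obtain ⟨u₀, c, -, hconst, hsees⟩ := exists_ord e (m + 1) he
  have he' : (0 : ℤ) < e := by exact_mod_cast he
  -- facts on the data
  have hcpos : ∀ p n, p < e → 1 ≤ n → n ≤ m + 1 → n ≤ p + 1 → 0 < c p n := by
    intro p n hp hn hnm hnp
    have h1 := (hsees p n hp hn hnm hnp).right e hp.le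
    unfold val at h1
    rw [hconst (e + 1) (by omega)] at h1
    push_cast at h1
    have h2 : (0 : ℤ) < c p n := by linarith
    exact_mod_cast h2
  have hincr : ∀ l, l + 1 < e → u₀ l < u₀ (l + 1) := by
    intro l hl
    have h1 := (hsees (e - 1) 1 (by omega) le_rfl (by omega) (by omega)).left l (by omega)
    unfold val at h1
    push_cast at h1
    have h2 : (0 : ℤ) ≤ c (e - 1) 1 := Int.natCast_nonneg _
    linarith
  have hmono : ∀ l, l < e → u₀ 0 ≤ u₀ l := by
    intro l
    induction l with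
    | zero => intro _; exact le_rfl
    | succ k ih => intro hk; exact (ih (by omega)).trans (hincr k hk).le
  -- the bound
  set Bd : ℕ := ∑ l ∈ Finset.range (e + 1), (u₀ l).natAbs +
    ∑ p ∈ Finset.range e, ∑ n ∈ Finset.range (m + 2), c p n with hBd
  have hBu : ∀ l, l ≤ e → |u₀ l| ≤ Bd := by
    intro l hl
    have h1 : (u₀ l).natAbs ≤ ∑ l ∈ Finset.range (e + 1), (u₀ l).natAbs :=
      Finset.single_le_sum (f := fun l => (u₀ l).natAbs) (fun _ _ => Nat.zero_le _)
        (Finset.mem_range.mpr (by omega))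
    have h2 : (u₀ l).natAbs ≤ Bd := by omega
    rw [Int.abs_eq_natAbs]
    exact_mod_cast h2
  have hBc : ∀ p n, p < e → n ≤ m + 1 → c p n ≤ Bd := by
    intro p n hp hn
    have h1 : c p n ≤ ∑ n ∈ Finset.range (m + 2), c p n :=
      Finset.single_le_sum (f := fun n => c p n) (fun _ _ => Nat.zero_le _)
        (Finset.mem_range.mpr (by omega))
    have h2 : ∑ n ∈ Finset.range (m + 2), c p n ≤
        ∑ p ∈ Finset.range e, ∑ n ∈ Finset.range (m + 2), c p n :=
      Finset.single_le_sum (f := fun p => ∑ n ∈ Finset.range (m + 2), c p n)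
        (fun _ _ => Nat.zero_le _) (Finset.mem_range.mpr hp)
    omega
  have hB0 : (0 : ℤ) ≤ Bd := Int.natCast_nonneg _
  have hBe : (0 : ℤ) ≤ Bd * e := mul_nonneg hB0 he'.le
  set N : ℕ := 4 * (e + 1) * (Bd + 1) with hN
  have hNz : (N : ℤ) = 4 * (e + 1) * (Bd + 1) := by
    rw [hN]
    push_cast
    ring
  have hN1 : 2 * (Bd : ℤ) + 2 * (Bd * e) < N := by
    rw [hNz]
    nlinarith
  let u : ℤ → ℤ := fun l => u₀ (l % e).toNat - N * ShghT.Qf e l
  have hu : ∀ l, u l = u₀ (l % e).toNat - N * ShghT.Qf e l := fun _ => rfl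
  have huw : ∀ k : ℕ, k < e → u k = u₀ k := by
    intro k hk
    have h1 := PotZ_win (e := e) (l := (k : ℤ)) (Int.natCast_nonneg k) (by exact_mod_cast hk)
    rw [hu, h1.1, h1.2, Int.toNat_natCast, mul_zero, sub_zero]
  have hu0 : u 0 = u₀ 0 := by
    have := huw 0 he
    simpa using this
  have hrem : ∀ l : ℤ, (l % e).toNat < e := by
    intro l
    have h6 := Int.emod_nonneg l he'.ne'
    have h7 := Int.emod_lt_of_pos l he'
    omega
  have hub : ∀ l : ℤ, u₀ (l % e).toNat ≤ Bd := fun l =>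
    (le_abs_self _).trans (hBu _ (hrem l).le)
  have hlb : ∀ k : ℕ, k < e → -(Bd : ℤ) ≤ u₀ k := fun k hk =>
    neg_le_of_abs_le (hBu k hk.le)
  have hper : ∀ l, u (l + e) = u l - N * l := by
    intro l
    rw [hu, hu, PotZ_per e he l]
    have h3 : (l + e) % (e : ℤ) = l % e := by simp
    rw [h3]
    ring
  have hue : u e = u₀ 0 := by
    have h1 := hper 0
    rw [zero_add, mul_zero, sub_zero, hu0] at h1
    exact h1
  -- outside of the window
  have hout : ∀ (a : ℤ) (l : ℤ) (k : ℕ), 0 ≤ a → a ≤ Bd → k < e → (l < 0 ∨ (e : ℤ) < l) →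
      valZ u a l < valZ u a k := by
    intro a l k ha haB hk hl
    unfold valZ
    rw [huw k hk, hu l]
    have h1 := hub l
    have h2 := hlb k hk
    have h3 : a * k ≤ Bd * e := by
      have h4 : (k : ℤ) ≤ e := by exact_mod_cast hk.le
      exact mul_le_mul haB h4 (Int.natCast_nonneg _) hB0
    rcases hl with hl | hl
    · obtain ⟨t, ht1, ht2, ht3⟩ := PotZ_left he hl
      have h5 : (N : ℤ) * t ≤ N * ShghT.Qf e l :=
        mul_le_mul_of_nonneg_left ht2 (Int.natCast_nonneg _)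
      have h6 : a * (-l) ≤ Bd * (e * t) :=
        mul_le_mul haB ht3 (by linarith) hB0
      have h7 : 0 ≤ ((N : ℤ) - Bd * e) * (t - 1) :=
        mul_nonneg (by linarith) (by linarith)
      nlinarith
    · have h5 : (N : ℤ) * 1 ≤ N * ShghT.Qf e l :=
        mul_le_mul_of_nonneg_left (PotZ_right he hl) (Int.natCast_nonneg _)
      have h6 : 0 ≤ a * l := mul_nonneg ha (by linarith)
      linarith
  refine ⟨N, u, c, by positivity, ⟨hper, ?_, ?_⟩, ?_⟩
  · intro k _ h2
    have h3 := huw (k + 1) h2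
    push_cast at h3
    rw [h3, huw k (by omega)]
    exact hincr k h2
  · intro l hl
    have h1 := hout 0 l 0 le_rfl hB0 he hl
    unfold valZ at h1
    simpa using h1
  · intro ν p n hA hn
    have hcB := hBc p n hA.pL (by omega)
    have hc0 := hcpos p n hA.pL hA.one (by omega) hA.lp
    have hS := hsees p n hA.pL hA.one (by omega) hA.lp
    refine ⟨?_, ?_⟩
    · have h1 : (c p n : ℤ) ≤ Bd := by exact_mod_cast hcB
      have h2 : (c p n : ℤ) < N := by linarith
      exact_mod_cast h2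
    · intro l₀ hl₀ hpos
      obtain ⟨s, hs⟩ := fit hA hS hl₀ hpos
      refine ⟨s, fun l hl => ?_⟩
      have h1 : ¬ (l < 0 ∨ (e : ℤ) < l) := by
        intro hcon
        have := hout (c p n) l l₀ (Int.natCast_nonneg _) (by exact_mod_cast hcB) hl₀ hcon
        linarith
      have h2 : l ≠ e := by
        rintro rfl
        unfold valZ at hl
        rw [huw l₀ hl₀, hue] at hl
        have h3 := hmono l₀ hl₀
        have h4 : (c p n : ℤ) * l₀ < c p n * e := by
          refine mul_lt_mul_of_pos_left ?_ ?_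
          · exact_mod_cast hl₀
          · exact_mod_cast hc0
        linarith
      push Not at h1
      obtain ⟨k, rfl⟩ := Int.eq_ofNat_of_zero_le h1.1
      have hk : k < e := by
        have h3 : (k : ℤ) < e := lt_of_le_of_ne h1.2 h2
        exact_mod_cast h3
      have h3 : val u₀ (c p n) l₀ ≤ val u₀ (c p n) k := by
        unfold valZ at hl
        rw [huw l₀ hl₀, huw k hk] at hl
        exact hl
      obtain ⟨h4, h5⟩ := hs k h3
      refine ⟨by exact_mod_cast h4, ?_⟩
      exact_mod_cast h5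

end ShghN
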