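import Pool.Agent.ShghN.NoThetaN
import Pool.Agent.ShghW.SpecialW

/-!
# No curves through the special points, and the upper bound of the dimension
-/

namespace ShghN

open ShghQ ShghT MvPolynomial

/-- Copy of `ShghT.special_emptyW` with `core_N`, every `N`, and `no_theta` of this package; the numbers `αi i` only have to
avoid the finite sets of `Te_finite` (`k` is infinite). -/
theorem special_empty {k : Type*} [Field k] [Infinite k] {e N : ℕ} (he : 0 < e) (hN : 0 < N)
    {u : ℤ → ℤ} (hu : Pot e N u) (d : ℕ) (M : Fin 9 → ℕ) (hstd : Std d M e)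
    (a : Fin 9 → kˣ) (ha : Function.Injective a) (ν : kˣ) (hν : (ν : k) * ∏ l, (-(a l : k)) = 1)
    (α β δ : PowerSeries k) (hα : PowerSeries.constantCoeff α = 0)
    (hβ : PowerSeries.constantCoeff β = -1) (hδ : PowerSeries.constantCoeff δ = -1)
    (hrel : iota α * x3 k N 0 ^ 3 + iota β * x3 k N 1 ^ 3 +
      iota δ * x3 k N 2 ^ 3 + x3 k N 0 * x3 k N 1 * x3 k N 2 = 0)
    {r : ℕ} (m : Fin r → ℕ) (c : Fin r → ℤ) (hc : ∀ i, 0 ≤ c i ∧ c i < (N : ℤ))
    (A : Fin r → ℕ → ℕ) (hfit : ∀ i, FitZ e u (c i) (m i) (A i)) (t : Fin r → kˣ)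
    (ht : Function.Injective t) (hcov : ∀ l < e, DN d M e l ≤ ∑ i, A i l) :
    ∃ (Q : Fin 9 → Fin 2 → KX k) (R : Fin r → Fin 2 → KX k),
      ∀ f ∈ LS d (Fin.append M m) (Fin.append Q R), f = 0 := by
  classical
  have hgood := goodB_ne_zero hN a hα
  have hγ : (∏ l, (-(a l : k)) ^ M l) ≠ 0 :=
    Finset.prod_ne_zero_iff.2 fun l _ => pow_ne_zero _ (neg_ne_zero.2 (a l).ne_zero)
  have hinf : Infinite kˣ := by
    have h1 : (Set.univ \ {0} : Set k).Infinite := Set.infinite_univ.sdiff (Set.finite_singleton 0)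
    have h2 : Infinite (Set.univ \ {0} : Set k) := h1.to_subtype
    exact Infinite.of_injective (fun x : (Set.univ \ {0} : Set k) => Units.mk0 x.1 (by
      have := x.2.2
      simpa using this)) (by
        intro x y hxy
        exact Subtype.ext (congrArg (fun z : kˣ => (z : k)) hxy))
  have hαex : ∀ i, ∃ b : kˣ, PowerSeries.constantCoeff (Te N (c i) (hc i).1 (hc i).2 b
      (goodB N a α)) ≠ 0 := by
    intro i
    obtain ⟨b, hb⟩ := (Te_finite (hc i).1 (hc i).2 _ hgood).infinite_compl.nonempty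
    exact ⟨b, hb⟩
  choose αi hval using hαex
  set T : ∀ i, Bann k N →+* PowerSeries (KK k) := fun i =>
    TEe N (c i) (hc i).1 (hc i).2 (αi i) with hT
  have hden : ∀ i, PowerSeries.constantCoeff (psi (T i) (MvPolynomial.C
      (3 * algebraMap (PowerSeries k) (KK k) α) * MvPolynomial.X 0 ^ 2 + MvPolynomial.X 1)) *
      PowerSeries.constantCoeff (T i (x3B k N 1)) ^ 3 ≠ 0 := by
    intro i
    have hv2 := TEe_ne _ _ _ (hval i)
    rw [goodB, map_mul, map_mul, map_mul, map_mul] at hv2
    have hx1 := left_ne_zero_of_mul (left_ne_zero_of_mul hv2)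
    have hsm := right_ne_zero_of_mul hv2
    have hTi : ∀ b, T i (iotaB N b) =
        PowerSeries.C (algebraMap (PowerSeries k) (KK k) b) := TEe_iota _ _ _
    exact mul_ne_zero (bp_smooth hTi hx1 α hsm) (pow_ne_zero _ hx1)
  set τ : Fin r → KK k := fun i => algebraMap (PowerSeries k) (KK k) (PowerSeries.C (t i : k)) *
    (∏ l, PowerSeries.constantCoeff (T i (thB N (a l)))) /
    (PowerSeries.constantCoeff (psi (T i) (MvPolynomial.C
      (3 * algebraMap (PowerSeries k) (KK k) α) * MvPolynomial.X 0 ^ 2 + MvPolynomial.X 1)) *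
      PowerSeries.constantCoeff (T i (x3B k N 1)) ^ 3) with hτ
  set PQ : Fin 9 → Fin 2 → Polynomial (KK k) := fun l i =>
    Polynomial.C (bp (TB N (a l)) i) with hPQ
  set PR : Fin r → Fin 2 → Polynomial (KK k) := fun i =>
    ![Polynomial.C (bp (T i) 0) + Polynomial.C (τ i) * Polynomial.X, Polynomial.C (bp (T i) 1)]
    with hPR
  refine ⟨fun l i => algebraMap (Polynomial (KK k)) (KX k) (PQ l i),
    fun i j => algebraMap (Polynomial (KK k)) (KX k) (PR i j), ?_⟩
  intro f hf
  rw [mem_LS_append] at hf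
  obtain ⟨hfd, hfQ, hfR⟩ := hf
  by_contra hf0
  obtain ⟨F, hF0, hFd, hFZ, hFμ⟩ := clear_xi (Fin.append PQ PR) d
    (Fin.append M m) ∅ f hf0 hfd (by simp) (by
      intro i
      refine Fin.addCases (fun i => ?_) (fun i => ?_) i
      · simpa using hfQ i
      · simpa using hfR i)
  have hFb : ∀ l i, F.coeff l ∈ ShghT.pt (bp (TB N (a i)) 0) (bp (TB N (a i)) 1) ^ (M i) := by
    intro l i
    refine coeff_mem_pt _ _ _ F ?_ l
    have h := hFμ (Fin.castAdd r i)
    rw [Fin.append_left, Fin.append_left, hPQ] at h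
    simpa only [Polynomial.map_C] using h
  have hFe : ∀ i, F ∈ (Ideal.span {Polynomial.C (X 0) - (Polynomial.C (C (bp (T i) 0)) +
      Polynomial.C (C (τ i)) * Polynomial.X),
      Polynomial.C (X 1) - Polynomial.C (C (bp (T i) 1))} :
      Ideal (Polynomial (MvPolynomial (Fin 2) (KK k)))) ^ m i := by
    intro i
    have h := hFμ (Fin.natAdd 9 i)
    rw [Fin.append_right, Fin.append_right, hPR] at h
    simpa only [Polynomial.map_C, Polynomial.map_add, Polynomial.map_mul, Polynomial.map_X,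
      Matrix.cons_val_zero, Matrix.cons_val_one] using h
  obtain ⟨w, H, hHth, ⟨j0, hj0, hHj0⟩, hHf, hHc⟩ := core_N hN d M hstd a ha ν hν α β δ hα hβ hδ
    hrel m c hc αi t hval τ (by
      intro i
      rw [hτ]
      exact div_mul_cancel₀ _ (hden i)) F hF0 hFd hFb hFe
  set H' : ℕ → Lam k := fun j => if j ≤ w then H j else 0 with hH'
  have hlev : LevN N d M a H' := by
    intro j hj
    by_cases hjw : j ≤ w
    · have h1 : H' j = H j := by rw [hH']; exact if_pos hjw
      rw [h1] at hj ⊢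
      exact hHf j hjw hj
    · have h1 : H' j = 0 := by rw [hH']; exact if_neg hjw
      exact absurd h1 hj
  have hth : ∀ j ≤ Jt d M, IsTh N e ((∏ l, (-(a l : k)) ^ M l) * (ν : k) ^ j) (H' j) := by
    intro j _
    by_cases hjw : j ≤ w
    · have h1 : H' j = H j := by rw [hH']; exact if_pos hjw
      rw [h1]
      exact hHth j hjw
    · have h1 : H' j = 0 := by rw [hH']; exact if_neg hjw
      rw [h1]
      exact IsTh.zero _ _ _
  have hcond : ∀ i a b, a + b < m i → ∀ n : ℕ, ∑ j ∈ Finset.range (Jt d M + 1),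
      (t i : k) ^ j * (j.choose b : k) * (∑ᶠ l : ℤ, cf (H' j) (n - c i * l) l *
        (αi i : k) ^ l * ((Ring.choose l a : ℤ) : k)) = 0 := by
    intro i a1 b1 hab n
    have hz : ∀ j, H' j = 0 → (t i : k) ^ j * (j.choose b1 : k) *
        (∑ᶠ l : ℤ, cf (H' j) (n - c i * l) l *
        (αi i : k) ^ l * ((Ring.choose l a1 : ℤ) : k)) = 0 := by
      intro j hj
      rw [hj]
      simp [cf_zero]
    have h1 : ∑ j ∈ Finset.range (Jt d M + 1), (t i : k) ^ j * (j.choose b1 : k) *
        (∑ᶠ l : ℤ, cf (H' j) (n - c i * l) l *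
        (αi i : k) ^ l * ((Ring.choose l a1 : ℤ) : k)) =
        ∑ j ∈ Finset.range (Jt d M + w + 1), (t i : k) ^ j * (j.choose b1 : k) *
        (∑ᶠ l : ℤ, cf (H' j) (n - c i * l) l *
        (αi i : k) ^ l * ((Ring.choose l a1 : ℤ) : k)) := by
      refine Finset.sum_subset (fun j hj => ?_) fun j _ hj => hz j ?_
      · rw [Finset.mem_range] at hj ⊢
        omega
      · by_contra h0
        have := (hlev j h0).1
        rw [Finset.mem_range] at hj
        omega
    have h2 : ∑ j ∈ Finset.range (w + 1), (t i : k) ^ j * (j.choose b1 : k) *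
        (∑ᶠ l : ℤ, cf (H' j) (n - c i * l) l *
        (αi i : k) ^ l * ((Ring.choose l a1 : ℤ) : k)) =
        ∑ j ∈ Finset.range (Jt d M + w + 1), (t i : k) ^ j * (j.choose b1 : k) *
        (∑ᶠ l : ℤ, cf (H' j) (n - c i * l) l *
        (αi i : k) ^ l * ((Ring.choose l a1 : ℤ) : k)) := by
      refine Finset.sum_subset (fun j hj => ?_) fun j _ hj => hz j ?_
      · rw [Finset.mem_range] at hj ⊢
        omega
      · rw [Finset.mem_range] at hj
        rw [hH']
        exact if_neg (by omega)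
    rw [h1, ← h2, ← hHc i a1 b1 hab n]
    refine Finset.sum_congr rfl fun j hj => ?_
    have h3 : H' j = H j := by
      rw [Finset.mem_range] at hj
      rw [hH']
      exact if_pos (by omega)
    rw [h3]
  have hall := no_theta he hN hu hstd (∏ l, (-(a l : k)) ^ M l) (ν : k) hγ ν.ne_zero m c
    (fun i => (hc i).1) A hfit (fun i => (αi i : k)) (fun i => (t i : k))
    (fun i => (αi i).ne_zero) (fun i => (t i).ne_zero)
    (fun i i' h => ht (Units.ext h)) hcov H' hth hlev hcond
  have h4 : H' j0 = H j0 := by rw [hH']; exact if_pos hj0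
  have h5 : H' j0 ≠ 0 := by rwa [h4]
  exact h5 (hall j0 (hlev j0 h5).1)

/-- As `ShghT.upper_W`. `exists_pot e (Σ i, m' i + 1)` with `m' = Fin.append m 1` gives `N`, `u`, `c`; `c i = c (p i) (n i)`
for `i ∈ T` (and `0` otherwise), `A i l = pat (m' i) (p i) (n i) l` for `i ∈ T`, `0` otherwise (then `FitZ` is trivial).
`a`, `ν`, `t`: `K` is infinite, choose `a : Fin 9 → Kˣ` and `t` injective, `ν` the inverse of the product.
`curve_rel`, `special_empty`, `finrank_le_of_special`. -/
theorem upper {F K : Type*} [Field F] [Field K] [Algebra F K] [Infinite K] {r : ℕ}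
    (P : Fin (9 + r) → Fin 2 → K)
    (hP : AlgebraicIndependent F (fun ij : Fin (9 + r) × Fin 2 => P ij.1 ij.2))
    (δ : ℕ) (M : Fin 9 → ℕ) (m : Fin r → ℕ) (e : ℕ) (he : 0 < e) (hstd : Std δ M e)
    (n₁ : ℕ) (T : Finset (Fin (r + n₁))) (p n : Fin (r + n₁) → ℕ)
    (hA : ∀ i ∈ T, Adm e (Fin.append m (fun _ : Fin n₁ => 1) i) (p i) (n i))
    (hcov : ∀ l < e, DN δ M e l ≤
      ∑ i ∈ T, pat (Fin.append m (fun _ : Fin n₁ => 1) i) (p i) (n i) l) :
    Module.finrank K (LS δ (Fin.append M m) P) ≤ n₁ := by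
  classical
  set m' : Fin (r + n₁) → ℕ := Fin.append m (fun _ : Fin n₁ => 1) with hm'
  obtain ⟨N, u, c, hN, hu, hfit⟩ := exists_pot e (∑ i, m' i + 1) he
  obtain ⟨a, ν, t, ha, hν, hdist⟩ := setup (k := K) e m' (fun _ => 0)
  obtain ⟨α, β, δ', hα, hβ, hδ', hrel⟩ := curve_rel K (N := N) hN
  have hle : ∀ i, m' i ≤ ∑ i, m' i + 1 := fun i =>
    (Finset.single_le_sum (f := m') (fun _ _ => Nat.zero_le _) (Finset.mem_univ i)).trans
      (Nat.le_succ _)
  have ht : Function.Injective t := by
    intro i i' h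
    refine (hdist i i' 0 0 ?_ ?_ ?_).1
    · rw [Finset.mem_Icc]
      constructor <;> omega
    · rw [Finset.mem_Icc]
      constructor <;> omega
    · rw [h]
  obtain ⟨Q, R, h⟩ := special_empty he hN hu δ M hstd a ha ν hν α β δ' hα hβ hδ' hrel
    m' (fun i => if i ∈ T then ((c (p i) (n i) : ℕ) : ℤ) else 0) (by
      intro i
      split_ifs with hi
      · refine ⟨by positivity, ?_⟩
        have := (hfit (m' i) (p i) (n i) (hA i hi) ((hA i hi).le.trans (hle i))).1
        exact_mod_cast this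
      · exact ⟨le_rfl, by exact_mod_cast hN⟩)
    (fun i l => if i ∈ T then pat (m' i) (p i) (n i) l else 0) (by
      intro i
      by_cases hi : i ∈ T
      · simp only [if_pos hi]
        exact (hfit (m' i) (p i) (n i) (hA i hi) ((hA i hi).le.trans (hle i))).2
      · simp only [if_neg hi]
        intro l₀ _ h0
        exact absurd h0 (lt_irrefl 0)) t ht (by
      intro l hl
      refine (hcov l hl).trans (le_of_eq ?_)
      rw [← Finset.sum_filter]
      refine Finset.sum_congr ?_ fun _ _ => rfl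
      ext i
      simp)
  have := finrank_le_of_special P hP δ M m n₁ ∅ Q R (fun f hf _ => h f hf)
  simpa using this

end ShghN
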