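import Pool.Agent.ShghN.PotZ
import Pool.Agent.ShghT.Interp
import Pool.Agent.ShghT.Cf

/-!
# The leading polynomials vanish at the points
-/

namespace ShghN

open ShghQ ShghT

variable {k : Type*} [Field k]

/-- Let `n = v - valZ u c l₀ = (v - u l₀) + c l₀` (if `v - u l₀ < 0` all terms of the claim are zero by `cf_neg`;
otherwise `n ≥ 0`). If `cf (H j) (n - c l) l ≠ 0` then `v ≤ n - c l + u l`, that is `valZ u c l₀ ≤ valZ u c l`, so
`s ≤ l ≤ s + m - a₀` by `hfit`. Put `z l = Σ_j t ^ j (j choose b) cf (H j) (n - c l) l α ^ l`; `hcond` gives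
`Σ_l z l (l choose a) = 0` for all `a < m - b` (the sums over `l` are finite, supported in `[s, s + m - a₀]`,
which has `m - a₀ + 1 ≤ m - b` elements). `ShghT.interp` with `lo = s`, `M = m - b` and the index of `l₀`
gives a linear combination of these equations which is `z l₀ = 0`. Divide by `α ^ l₀`. (`s ≤ l₀ ≤ s + m - a₀` by `hfit`
with `l = l₀`.) -/
theorem van {u : ℤ → ℤ} (J : ℕ) (H : ℕ → Lam k) (c : ℤ) (hc : 0 ≤ c) (α t : k)
    (hα : α ≠ 0) (m : ℕ)
    (hcond : ∀ a b, a + b < m → ∀ n : ℕ, ∑ j ∈ Finset.range (J + 1),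
      t ^ j * (j.choose b : k) * (∑ᶠ l : ℤ, cf (H j) (n - c * l) l * α ^ l *
        ((Ring.choose l a : ℤ) : k)) = 0)
    (v : ℤ) (hw : ∀ j ≤ J, ∀ n l : ℤ, n + u l < v → cf (H j) n l = 0) (l₀ a₀ : ℕ) (s : ℤ)
    (hfit : ∀ l : ℤ, valZ u c l₀ ≤ valZ u c l → s ≤ l ∧ l + a₀ ≤ s + m) (b : ℕ) (hb : b < a₀) :
    ∑ j ∈ Finset.range (J + 1), t ^ j * (j.choose b : k) * cf (H j) (v - u l₀) l₀ = 0 := by
  by_cases hneg : v - u l₀ < 0
  · exact Finset.sum_eq_zero (fun j _ => by rw [cf_neg _ hneg, mul_zero])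
  obtain ⟨n, hn⟩ : ∃ n : ℕ, (n : ℤ) = v - u l₀ + c * l₀ := by
    have h1 : 0 ≤ v - u l₀ + c * l₀ := by
      have h2 : 0 ≤ c * (l₀ : ℤ) := mul_nonneg hc (Int.natCast_nonneg _)
      omega
    exact ⟨(v - u l₀ + c * l₀).toNat, Int.toNat_of_nonneg h1⟩
  obtain ⟨hs1, hs2⟩ := hfit l₀ le_rfl
  obtain ⟨p, hp⟩ : ∃ p : ℕ, (l₀ : ℤ) = s + p :=
    ⟨((l₀ : ℤ) - s).toNat, by rw [Int.toNat_of_nonneg (by omega)]; ring⟩
  have hsup : ∀ j ≤ J, ∀ l : ℤ, cf (H j) (n - c * l) l ≠ 0 → s ≤ l ∧ l + a₀ ≤ s + m := by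
    intro j hj l h
    apply hfit
    by_contra hlt
    apply h
    apply hw j hj
    unfold valZ at hlt
    rw [hn]
    linarith
  have hpm : p < m - b := by omega
  obtain ⟨d, hd⟩ := interp s (m - b) p hpm
  -- the equations
  have heq : ∀ a < m - b, ∑ i ∈ Finset.range (m - b),
      (∑ j ∈ Finset.range (J + 1), t ^ j * (j.choose b : k) *
        (cf (H j) (n - c * (s + i)) (s + i) * α ^ (s + (i : ℤ)))) *
          ((Ring.choose (s + (i : ℤ)) a : ℤ) : k) = 0 := by
    intro a ha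
    rw [← hcond a b (by omega) n]
    simp only [Finset.sum_mul]
    rw [Finset.sum_comm]
    refine Finset.sum_congr rfl (fun j hj => ?_)
    rw [Finset.mem_range] at hj
    have h1 : ∑ᶠ l : ℤ, cf (H j) (n - c * l) l * α ^ l * ((Ring.choose l a : ℤ) : k) =
        ∑ l ∈ (Finset.range (m - b)).image (fun i : ℕ => s + (i : ℤ)),
          cf (H j) (n - c * l) l * α ^ l * ((Ring.choose l a : ℤ) : k) := by
      refine finsum_eq_sum_of_support_subset _ ?_
      intro l hl
      have h2 : cf (H j) (n - c * l) l ≠ 0 := by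
        intro h0
        apply hl
        change cf (H j) (n - c * l) l * α ^ l * ((Ring.choose l a : ℤ) : k) = 0
        rw [h0, zero_mul, zero_mul]
      obtain ⟨h3, h4⟩ := hsup j (by omega) l h2
      rw [Finset.coe_image, Set.mem_image]
      refine ⟨(l - s).toNat, ?_, ?_⟩
      · rw [Finset.coe_range, Set.mem_Iio]
        omega
      · rw [Int.toNat_of_nonneg (by omega)]
        ring
    rw [h1, Finset.sum_image (fun x _ y _ h => by
      have h5 : s + (x : ℤ) = s + (y : ℤ) := h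
      omega), Finset.mul_sum]
    exact Finset.sum_congr rfl (fun i _ => by ring)
  have hz : ∑ a ∈ Finset.range (m - b), ((d a : ℤ) : k) * ∑ i ∈ Finset.range (m - b),
      (∑ j ∈ Finset.range (J + 1), t ^ j * (j.choose b : k) *
        (cf (H j) (n - c * (s + i)) (s + i) * α ^ (s + (i : ℤ)))) *
          ((Ring.choose (s + (i : ℤ)) a : ℤ) : k) = 0 :=
    Finset.sum_eq_zero (fun a ha => by rw [heq a (Finset.mem_range.mp ha), mul_zero])
  have hz2 : ∑ i ∈ Finset.range (m - b),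
      (∑ j ∈ Finset.range (J + 1), t ^ j * (j.choose b : k) *
        (cf (H j) (n - c * (s + i)) (s + i) * α ^ (s + (i : ℤ)))) *
          (if i = p then 1 else 0) = 0 := by
    refine Eq.trans ?_ hz
    simp only [Finset.mul_sum (Finset.range (m - b)) _ ((d _ : ℤ) : k)]
    refine Eq.trans ?_ Finset.sum_comm
    refine Finset.sum_congr rfl (fun i hi => ?_)
    have h6 : ((if i = p then 1 else 0 : ℤ) : k) = if i = p then (1 : k) else 0 := by
      split_ifs <;> simp
    rw [← h6, ← hd i (Finset.mem_range.mp hi), Int.cast_sum, Finset.mul_sum]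
    refine Finset.sum_congr rfl (fun a _ => ?_)
    rw [Int.cast_mul]
    ring
  rw [Finset.sum_eq_single p (fun i _ hi => by rw [if_neg hi, mul_zero])
    (fun h => absurd (Finset.mem_range.mpr hpm) h), if_pos rfl, mul_one, ← hp] at hz2
  have h7 : (n : ℤ) - c * l₀ = v - u l₀ := by
    rw [hn]
    ring
  rw [h7] at hz2
  have h8 : (∑ j ∈ Finset.range (J + 1), t ^ j * (j.choose b : k) * cf (H j) (v - u l₀) l₀) *
      α ^ (l₀ : ℤ) = 0 := by
    rw [← hz2, Finset.sum_mul]
    exact Finset.sum_congr rfl (fun j _ => by ring)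
  exact (mul_eq_zero.mp h8).resolve_right (zpow_ne_zero _ hα)

end ShghN
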